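import Pool.Agent.Helper51.ST.Defs

/-! # Project ST, module ST-1: elementary facts on rooted trees -/

set_option autoImplicit false

namespace Pool.Agent.Helper51.ST

open Finset Pool.Agent.Helper51.BN

namespace RT

theorem h_le (x : RT) : x.h ≤ x.e := by
  induction x with
  | pt => exact le_rfl
  | ext x ih => simp only [RT.h, RT.e]; omega
  | join x y ihx ihy => simp only [RT.h, RT.e]; omega

theorem N_eq_zero {t : ℕ} (ht : 1 ≤ t) (x : RT) : x.N t = 0 ↔ x.h < t := by
  induction x with
  | pt => exact ⟨fun _ => ht, fun _ => rfl⟩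
  | ext x ih =>
    simp only [RT.N, RT.h]
    split_ifs with h1
    · exact ⟨fun h => h.elim, fun h => by omega⟩
    · rw [ih]; omega
  | join x y ihx ihy =>
    simp only [RT.N, RT.h]
    rw [Nat.add_eq_zero_iff, ihx, ihy]
    omega

theorem e_eq {t : ℕ} (ht : 1 ≤ t) {x : RT} (hx : x.N t ≤ 1) : x.e = x.w t + x.h := by
  induction x with
  | pt => rfl
  | ext x ih =>
    simp only [RT.N, RT.h, RT.e, RT.w] at hx ⊢
    split_ifs at hx with h1
    · have := (N_eq_zero ht x).2 (by omega)
      have := ih (by omega)
      omega
    · have := ih hx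
      omega
  | join x y ihx ihy =>
    simp only [RT.N, RT.h, RT.e, RT.w] at hx ⊢
    have h1 := N_eq_zero ht x
    have h2 := N_eq_zero ht y
    have h3 := ihx (by omega)
    have h4 := ihy (by omega)
    have h5 : x.h < t ∨ y.h < t := by
      rcases Nat.eq_zero_or_pos (x.N t) with h | h
      · exact Or.inl (h1.1 h)
      · exact Or.inr (h2.1 (by omega))
    split_ifs with h6
    · omega
    · omega

theorem N_mul_le {t : ℕ} (ht : 1 ≤ t) (x : RT) : t * x.N t + x.w t ≤ x.e := by
  induction x with
  | pt => simp [RT.N, RT.w, RT.e]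
  | ext x ih =>
    simp only [RT.N, RT.e, RT.w]
    split_ifs with h1
    · have h2 := (N_eq_zero ht x).2 (by omega)
      have := e_eq ht (x := x) (by omega)
      omega
    · omega
  | join x y ihx ihy =>
    simp only [RT.N, RT.e, RT.w]
    rw [mul_add]
    split_ifs with h1
    · rcases le_total x.h y.h with h2 | h2
      · have h3 := (N_eq_zero ht x).2 (by omega)
        have h4 := e_eq ht (x := x) (by omega)
        rw [h3, mul_zero]
        omega
      · have h3 := (N_eq_zero ht y).2 (by omega)
        have h4 := e_eq ht (x := y) (by omega)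
        rw [h3, mul_zero]
        omega
    · omega

theorem N_anti {s t : ℕ} (hs : 1 ≤ s) (hst : s ≤ t) (x : RT) : x.N t ≤ x.N s := by
  induction x with
  | pt => exact le_rfl
  | ext x ih =>
    simp only [RT.N]
    have h1 := N_eq_zero hs x
    have h2 := N_eq_zero (hs.trans hst) x
    split_ifs with h3 h4 h4
    · exact le_rfl
    · by_contra hcon
      have := h1.1 (by omega)
      omega
    · have := h2.2 (by omega)
      omega
    · exact ih
  | join x y ihx ihy =>
    simp only [RT.N]
    omega

theorem N_le_add_aux {p t : ℕ} (hp : 1 ≤ p) (hpt : p ≤ t) (x : RT) :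
    p * x.N p ≤ p * x.N t + x.w t + if x.h < t then p else 0 := by
  induction x with
  | pt => simp [RT.N]
  | ext x ih =>
    simp only [RT.N, RT.w, RT.h]
    have h2 := N_eq_zero (hp.trans hpt) x
    by_cases h3 : x.h + 1 = p
    · rw [if_pos h3, mul_one]
      by_cases h4 : x.h + 1 = t
      · rw [if_pos h4]; omega
      · rw [if_neg h4, if_pos (show x.h + 1 < t by omega)]; omega
    · rw [if_neg h3]
      by_cases h4 : x.h + 1 = t
      · have h5 := h2.2 (by omega)
        rw [if_pos (show x.h < t by omega), h5] at ih
        rw [if_pos h4]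
        omega
      · rw [if_neg h4]
        by_cases h5 : x.h < t
        · rw [if_pos h5] at ih
          rw [if_pos (show x.h + 1 < t by omega)]
          exact ih
        · rw [if_neg h5] at ih
          rw [if_neg (show ¬ x.h + 1 < t by omega)]
          exact ih
  | join x y ihx ihy =>
    simp only [RT.N, RT.w, RT.h]
    rw [mul_add, mul_add]
    have h1 : p ≤ x.h ∨ p * x.N p = 0 := by
      rcases Nat.lt_or_ge x.h p with h | h
      · exact Or.inr (by rw [(N_eq_zero hp x).2 h, mul_zero])
      · exact Or.inl h
    have h2 : p ≤ y.h ∨ p * y.N p = 0 := by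
      rcases Nat.lt_or_ge y.h p with h | h
      · exact Or.inr (by rw [(N_eq_zero hp y).2 h, mul_zero])
      · exact Or.inl h
    split_ifs at ihx ihy ⊢ <;> omega

/-- Paths of length between `p` and `t` contribute to `w t`. -/
theorem N_le_add {p t : ℕ} (hp : 1 ≤ p) (hpt : p ≤ t) (x : RT) :
    p * x.N p ≤ p * x.N t + x.w t + p := by
  have := N_le_add_aux hp hpt x
  split_ifs at this <;> omega

theorem s_eq_zero {t : ℕ} {x : RT} (hx : x.h < t) : x.s t = 0 := by
  induction x with
  | pt => rfl
  | ext x ih =>
    simp only [RT.s, RT.h] at hx ⊢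
    rw [ih (by omega), if_neg (by omega)]
  | join x y ihx ihy =>
    simp only [RT.s, RT.h] at hx ⊢
    rw [ihx (by omega), ihy (by omega)]

end RT

variable {V : Type*} [DecidableEq V] {G : SimpleGraph V}

theorem Tr.mem {x : RT} {S : Finset V} {r : V} (H : Tr G x S r) : r ∈ S := by
  induction H with
  | pt r => exact mem_singleton_self r
  | ext r _ _ _ _ => exact mem_insert_self _ _
  | join _ _ _ ih _ => exact mem_union_left _ ih

theorem Tr.built {x : RT} {S : Finset V} {r : V} (H : Tr G x S r) : Built G S r x.e x.h := by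
  induction H with
  | pt r => exact Built.pt r
  | ext r _ hadj _ ih => exact Built.ext r ih hadj
  | join _ _ _ ih1 ih2 => exact Built.join ih1 ih2

theorem Tr.card {x : RT} {S : Finset V} {r : V} (H : Tr G x S r) : S.card = x.e + 1 := by
  induction H with
  | pt r => rfl
  | ext r _ _ hr ih =>
    rw [card_insert_of_notMem hr, ih]
    rfl
  | @join x y S T r _ _ hST ih1 ih2 =>
    have := card_union_add_card_inter S T
    rw [hST, card_singleton, ih1, ih2] at this
    simp only [RT.e]
    omega

end Pool.Agent.Helper51.ST
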