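import Pool.Agent.Helper51.ST.Defs
import Pool.Agent.Helper51.BN.Light

/-! # Project ST, module ST-3: cheap averages of the small balls -/

set_option autoImplicit false

namespace Pool.Agent.Helper51.ST

open Finset Pool.Agent.Helper51.BN

private theorem convex_sum {g : ℕ → ℝ} {b : ℕ} {K : ℝ} (hg : CF g b K) {i j k : ℕ} (hij : i ≤ j)
    (hjk : j ≤ k) (hkb : k ≤ b) :
    ((k : ℝ) - i) * ∑ l ∈ range j, g l ≤
      ((k : ℝ) - j) * ∑ l ∈ range i, g l + ((j : ℝ) - i) * ∑ l ∈ range k, g l := by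
  have h1 : ∑ l ∈ range j, g l - ∑ l ∈ range i, g l ≤ ((j : ℝ) - i) * g j := by
    rw [← Finset.sum_Ico_eq_sub _ hij]
    have h := Finset.sum_le_card_nsmul (Ico i j) g (g j) (fun l hl =>
      hg.mono l j (Finset.mem_Ico.1 hl).2.le (hjk.trans hkb))
    rw [Nat.card_Ico, nsmul_eq_mul, Nat.cast_sub hij] at h
    exact h
  have h2 : ((k : ℝ) - j) * g j ≤ ∑ l ∈ range k, g l - ∑ l ∈ range j, g l := by
    rw [← Finset.sum_Ico_eq_sub _ hjk]
    have h := Finset.card_nsmul_le_sum (Ico j k) g (g j) (fun l hl =>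
      hg.mono j l (Finset.mem_Ico.1 hl).1 ((Finset.mem_Ico.1 hl).2.le.trans hkb))
    rw [Nat.card_Ico, nsmul_eq_mul, Nat.cast_sub hjk] at h
    exact h
  have h3 : (0 : ℝ) ≤ (k : ℝ) - j := sub_nonneg.2 (Nat.cast_le.2 hjk)
  have h4 : (0 : ℝ) ≤ (j : ℝ) - i := sub_nonneg.2 (Nat.cast_le.2 hij)
  have h5 := mul_le_mul_of_nonneg_left h1 h3
  have h6 := mul_le_mul_of_nonneg_left h2 h4
  nlinarith

theorem range_le {g : ℕ → ℝ} {b : ℕ} {K ε : ℝ} (hg : CF g b K) (hε : 0 ≤ ε) (hε1 : ε ≤ 1)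
    (hN : NF g b K ε) {j : ℕ} (hj : j ≤ b) :
    2 * ∑ i ∈ range j, g i ≤ K * (j - ε * min (j : ℝ) ((b : ℝ) - j)) := by
  obtain ⟨h, hhb, hh⟩ := hN
  have hK : 0 ≤ K := (hg.nonneg b).trans hg.top
  have hjb : (j : ℝ) ≤ b := Nat.cast_le.2 hj
  have hhb' : (h : ℝ) ≤ b := Nat.cast_le.2 hhb
  have hj0 : (0 : ℝ) ≤ j := Nat.cast_nonneg j
  have hKε : 0 ≤ K * ε := mul_nonneg hK hε
  have hmin1 : min (j : ℝ) ((b : ℝ) - j) ≤ j := min_le_left _ _
  have hmin2 : min (j : ℝ) ((b : ℝ) - j) ≤ (b : ℝ) - j := min_le_right _ _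
  rcases Nat.eq_zero_or_pos h with h0 | h0
  · subst h0
    have e1 := sum_range_le hg hj
    simp only [Finset.range_zero, Finset.sum_empty, mul_zero, Nat.cast_zero, zero_sub] at hh
    have e2 := mul_le_mul_of_nonneg_left (hmin1.trans hjb) hKε
    nlinarith
  · have h0' : (0 : ℝ) < h := Nat.cast_pos.2 h0
    rcases le_total j h with hjh | hjh
    · have e1 := convex_sum hg (Nat.zero_le j) hjh hhb
      simp only [Finset.range_zero, Finset.sum_empty, mul_zero, Nat.cast_zero, sub_zero,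
        zero_add] at e1
      have e2 := mul_le_mul_of_nonneg_left hh hj0
      have e3 := mul_le_mul_of_nonneg_left hmin1 hKε
      have e4 : K * ε * ((j : ℝ) * h) ≤ K * ε * (j * b) :=
        mul_le_mul_of_nonneg_left (mul_le_mul_of_nonneg_left hhb' hj0) hKε
      have e5 : (h : ℝ) * (2 * ∑ i ∈ range j, g i) ≤ h * (K * (j - ε * j)) := by
        nlinarith
      have e6 := le_of_mul_le_mul_left e5 h0'
      nlinarith
    · rcases Nat.lt_or_ge h b with hb | hb
      · have hbh : (0 : ℝ) < (b : ℝ) - h := sub_pos.2 (Nat.cast_lt.2 hb)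
        have e1 := convex_sum hg hjh hj le_rfl
        have e0 := sum_range_le hg (le_refl b)
        have hbj : (0 : ℝ) ≤ (b : ℝ) - j := sub_nonneg.2 hjb
        have hjh' : (0 : ℝ) ≤ (j : ℝ) - h := sub_nonneg.2 (Nat.cast_le.2 hjh)
        have e2 := mul_le_mul_of_nonneg_left hh hbj
        have e3 := mul_le_mul_of_nonneg_left e0 hjh'
        have e4 : K * ε * (((b : ℝ) - j) * (b - h)) ≤ K * ε * ((b - j) * b) :=
          mul_le_mul_of_nonneg_left (mul_le_mul_of_nonneg_left (by linarith) hbj) hKε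
        have e5 : ((b : ℝ) - h) * (2 * ∑ i ∈ range j, g i) ≤
            (b - h) * (K * (j - ε * (b - j))) := by
          nlinarith
        have e6 := le_of_mul_le_mul_left e5 hbh
        have e7 := mul_le_mul_of_nonneg_left hmin2 hKε
        nlinarith
      · have e0 : h = b := le_antisymm hhb hb
        have e1 : j = b := le_antisymm hj (e0 ▸ hjh)
        subst e1
        subst e0
        have e7 := mul_le_mul_of_nonneg_left hmin2 hKε
        have e8 : 0 ≤ K * ε * (h : ℝ) := mul_nonneg hKε h0'.le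
        nlinarith

end Pool.Agent.Helper51.ST
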