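import Pool.Agent.Helper51.ST.PathWindow
import Pool.Agent.Helper51.ST.Range

/-! # Project ST, module ST-6c: the gain at the end of a path -/

set_option autoImplicit false

namespace Pool.Agent.Helper51.ST

open Finset Pool.Agent.Helper51.BN

/-- the total length of a list of radii -/
private def ln (l : List ℕ) : ℕ := (l.map fun r => 2 * r + 1).sum

private theorem ln_append (l l' : List ℕ) : ln (l ++ l') = ln l + ln l' := by
  simp [ln]

private theorem ln_cons (r : ℕ) (l : List ℕ) : ln (r :: l) = 2 * r + 1 + ln l := by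
  simp [ln]

private theorem greedy_list {g : ℕ → ℝ} {Y : ℕ} {ζ : ℝ} (hζ : 0 ≤ ζ) (l : List ℕ) :
    ∀ p : List ℕ, (∀ s : List ℕ, s.Sublist (p ++ l) → ln s ≤ Y → (s.map g).sum ≤ ζ) →
      (∀ r ∈ l, 2 * r + 1 ≤ Y) → ln p ≤ Y →
      (Y : ℝ) * ((p ++ l).map g).sum ≤ ζ * (2 * (ln (p ++ l) : ℝ) + Y) := by
  induction l with
  | nil =>
    intro p hs _ hp
    have h1 := hs p (by simp) hp
    rw [List.append_nil]
    have h2 : (Y : ℝ) * (p.map g).sum ≤ Y * ζ := mul_le_mul_of_nonneg_left h1 (Nat.cast_nonneg _)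
    have h3 : 0 ≤ ζ * (2 * (ln p : ℝ)) := by positivity
    nlinarith
  | cons r l ih =>
    intro p hs hr hp
    by_cases hc : ln p + (2 * r + 1) ≤ Y
    · have h1 := ih (p ++ [r]) (by simpa using hs) (fun x hx => hr x (List.mem_cons_of_mem _ hx))
        (by
          rw [ln_append, ln_cons]
          simpa [ln] using hc)
      simpa using h1
    · have h1 : (p.map g).sum ≤ ζ := hs p (List.sublist_append_left _ _) hp
      have h2 : g r ≤ ζ := by
        have := hs [r] (by
          refine (List.Sublist.trans ?_ (List.sublist_append_right p (r :: l)))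
          exact List.singleton_sublist.2 (List.mem_cons_self)) (by
          rw [ln_cons]
          simpa [ln] using hr r (List.mem_cons_self))
        simpa using this
      have h3 := ih [] (fun s hs' hl => hs s (by
          have h5 : l.Sublist (p ++ r :: l) :=
            (List.sublist_cons_self r l).trans (List.sublist_append_right p (r :: l))
          exact (by simpa using hs' : s.Sublist l).trans h5) hl)
        (fun x hx => hr x (List.mem_cons_of_mem _ hx)) (by simp [ln])
      rw [List.nil_append] at h3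
      rw [ln_append, ln_cons, List.map_append, List.sum_append, List.map_cons, List.sum_cons]
      have h4 : (Y : ℝ) ≤ ln p + (2 * r + 1) := by
        push Not at hc
        exact_mod_cast hc.le
      have h5 : (Y : ℝ) * ((p.map g).sum + g r) ≤ Y * (2 * ζ) :=
        mul_le_mul_of_nonneg_left (by linarith) (Nat.cast_nonneg _)
      have h6 : ζ * (Y : ℝ) ≤ ζ * (ln p + (2 * r + 1)) := mul_le_mul_of_nonneg_left h4 hζ
      push_cast
      linarith

private theorem sum_half (g : ℕ → ℝ) (m : ℕ) :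
    ∑ y ∈ range (2 * m), g (y / 2) = 2 * ∑ j ∈ range m, g j := by
  induction m with
  | zero => simp
  | succ m ih =>
    rw [show 2 * (m + 1) = 2 * m + 1 + 1 by ring, Finset.sum_range_succ, Finset.sum_range_succ,
      Finset.sum_range_succ, ih]
    rw [show 2 * m / 2 = m by omega, show (2 * m + 1) / 2 = m by omega]
    ring

private theorem case_a {g : ℕ → ℝ} {b : ℕ} {K ε : ℝ} (hg : CF g b K) (hK : 0 < K) (hε : 0 < ε)
    (hε1 : ε ≤ 1) (hNF : NF g b K ε) (hb : 1000 ≤ ε * b) {L : ℕ} (h1 : b ≤ 2 * L)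
    (h2 : 4 * L ≤ 5 * b) :
    2 * ∑ i ∈ range b, P g b (L - i) ≤ K * (L - ε ^ 2 / 400 * b) := by
  have hb0 : (1000 : ℝ) ≤ b := by
    have : ε * b ≤ 1 * b := mul_le_mul_of_nonneg_right hε1 (Nat.cast_nonneg _)
    linarith
  have hb1 : 1000 ≤ b := by exact_mod_cast hb0
  have e1 : ∑ i ∈ range b, P g b (L - i) ≤ ∑ y ∈ range (L + 1), P g b y := by
    calc ∑ i ∈ range b, P g b (L - i) ≤ ∑ i ∈ range (L + 1 + b), P g b (L - i) :=
          Finset.sum_le_sum_of_subset_of_nonneg (Finset.range_mono (by omega))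
            fun i _ _ => P_nonneg hg.nonneg b _
      _ = ∑ i ∈ range (L + 1), P g b (L - i) + ∑ i ∈ range b, P g b (L - (L + 1 + i)) :=
          Finset.sum_range_add _ _ _
      _ = ∑ i ∈ range (L + 1), P g b (L - i) + 0 := by
          congr 1
          refine Finset.sum_eq_zero fun i _ => ?_
          rw [show L - (L + 1 + i) = 0 by omega, P_zero hg.nonneg]
      _ = ∑ y ∈ range (L + 1), P g b y := by
          rw [add_zero, ← Finset.sum_range_reflect (fun y => P g b y) (L + 1)]
          exact Finset.sum_congr rfl fun i _ => by rw [show L + 1 - 1 - i = L - i by omega]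
  have e2 : ∑ y ∈ range (L + 1), P g b y ≤ ∑ y ∈ range (2 * (L / 2 + 1)), g (y / 2) := by
    calc ∑ y ∈ range (L + 1), P g b y ≤ ∑ y ∈ range (L + 1), g (y / 2) :=
          Finset.sum_le_sum fun y hy => by
            rw [Finset.mem_range] at hy
            exact P_one hg.nonneg (by omega) (by omega)
      _ ≤ ∑ y ∈ range (2 * (L / 2 + 1)), g (y / 2) :=
          Finset.sum_le_sum_of_subset_of_nonneg (Finset.range_mono (by omega))
            fun i _ _ => hg.nonneg _
  rw [sum_half] at e2
  have e3 := range_le hg hε.le hε1 hNF (j := L / 2 + 1) (by omega)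
  set m := L / 2 + 1 with hm
  have m1 : (m : ℝ) ≤ (L : ℝ) / 2 + 1 := by
    have : 2 * m ≤ L + 2 := by omega
    have : (2 : ℝ) * m ≤ L + 2 := by exact_mod_cast this
    linarith
  have m2 : (b : ℝ) / 4 ≤ m := by
    have : b ≤ 4 * m := by omega
    have : (b : ℝ) ≤ 4 * m := by exact_mod_cast this
    linarith
  have m3 : (b : ℝ) / 4 ≤ b - m := by
    have : 4 * m ≤ 3 * b := by omega
    have : (4 : ℝ) * m ≤ 3 * b := by exact_mod_cast this
    linarith
  have m4 : (b : ℝ) / 4 ≤ min (m : ℝ) ((b : ℝ) - m) := le_min m2 m3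
  have m5 : ε * ((b : ℝ) / 4) ≤ ε * min (m : ℝ) ((b : ℝ) - m) :=
    mul_le_mul_of_nonneg_left m4 hε.le
  have m6 : ε ^ 2 * b ≤ ε * b := by
    have : ε ^ 2 ≤ ε * 1 := by rw [pow_two]; exact mul_le_mul_of_nonneg_left hε1 hε.le
    have := mul_le_mul_of_nonneg_right this (Nat.cast_nonneg b : (0 : ℝ) ≤ b)
    linarith
  have m7 : K * ((m : ℝ) - ε * min (m : ℝ) ((b : ℝ) - m)) ≤
      K * (((L : ℝ) - ε ^ 2 / 400 * b) / 2) :=
    mul_le_mul_of_nonneg_left (by linarith) hK.le
  linarith

private theorem window_split (p : ℕ → ℝ) {b L : ℕ} (hL : b ≤ L) :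
    ∑ y ∈ Icc (L + 1 - b) (L + 1 + b), p y =
      ∑ i ∈ range b, p (L - i) + p (L + 1) + ∑ i ∈ range b, p (L + 2 + i) := by
  have h1 : Icc (L + 1 - b) (L + 1 + b) = Ico (L + 1 - b) (L + 1 + b + 1) := by
    ext x
    rw [Finset.mem_Icc, Finset.mem_Ico]
    omega
  rw [h1, Finset.sum_Ico_eq_sum_range,
    show L + 1 + b + 1 - (L + 1 - b) = b + (1 + b) by omega, Finset.sum_range_add,
    Finset.sum_range_add, Finset.sum_range_one, add_assoc]
  congr 1
  · rw [← Finset.sum_range_reflect (fun i => p (L - i)) b]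
    refine Finset.sum_congr rfl fun i hi => ?_
    rw [Finset.mem_range] at hi
    congr 1
    omega
  · congr 1
    · congr 1
      omega
    · refine Finset.sum_congr rfl fun i _ => ?_
      congr 1
      omega

private theorem sum_ceil {b L D : ℕ} (hbD : b ≤ D) (hbL : b ≤ L) (hb : 0 < b) :
    ∑ i ∈ range b, (L - i + (D - 1)) / D ≤ L := by
  have hD : 0 < D := by omega
  set q := (L - 1) / D with hq
  have hq1 : q * D ≤ L - 1 := Nat.div_mul_le_self _ _
  have hq2 : L - 1 < (q + 1) * D := (Nat.div_lt_iff_lt_mul hD).1 (Nat.lt_succ_self _)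
  have h1 : ∀ i ∈ range b, (L - i + (D - 1)) / D ≤ q + if i < L - q * D then 1 else 0 := by
    intro i hi
    rw [Finset.mem_range] at hi
    split_ifs with h
    · rw [← Nat.lt_succ_iff, Nat.div_lt_iff_lt_mul hD]
      have : (q + 1 + 1) * D = (q + 1) * D + D := by ring
      rw [Nat.succ_eq_add_one, this]
      omega
    · rw [add_zero, ← Nat.lt_succ_iff, Nat.div_lt_iff_lt_mul hD]
      have : (q + 1) * D = q * D + D := by ring
      rw [Nat.succ_eq_add_one, this]
      omega
  refine (Finset.sum_le_sum h1).trans ?_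
  rw [Finset.sum_add_distrib, Finset.sum_const, Finset.card_range, smul_eq_mul,
    ← Finset.card_filter]
  have h2 : ((range b).filter fun i => i < L - q * D).card ≤ L - q * D := by
    calc ((range b).filter fun i => i < L - q * D).card ≤ (range (L - q * D)).card :=
          Finset.card_le_card fun i hi => by
            rw [Finset.mem_filter] at hi
            rw [Finset.mem_range]
            exact hi.2
      _ = L - q * D := Finset.card_range _
  rcases Nat.eq_zero_or_pos q with h0 | h0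
  · have h3 : ((range b).filter fun i => i < L - q * D).card ≤ b :=
      (Finset.card_filter_le _ _).trans (Finset.card_range b).le
    rw [h0] at h3 ⊢
    omega
  · have h3 : b * q ≤ q * D := by
      rw [mul_comm]
      exact Nat.mul_le_mul_left _ hbD
    omega

theorem path_lemma {g : ℕ → ℝ} {b : ℕ} {K ε : ℝ} (hg : CF g b K) (hK : 0 < K) (hε : 0 < ε)
    (hε1 : ε ≤ 1) (hNF : NF g b K ε) (hb : 1000 ≤ ε * b) {L : ℕ} (h1 : b ≤ 2 * L)
    (h2 : L ≤ 6 * b) :
    2 * ∑ i ∈ range b, P g b (L - i) ≤ K * (L - ε ^ 2 / 400 * b) := by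
  rcases Nat.lt_or_ge (5 * b) (4 * L) with h3 | h3
  swap
  · exact case_a hg hK hε hε1 hNF hb h1 h3
  by_contra hcon
  push Not at hcon
  set A := ∑ i ∈ range b, P g b (L - i) with hA
  set B := ∑ i ∈ range b, P g b (L + 2 + i) with hB
  have hb0 : (1000 : ℝ) ≤ b := by
    have : ε * b ≤ 1 * b := mul_le_mul_of_nonneg_right hε1 (Nat.cast_nonneg _)
    linarith
  have hb1 : 1000 ≤ b := by exact_mod_cast hb0
  have hbL : b ≤ L := by omega
  have hLr : (5 : ℝ) * b < 4 * L := by exact_mod_cast h3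
  have hLr2 : (L : ℝ) ≤ 6 * b := by exact_mod_cast h2
  have hεb : ε * b ≤ b := by
    have : ε * b ≤ 1 * b := mul_le_mul_of_nonneg_right hε1 (Nat.cast_nonneg _)
    linarith
  have hε2 : ε ^ 2 * b ≤ ε * b := by
    have : ε ^ 2 ≤ ε * 1 := by rw [pow_two]; exact mul_le_mul_of_nonneg_left hε1 hε.le
    have := mul_le_mul_of_nonneg_right this (Nat.cast_nonneg b : (0 : ℝ) ≤ b)
    linarith
  have hPn : ∀ y, 0 ≤ P g b y := P_nonneg hg.nonneg b
  have hPm : ∀ {y z : ℕ}, y ≤ z → P g b y ≤ P g b z := fun h => P_mono hg.nonneg b h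
  -- the window
  have hwin := window hg hbL
  rw [window_split _ hbL] at hwin
  have hAB : A + B ≤ K * L := by
    have := hPn (L + 1)
    linarith
  have hBA : B - A ≤ ε ^ 2 / 400 * K * b := by
    have : K * (L - ε ^ 2 / 400 * b) = K * L - ε ^ 2 / 400 * K * b := by ring
    linarith
  -- the last pairs
  obtain ⟨σ, hσ1, hσ2⟩ : ∃ σ : ℕ, ε * b / 16 ≤ σ ∧ (σ : ℝ) < ε * b / 16 + 1 :=
    ⟨⌈ε * b / 16⌉₊, Nat.le_ceil _, Nat.ceil_lt_add_one (by positivity)⟩
  have hσ0 : (0 : ℝ) < σ := by linarith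
  have hσb : (16 : ℝ) * σ < b + 16 := by linarith
  have hσb' : 16 * σ < b + 16 := by exact_mod_cast hσb
  have hσb2 : σ ≤ b := by omega
  set ζ : ℝ := P g b (L + 2 + (b - σ)) - P g b (L - (b - σ)) with hζd
  have hζ0 : 0 ≤ ζ := by
    have := hPm (show L - (b - σ) ≤ L + 2 + (b - σ) by omega)
    linarith
  have hζ : ζ * σ ≤ ε ^ 2 / 400 * K * b := by
    refine le_trans ?_ hBA
    have e1 : B - A = ∑ i ∈ range b, (P g b (L + 2 + i) - P g b (L - i)) := by
      rw [hA, hB, Finset.sum_sub_distrib]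
    have e2 : ∑ i ∈ Ico (b - σ) b, (P g b (L + 2 + i) - P g b (L - i)) ≤
        ∑ i ∈ range b, (P g b (L + 2 + i) - P g b (L - i)) :=
      Finset.sum_le_sum_of_subset_of_nonneg (fun i hi => by
        rw [Finset.mem_Ico] at hi
        rw [Finset.mem_range]
        exact hi.2) fun i _ _ => by
          have := hPm (show L - i ≤ L + 2 + i by omega)
          linarith
    have e3 : (Ico (b - σ) b).card • ζ ≤
        ∑ i ∈ Ico (b - σ) b, (P g b (L + 2 + i) - P g b (L - i)) :=
      Finset.card_nsmul_le_sum _ _ _ fun i hi => by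
        rw [Finset.mem_Ico] at hi
        have h5 := hPm (show L + 2 + (b - σ) ≤ L + 2 + i by omega)
        have h6 := hPm (show L - i ≤ L - (b - σ) by omega)
        linarith
    rw [Nat.card_Ico, show b - (b - σ) = σ by omega, nsmul_eq_mul] at e3
    linarith
  have hζK : ζ ≤ 0.04 * ε * K := by
    have e1 : ζ * (ε * b / 16) ≤ ζ * σ := mul_le_mul_of_nonneg_left hσ1 hζ0
    have e2 : ζ * (ε * b / 16) ≤ 0.04 * ε * K * (ε * b / 16) := by
      have : 0.04 * ε * K * (ε * b / 16) = ε ^ 2 / 400 * K * b := by ring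
      linarith
    exact le_of_mul_le_mul_right e2 (by positivity)
  have hεK : 0 < ε * K := mul_pos hε hK
  have hεK1 : ε * K ≤ K := by
    have := mul_le_mul_of_nonneg_right hε1 hK.le
    linarith
  -- the optimal list
  obtain ⟨l, hl1, hl2, hl3, hl4⟩ := exists_P hg.nonneg b (L + 2 + (b - σ))
  set Y := 2 * (b - σ) + 2 with hY
  have hYr : (Y : ℝ) = 2 * b - 2 * σ + 2 := by
    rw [hY]
    push_cast [Nat.cast_sub hσb2]
    ring
  have hsub : ∀ s : List ℕ, s.Sublist l → ln s ≤ Y → (s.map g).sum ≤ ζ := by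
    intro s hs hsY
    obtain ⟨t, ht⟩ := hs.exists_perm_append
    have e1 : (l.map g).sum = (s.map g).sum + (t.map g).sum := by
      rw [(ht.map g).sum_eq, List.map_append, List.sum_append]
    have e2 : (l.map fun r => 2 * r + 1).sum = ln s + ln t := by
      rw [(ht.map fun r => 2 * r + 1).sum_eq, List.map_append, List.sum_append]
      rfl
    have e3 : P g b (L - (b - σ)) ≤ (t.map g).sum := by
      refine P_le hg.nonneg (fun r hr => hl1 r (ht.mem_iff.2 (List.mem_append_right _ hr))) ?_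
      show L - (b - σ) ≤ ln t
      omega
    linarith
  by_cases hbig : ∃ r ∈ l, Y < 2 * r + 1
  · -- a large ball is shrunk
    obtain ⟨r, hr, hrY⟩ := hbig
    have hrb := hl1 r hr
    have ht := List.perm_cons_erase hr
    have e1 : (l.map g).sum = g r + ((l.erase r).map g).sum := by
      rw [(ht.map g).sum_eq, List.map_cons, List.sum_cons]
    have e2 : (l.map fun r => 2 * r + 1).sum = 2 * r + 1 + ln (l.erase r) := by
      rw [(ht.map fun r => 2 * r + 1).sum_eq, List.map_cons, List.sum_cons]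
      rfl
    have e3 : P g b (L - (b - σ)) ≤ g (r - (b - σ + 1)) + ((l.erase r).map g).sum := by
      have := P_le hg.nonneg (b := b) (y := L - (b - σ)) (l := (r - (b - σ + 1)) :: l.erase r)
        (fun x hx => by
          rcases List.mem_cons.1 hx with h | h
          · omega
          · exact hl1 x (List.mem_of_mem_erase h)) (by
          show _ ≤ ln ((r - (b - σ + 1)) :: l.erase r)
          rw [ln_cons]
          omega)
      rwa [List.map_cons, List.sum_cons] at this
    have e4 : g (b - σ) ≤ g σ + ζ := by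
      have h5 : g (b - σ) ≤ g r := hg.mono _ _ (by omega) hrb
      have h6 : g (r - (b - σ + 1)) ≤ g σ := hg.mono _ _ (by omega) hσb2
      linarith
    obtain ⟨h, hh1, hh2⟩ := hNF
    have hh0 : 0 ≤ 2 * ∑ j ∈ range h, g j :=
      mul_nonneg (by norm_num) (Finset.sum_nonneg fun j _ => hg.nonneg j)
    have hhε : ε * b ≤ h := by
      by_contra hc
      push Not at hc
      have : K * ((h : ℝ) - ε * b) < 0 := mul_neg_of_pos_of_neg hK (by linarith)
      linarith
    have hσh : (σ : ℝ) < h := by linarith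
    have hσh' : σ < h := by exact_mod_cast hσh
    have hhb : (h : ℝ) ≤ b := by exact_mod_cast hh1
    set g0 := g (b - σ) with hg0
    have e5 : ((h : ℝ) - σ) * (g0 - ζ) ≤ ∑ j ∈ range h, g j := by
      have h5 : (Ico σ h).card • (g0 - ζ) ≤ ∑ j ∈ Ico σ h, g j :=
        Finset.card_nsmul_le_sum _ _ _ fun j hj => by
          rw [Finset.mem_Ico] at hj
          have := hg.mono σ j hj.1 (by omega)
          linarith
      rw [Nat.card_Ico, nsmul_eq_mul, Nat.cast_sub hσh'.le] at h5
      refine h5.trans (Finset.sum_le_sum_of_subset_of_nonneg (fun j hj => ?_)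
        fun j _ _ => hg.nonneg j)
      rw [Finset.mem_Ico] at hj
      rw [Finset.mem_range]
      exact hj.2
    have hσε : (σ : ℝ) ≤ 0.0635 * (ε * b) := by linarith
    have hbσ : 0 < (b : ℝ) - σ := by linarith
    have e6 : 2 * (g0 - ζ) * ((b : ℝ) - σ) ≤ K * (b - ε * b) := by
      have h5 : ((h : ℝ) - ε * b) * (b - σ) ≤ (h - σ) * (b - ε * b) := by
        have : 0 ≤ ((b : ℝ) - h) * (ε * b - σ) := mul_nonneg (by linarith) (by linarith)
        nlinarith
      have h6 : 2 * (((h : ℝ) - σ) * (g0 - ζ)) ≤ K * (h - ε * b) := by linarith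
      have h7 : ((h : ℝ) - σ) * (2 * (g0 - ζ) * ((b : ℝ) - σ)) ≤
          (h - σ) * (K * (b - ε * b)) := by
        calc ((h : ℝ) - σ) * (2 * (g0 - ζ) * ((b : ℝ) - σ))
            = 2 * (((h : ℝ) - σ) * (g0 - ζ)) * (b - σ) := by ring
          _ ≤ K * (h - ε * b) * (b - σ) := mul_le_mul_of_nonneg_right h6 hbσ.le
          _ = K * (((h : ℝ) - ε * b) * (b - σ)) := by ring
          _ ≤ K * ((h - σ) * (b - ε * b)) := mul_le_mul_of_nonneg_left h5 hK.le
          _ = (h - σ) * (K * (b - ε * b)) := by ring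
      exact le_of_mul_le_mul_left h7 (by linarith)
    have e7 : 2 * (g0 - ζ) ≤ K * (1 - 0.9365 * ε) := by
      have h5 : (b : ℝ) - ε * b ≤ (1 - 0.9365 * ε) * (b - σ) := by
        have h6 : (1 - 0.9365 * ε) * (0.0635 * (ε * b)) ≤ 1 * (0.0635 * (ε * b)) :=
          mul_le_mul_of_nonneg_right (by linarith) (by positivity)
        have h7 : (1 - 0.9365 * ε) * σ ≤ (1 - 0.9365 * ε) * (0.0635 * (ε * b)) :=
          mul_le_mul_of_nonneg_left hσε (by linarith)
        nlinarith
      have h6 : 2 * (g0 - ζ) * ((b : ℝ) - σ) ≤ K * (1 - 0.9365 * ε) * (b - σ) := by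
        have := mul_le_mul_of_nonneg_left h5 hK.le
        linarith
      exact le_of_mul_le_mul_right h6 hbσ
    have e8 : 2 * g0 ≤ K * (1 - ε / 2) := by
      have : 0 < K * ε := mul_pos hK hε
      linarith
    -- the cover by equal balls
    have e9 : A ≤ L * g0 := by
      have h5 : A ≤ ∑ i ∈ range b, (((L - i + 2 * (b - σ)) / (2 * (b - σ) + 1) : ℕ) : ℝ) * g0 :=
        Finset.sum_le_sum fun i _ => P_flat hg.nonneg (by omega) _
      rw [← Finset.sum_mul] at h5
      have h6 := sum_ceil (b := b) (L := L) (D := 2 * (b - σ) + 1) (by omega) hbL (by omega)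
      rw [show 2 * (b - σ) + 1 - 1 = 2 * (b - σ) by omega] at h6
      have h7 : (∑ i ∈ range b, (((L - i + 2 * (b - σ)) / (2 * (b - σ) + 1) : ℕ) : ℝ)) ≤ L := by
        exact_mod_cast h6
      exact h5.trans (mul_le_mul_of_nonneg_right h7 (hg.nonneg _))
    have e10 : 2 * A ≤ K * (1 - ε / 2) * L := by
      have := mul_le_mul_of_nonneg_right e8 (Nat.cast_nonneg L : (0 : ℝ) ≤ L)
      linarith
    have e11 : K * (1 - ε / 2) * L ≤ K * (L - ε ^ 2 / 400 * b) := by
      have h5 : ε ^ 2 / 400 * b ≤ ε / 2 * L := by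
        have : ε * b ≤ ε * (4 / 5 * L) := mul_le_mul_of_nonneg_left (by linarith) hε.le
        have : 0 ≤ ε * L := by positivity
        linarith
      have := mul_le_mul_of_nonneg_left h5 hK.le
      linarith
    linarith
  · -- all balls are small
    push Not at hbig
    have e1 := greedy_list (g := g) hζ0 l [] (fun s hs hl => hsub s (by simpa using hs) hl)
      hbig (by simp [ln])
    rw [List.nil_append, hl3] at e1
    have e2 : (ln l : ℝ) ≤ 9 * b + 2 := by
      have h5 : ln l ≤ L + 2 + (b - σ) + 2 * b := hl4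
      have h6 : ln l ≤ 9 * b + 2 := by omega
      exact_mod_cast h6
    have hY1 : 1.85 * (b : ℝ) ≤ Y := by
      rw [hYr]
      linarith
    have e3 : P g b (L + 2 + (b - σ)) ≤ 12 * ζ := by
      have h5 : ζ * (2 * (ln l : ℝ) + Y) ≤ ζ * (12 * Y) :=
        mul_le_mul_of_nonneg_left (by linarith) hζ0
      have h6 : (Y : ℝ) * P g b (L + 2 + (b - σ)) ≤ Y * (12 * ζ) := by linarith
      exact le_of_mul_le_mul_left h6 (by linarith)
    have e4 : A ≤ b * P g b (L + 2 + (b - σ)) := by
      have h5 : A ≤ (range b).card • P g b (L + 2 + (b - σ)) :=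
        Finset.sum_le_card_nsmul _ _ _ fun i _ => hPm (by omega)
      rwa [Finset.card_range, nsmul_eq_mul] at h5
    have e5 : P g b (L + 2 + (b - σ)) ≤ 0.48 * K := by linarith
    have e6 : 2 * A ≤ 0.96 * K * b := by
      have := mul_le_mul_of_nonneg_left e5 (Nat.cast_nonneg b : (0 : ℝ) ≤ b)
      linarith
    have e7 : 0.96 * K * b ≤ K * (L - ε ^ 2 / 400 * b) := by
      have h5 : 0.96 * (b : ℝ) ≤ L - ε ^ 2 / 400 * b := by linarith
      have := mul_le_mul_of_nonneg_left h5 hK.le
      linarith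
    linarith

end Pool.Agent.Helper51.ST
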