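import Pool.Agent.Helper51.ST.Defs

/-! # Project ST, module ST-4: the sums `M` and `X` of a join and of a stem -/

set_option autoImplicit false

namespace Pool.Agent.Helper51.ST

open Finset Pool.Agent.Helper51.BN

variable {V : Type*} [Fintype V] [DecidableEq V] {G : SimpleGraph V}

omit [Fintype V] in
private theorem cost_union_le' {g : ℕ → ℝ} (hg : ∀ i, 0 ≤ g i) (C D : Finset (V × ℕ)) :
    cost g (C ∪ D) ≤ cost g C + cost g D := by
  have h := Finset.sum_union_inter (s₁ := C) (s₂ := D) (f := fun p : V × ℕ => g p.2)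
  have h2 : 0 ≤ ∑ p ∈ C ∩ D, g p.2 := Finset.sum_nonneg fun p _ => hg p.2
  unfold cost
  linarith

private theorem icc_succ (a : ℤ → ℝ) (n : ℕ) :
    ∑ s ∈ Icc (-((n + 1 : ℕ) : ℤ)) ((n + 1 : ℕ) : ℤ), a s =
      ∑ s ∈ Icc (-(n : ℤ)) n, a s + a (-(n : ℤ) - 1) + a ((n : ℤ) + 1) := by
  have h1 : Icc (-((n + 1 : ℕ) : ℤ)) ((n + 1 : ℕ) : ℤ) =
      insert (-(n : ℤ) - 1) (insert ((n : ℤ) + 1) (Icc (-(n : ℤ)) n)) := by
    ext x
    simp only [mem_Icc, mem_insert]
    push_cast
    omega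
  rw [h1, sum_insert, sum_insert]
  · ring
  · simp only [mem_Icc]
    omega
  · simp only [mem_Icc, mem_insert]
    omega

private theorem icc_split (a : ℤ → ℝ) (n : ℕ) :
    ∑ s ∈ Icc (-(n : ℤ)) n, a s = ∑ i ∈ range n, a (-(i : ℤ) - 1) + ∑ m ∈ range (n + 1), a m := by
  induction n with
  | zero => simp
  | succ n ih =>
    rw [icc_succ, ih]
    simp only [sum_range_succ]
    push_cast
    ring

theorem M_nonneg {g : ℕ → ℝ} (hg : ∀ i, 0 ≤ g i) (b : ℕ) (S : Finset V) (r : V) (m : ℕ) :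
    0 ≤ M G g b S r m :=
  sum_nonneg fun _ _ => F_nonneg hg b S r _

theorem M_mono {g : ℕ → ℝ} (hg : ∀ i, 0 ≤ g i) (b : ℕ) (S : Finset V) (r : V) {m m' : ℕ}
    (h : m ≤ m') : M G g b S r m ≤ M G g b S r m' :=
  sum_le_sum_of_subset_of_nonneg (range_mono h) fun _ _ _ => F_nonneg hg b S r _

theorem M_join {g : ℕ → ℝ} (hg : ∀ i, 0 ≤ g i) (b : ℕ) (S T : Finset V) (r : V) (m : ℕ) :
    M G g b (S ∪ T) r m ≤ M G g b S r m + M G g b T r m := by
  unfold M
  rw [← sum_add_distrib]
  exact sum_le_sum fun i _ => F_join_neg hg S T r (by omega)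

theorem M_le_X {g : ℕ → ℝ} (hg : ∀ i, 0 ≤ g i) {b H : ℕ} (hH : H ≤ b) (S : Finset V) (r : V) :
    M G g b S r H + M G g b S r (H + 1) ≤ X G g b S r H := by
  unfold M X
  rw [icc_split]
  refine add_le_add le_rfl (sum_le_sum fun i hi => F_mono hg S r (by omega) ?_)
  have := mem_range.1 hi
  omega

theorem X_join (hG : G.Connected) {g : ℕ → ℝ} (hg : ∀ i, 0 ≤ g i) {b H : ℕ} (hH : H ≤ b)
    (S T : Finset V) (r : V) :
    X G g b (S ∪ T) r H ≤ X G g b S r H + (M G g b T r H + M G g b T r (H + 1)) := by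
  unfold M X
  rw [icc_split, icc_split]
  have h2 : ∑ i ∈ range H, F G g b (S ∪ T) r (-(i : ℤ) - 1) ≤
      ∑ i ∈ range H, (F G g b S r (-(i : ℤ) - 1) + F G g b T r (-(i : ℤ) - 1)) :=
    sum_le_sum fun i _ => F_join_neg hg S T r (by omega)
  have h3 : ∑ m ∈ range (H + 1), F G g b (S ∪ T) r m ≤
      ∑ m ∈ range (H + 1), (F G g b S r m + F G g b T r (-(m : ℤ) - 1)) :=
    sum_le_sum fun m hm => F_join_nonneg hG hg S T r (by
      have := mem_range.1 hm
      omega)
  rw [sum_add_distrib] at h2 h3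
  linarith

/-- Beyond the height one ball at the root is enough, and large gifts cover everything. -/
theorem X_extend {g : ℕ → ℝ} (hg : ∀ i, 0 ≤ g i) {b h H : ℕ} {S : Finset V} {r : V}
    (hS : ∀ v ∈ S, G.dist r v ≤ h) (hh : h ≤ H) (hH : H ≤ b) :
    X G g b S r H ≤ X G g b S r h + ∑ j ∈ Icc (h + 1) H, g j := by
  induction H, hh using Nat.le_induction with
  | base => simp
  | succ n hn ih =>
    have ih' := ih (by omega)
    have h1 : F G g b S r (-(n : ℤ) - 1) = 0 := F_zero hg hS (by omega)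
    have h2 : F G g b S r ((n + 1 : ℕ) : ℤ) ≤ g (n + 1) := F_ball hg hS (by omega) hH
    push_cast at h2
    unfold X at ih' ⊢
    rw [icc_succ, sum_Icc_succ_top (by omega), h1]
    linarith

theorem X_ext_low (hG : G.Connected) {g : ℕ → ℝ} (hg : ∀ i, 0 ≤ g i) {b h : ℕ} {S : Finset V}
    {c r : V} (hc : c ∈ S) (hS : ∀ v ∈ insert r S, G.dist r v ≤ h + 1) (had : G.Adj r c)
    (hh : h + 1 ≤ b) :
    X G g b (insert r S) r (h + 1) ≤ X G g b S c h + 2 * g (h + 1) := by
  have h1 : F G g b (insert r S) r ((h + 1 : ℕ) : ℤ) ≤ g (h + 1) := F_ball hg hS le_rfl hh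
  have h2 : F G g b (insert r S) r (h : ℤ) ≤ g (h + 1) :=
    (F_mono hg (insert r S) r (by push_cast; omega) (by exact_mod_cast hh)).trans h1
  have h3 : ∑ s ∈ Icc (-(h : ℤ)) h, F G g b (insert r S) r (s - 1) ≤
      ∑ s ∈ Icc (-(h : ℤ)) h, F G g b S c s := by
    refine sum_le_sum fun s hs => ?_
    have hs' := mem_Icc.mp hs
    have h4 := F_ext hG hg (b := b) (S := S) hc had (s := s - 1) (by omega)
    rwa [sub_add_cancel] at h4
  have h4 : ∑ s ∈ Icc (-((h + 1 : ℕ) : ℤ)) ((h + 1 : ℕ) : ℤ), F G g b (insert r S) r s =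
      ∑ s ∈ Icc (-(h : ℤ)) h, F G g b (insert r S) r (s - 1) + F G g b (insert r S) r (h : ℤ) +
        F G g b (insert r S) r ((h + 1 : ℕ) : ℤ) := by
    have h5 : Icc (-((h + 1 : ℕ) : ℤ)) ((h + 1 : ℕ) : ℤ) =
        insert ((h + 1 : ℕ) : ℤ) (insert (h : ℤ) ((Icc (-(h : ℤ)) h).image (fun s => s - 1))) := by
      ext x
      simp only [mem_Icc, mem_insert, mem_image]
      constructor
      · intro hx
        by_cases h1 : x = ((h + 1 : ℕ) : ℤ)
        · exact Or.inl h1
        · by_cases h2 : x = (h : ℤ)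
          · exact Or.inr (Or.inl h2)
          · right
            right
            refine ⟨x + 1, ?_, by ring⟩
            push_cast at hx h1
            omega
      · rintro (rfl | rfl | ⟨y, hy, rfl⟩)
        · push_cast
          omega
        · push_cast
          omega
        · push_cast
          omega
    have h6 : ((h + 1 : ℕ) : ℤ) ∉
        insert (h : ℤ) ((Icc (-(h : ℤ)) h).image (fun s => s - 1)) := by
      simp only [mem_Icc, mem_insert, mem_image]
      rintro (h | ⟨y, hy, h⟩)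
      · push_cast at h
        omega
      · push_cast at h
        omega
    have h7 : (h : ℤ) ∉ (Icc (-(h : ℤ)) h).image (fun s => s - 1) := by
      simp only [mem_Icc, mem_image]
      rintro ⟨y, hy, h⟩
      omega
    rw [h5, sum_insert h6, sum_insert h7, sum_image (by intro x _ y _ h; simpa using h)]
    ring
  unfold X
  rw [h4]
  linarith

theorem X_ext_high (hG : G.Connected) {g : ℕ → ℝ} (hg : ∀ i, 0 ≤ g i) {b : ℕ} {S : Finset V}
    {c r : V} (hc : c ∈ S) (had : G.Adj r c) :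
    X G g b (insert r S) r b ≤ X G g b S c b + g b := by
  unfold X
  have h2 : ∑ s ∈ Icc (-(b : ℤ)) b, F G g b (insert r S) r s =
      ∑ s ∈ Ico (-(b : ℤ)) b, F G g b (insert r S) r s + F G g b (insert r S) r b := by
    rw [← Ico_insert_right (show (-(b : ℤ)) ≤ b by omega), sum_insert (by simp)]
    ring
  have h3 : ∑ s ∈ Icc (-(b : ℤ)) b, F G g b S c s =
      ∑ s ∈ Ico (-(b : ℤ)) b, F G g b S c (s + 1) + F G g b S c (-(b : ℤ)) := by
    have h4 : ∑ s ∈ Ico (-(b : ℤ)) b, F G g b S c (s + 1) =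
        ∑ s ∈ Ioc (-(b : ℤ)) b, F G g b S c s := by
      refine sum_nbij' (fun s => s + 1) (fun s => s - 1) ?_ ?_ ?_ ?_ ?_
      · intro s hs
        simp only [mem_Ico, mem_Ioc] at hs ⊢
        omega
      · intro s hs
        simp only [mem_Ico, mem_Ioc] at hs ⊢
        omega
      · intro s _
        simp
      · intro s _
        simp
      · intro s _
        rfl
    rw [h4, ← Ioc_insert_left (show (-(b : ℤ)) ≤ b by omega), sum_insert (by simp)]
    ring
  have h5 : ∑ s ∈ Ico (-(b : ℤ)) b, F G g b (insert r S) r s ≤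
      ∑ s ∈ Ico (-(b : ℤ)) b, F G g b S c (s + 1) :=
    sum_le_sum fun s hs => F_ext hG hg hc had (by
      have := mem_Ico.1 hs
      omega)
  have h6 := F_top (b := b) hG hg (S := S) had
  linarith

/-- The sums over the negative states of a stem. -/
theorem M_ext (hG : G.Connected) {g : ℕ → ℝ} (hg : ∀ i, 0 ≤ g i) {b h : ℕ} {S : Finset V}
    {c r : V} (hc : c ∈ S) (hS : ∀ v ∈ S, G.dist c v ≤ h) (had : G.Adj r c) (hh : h + 1 ≤ b)
    (m : ℕ) : M G g b (insert r S) r m ≤ g h + M G g b S c m := by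
  cases m with
  | zero =>
    have := hg h
    simpa [M] using this
  | succ m =>
    have h0 := M_mono (G := G) hg b S c (Nat.le_succ m)
    have h1 : F G g b (insert r S) r (-((0 : ℕ) : ℤ) - 1) ≤ g h := by
      have h2 := F_ext hG hg (b := b) (S := S) hc had (s := -((0 : ℕ) : ℤ) - 1)
        (by push_cast; omega)
      have h3 : F G g b S c (-((0 : ℕ) : ℤ) - 1 + 1) ≤ F G g b S c (h : ℤ) :=
        F_mono hg S c (by push_cast; omega) (by exact_mod_cast (by omega : h ≤ b))
      have h4 : F G g b S c (h : ℤ) ≤ g h := F_ball hg hS le_rfl (by omega)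
      linarith
    have h5 : ∑ i ∈ range m, F G g b (insert r S) r (-((i + 1 : ℕ) : ℤ) - 1) ≤
        ∑ i ∈ range m, F G g b S c (-(i : ℤ) - 1) := by
      refine sum_le_sum fun i _ => ?_
      have h6 := F_ext hG hg (b := b) (S := S) hc had (s := -((i + 1 : ℕ) : ℤ) - 1)
        (by push_cast; omega)
      have h7 : (-((i + 1 : ℕ) : ℤ) - 1 + 1) = -(i : ℤ) - 1 := by push_cast; ring
      rw [h7] at h6
      exact h6
    have h8 : M G g b (insert r S) r (m + 1) =
        ∑ i ∈ range m, F G g b (insert r S) r (-((i + 1 : ℕ) : ℤ) - 1) +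
          F G g b (insert r S) r (-((0 : ℕ) : ℤ) - 1) := by
      unfold M
      rw [sum_range_succ' (fun i : ℕ => F G g b (insert r S) r (-(i : ℤ) - 1))]
    have h9 : M G g b S c m = ∑ i ∈ range m, F G g b S c (-(i : ℤ) - 1) := rfl
    rw [h8]
    have h10 : M G g b S c m ≤ M G g b S c (m + 1) := h0
    linarith

/-- Two trees with a common root. -/
theorem two_sided_X (hG : G.Connected) {g : ℕ → ℝ} (hg : ∀ i, 0 ≤ g i) {b : ℕ}
    (S T : Finset V) (r : V) :
    (2 * b + 1) * F G g b (S ∪ T) r 0 ≤ X G g b S r b + X G g b T r b := by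
  unfold X
  rw [icc_split, icc_split, sum_range_succ, sum_range_succ]
  have h1 : ∑ _m ∈ range b, F G g b (S ∪ T) r 0 ≤
      ∑ m ∈ range b, (F G g b S r m + F G g b T r (-(m : ℤ) - 1)) := by
    refine sum_le_sum fun m hm => ?_
    have hm' := mem_range.1 hm
    exact (F_mono hg _ r (by omega) (by omega)).trans (F_join_nonneg hG hg S T r hm'.le)
  have h2 : ∑ _m ∈ range b, F G g b (S ∪ T) r 0 ≤
      ∑ m ∈ range b, (F G g b T r m + F G g b S r (-(m : ℤ) - 1)) := by
    refine sum_le_sum fun m hm => ?_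
    have hm' := mem_range.1 hm
    rw [union_comm]
    exact (F_mono hg _ r (by omega) (by omega)).trans (F_join_nonneg hG hg T S r hm'.le)
  have h3 : F G g b (S ∪ T) r 0 ≤ F G g b S r b + F G g b T r b :=
    ((F_mono hg _ r (by omega) le_rfl).trans (F_join_nonneg hG hg S T r le_rfl)).trans
      (add_le_add le_rfl (F_mono hg T r (by omega) le_rfl))
  rw [sum_const, card_range, nsmul_eq_mul, sum_add_distrib] at h1 h2
  nlinarith

/-- The cost of a union, the first set being covered completely. -/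
theorem F_cut {g : ℕ → ℝ} (hg : ∀ i, 0 ≤ g i) {b : ℕ} (S T : Finset V) (v r : V) {s : ℤ}
    (hs : s ≤ b) : F G g b (S ∪ T) r s ≤ F G g b S v 0 + F G g b T r s := by
  obtain ⟨C, hCb, hCg, hCc⟩ := exists_F (G := G) (b := b) hg S v (s := 0) (by omega)
  obtain ⟨D, hDb, hDg, hDc⟩ := exists_F (G := G) (b := b) hg T r (s := s) hs
  rw [← hCc, ← hDc]
  refine le_trans (F_le hg ?_ ⟨?_, ?_⟩) (cost_union_le' hg C D)
  · intro p hp
    rcases mem_union.mp hp with hp | hp
    · exact hCb p hp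
    · exact hDb p hp
  · intro u hu
    rcases mem_union.mp hu with hu | hu
    · rcases hCg.1 u hu with ⟨p, hp, hpd⟩ | h1
      · exact Or.inl ⟨p, mem_union_left _ hp, hpd⟩
      · exfalso
        omega
    · rcases hDg.1 u hu with ⟨p, hp, hpd⟩ | h1
      · exact Or.inl ⟨p, mem_union_right _ hp, hpd⟩
      · exact Or.inr h1
  · intro h0
    obtain ⟨p, hp, hpd⟩ := hDg.2 h0
    exact ⟨p, mem_union_right _ hp, hpd⟩

end Pool.Agent.Helper51.ST
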