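import Pool.Agent.Helper51.ST.Hair
import Pool.Agent.Helper51.ST.PathLemma
import Pool.Agent.Helper51.ST.XM

/-! # Project ST, module ST-7b: the gain of a clean leg which is not too long -/

set_option autoImplicit false

namespace Pool.Agent.Helper51.ST

open Finset Pool.Agent.Helper51.BN

variable {V : Type*} [Fintype V] [DecidableEq V] {G : SimpleGraph V}

private theorem icc_range (g : ℕ → ℝ) (n : ℕ) :
    ∑ j ∈ Icc 1 n, g j = ∑ j ∈ range n, g (j + 1) := by
  induction n with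
  | zero => simp
  | succ n ih => rw [Finset.sum_Icc_succ_top (by omega), ih, Finset.sum_range_succ]

/-- the shifted cost function -/
private theorem cf_shift {g : ℕ → ℝ} {b' q : ℕ} {K : ℝ} (hg : CF g (b' + q) K) (hK : 0 < K)
    (hq : 1 ≤ q) (hb' : 0 < b') :
    CF (fun j => g (j + q)) b' (K * ((b' + q : ℕ) : ℝ) / b') := by
  have hβ : (0 : ℝ) < b' := by exact_mod_cast hb'
  refine ⟨fun i => hg.nonneg _, fun i j hij hj => hg.mono _ _ (by omega) (by omega), ?_, ?_⟩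
  · refine hg.top.trans ?_
    rw [le_div_iff₀ hβ]
    push_cast
    have : (0 : ℝ) ≤ K * q := by positivity
    nlinarith
  · have h1 := hg.sum
    rw [icc_range] at h1 ⊢
    have h2 : ∑ j ∈ range (b' + q), g (j + 1) =
        ∑ j ∈ range q, g (j + 1) + ∑ j ∈ range b', g (j + 1 + q) := by
      rw [add_comm b' q, Finset.sum_range_add]
      congr 1
      refine Finset.sum_congr rfl fun j _ => ?_
      congr 1
      omega
    have h3 : g q ≤ ∑ j ∈ range q, g (j + 1) := by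
      have h4 : q - 1 ∈ range q := by
        rw [Finset.mem_range]
        omega
      have h5 := Finset.single_le_sum (f := fun j => g (j + 1)) (s := range q)
        (fun i _ => hg.nonneg _) h4
      have h6 : q - 1 + 1 = q := by omega
      simp only [h6] at h5
      exact h5
    have h4 := hg.nonneg 0
    have h5 := hg.nonneg q
    rw [h2] at h1
    have h6 : K * ((b' + q : ℕ) : ℝ) / b' * b' = K * ((b' + q : ℕ) : ℝ) :=
      div_mul_cancel₀ _ hβ.ne'
    rw [h6]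
    simp only [zero_add]
    linarith

private theorem nf_shift {g : ℕ → ℝ} {b' q : ℕ} {K ε : ℝ} (hg : CF g (b' + q) K) (hK : 0 < K)
    (hε : 0 < ε) (hb' : 0 < b') (hN : NF g (b' + q) K ε)
    (hq : (q : ℝ) ≤ ε * ((b' + q : ℕ) : ℝ) / 2) :
    NF (fun j => g (j + q)) b' (K * ((b' + q : ℕ) : ℝ) / b') (ε / 2) := by
  have hβ : (0 : ℝ) < b' := by exact_mod_cast hb'
  obtain ⟨h, hhb, hh⟩ := hN
  have h0 : 0 ≤ 2 * ∑ j ∈ range h, g j :=
    mul_nonneg zero_le_two (Finset.sum_nonneg fun i _ => hg.nonneg i)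
  have h1 : 0 ≤ (h : ℝ) - ε * ((b' + q : ℕ) : ℝ) := by
    by_contra hcon
    rw [not_le] at hcon
    have := mul_neg_of_pos_of_neg hK hcon
    linarith
  have hqh : q ≤ h := by
    have : (q : ℝ) ≤ h := by
      have h3 : 0 ≤ ε * ((b' + q : ℕ) : ℝ) := by positivity
      linarith
    exact_mod_cast this
  obtain ⟨k, rfl⟩ := Nat.exists_eq_add_of_le hqh
  refine ⟨k, by omega, ?_⟩
  have h2 : ∑ j ∈ range k, g (j + q) ≤ ∑ j ∈ range (q + k), g j := by
    rw [Finset.sum_range_add]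
    have h3 : 0 ≤ ∑ j ∈ range q, g j := Finset.sum_nonneg fun i _ => hg.nonneg i
    have h4 : ∑ j ∈ range k, g (j + q) = ∑ j ∈ range k, g (q + j) :=
      Finset.sum_congr rfl fun j _ => by rw [add_comm]
    linarith
  have h3 : K ≤ K * ((b' + q : ℕ) : ℝ) / b' := by
    rw [le_div_iff₀ hβ]
    push_cast
    have : (0 : ℝ) ≤ K * q := by positivity
    nlinarith
  calc 2 * ∑ j ∈ range k, g (j + q) ≤ 2 * ∑ j ∈ range (q + k), g j := by linarith
    _ ≤ K * (((q + k : ℕ) : ℝ) - ε * ((b' + q : ℕ) : ℝ)) := hh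
    _ ≤ K * ((b' + q : ℕ) : ℝ) / b' * (((q + k : ℕ) : ℝ) - ε * ((b' + q : ℕ) : ℝ)) :=
        mul_le_mul_of_nonneg_right h3 h1
    _ ≤ K * ((b' + q : ℕ) : ℝ) / b' * (k - ε / 2 * b') := by
        refine mul_le_mul_of_nonneg_left ?_ (hK.le.trans h3)
        have h4 : (0 : ℝ) ≤ ε * q := by positivity
        push_cast at hq ⊢
        nlinarith

/-- the final estimate -/
private theorem final_est {L b β q E : ℝ} (hE : 10 ^ 8 ≤ E) (hEb : E ≤ b)
    (hq0 : 0 ≤ q) (hq : q ≤ E / 40000 + 1) (hβ : β = b - q) (hL0 : 0 ≤ L) (hL : L ≤ 5 * b) :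
    0 < β ∧ (L * b / β - E / 1600) * (1 + (q + 1) / β) ≤ L - E / 3000 := by
  have hE0 : 0 < E := by linarith [show (0 : ℝ) < 10 ^ 8 by norm_num]
  have hq1 : q ≤ 0.00002501 * E := by
    have h8 : (10 : ℝ) ^ 8 = 100000000 := by norm_num
    rw [h8] at hE
    linarith
  have hq2 : q + 1 ≤ 0.00002502 * E := by
    have h8 : (10 : ℝ) ^ 8 = 100000000 := by norm_num
    rw [h8] at hE
    linarith
  have hβ1 : 0.9999 * b ≤ β := by
    rw [hβ]
    linarith
  have hb0 : 0 < b := by linarith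
  have hβ0 : 0 < β := by linarith
  refine ⟨hβ0, ?_⟩
  set v : ℝ := (q + 1) / β with hv
  set u : ℝ := q / β with hu
  have hu0 : 0 ≤ u := div_nonneg hq0 hβ0.le
  have hv0 : 0 ≤ v := div_nonneg (by linarith) hβ0.le
  have huv : u ≤ v := div_le_div_of_nonneg_right (by linarith) hβ0.le
  have hvβ : v * β = q + 1 := div_mul_cancel₀ _ hβ0.ne'
  have hbv : b * v ≤ 0.0000251 * E := by
    have h1 : 0.9999 * b * v ≤ β * v := mul_le_mul_of_nonneg_right hβ1 hv0
    have h2 : β * v = q + 1 := by rw [mul_comm, hvβ]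
    rw [h2] at h1
    linarith
  have hv1 : v ≤ 0.0000251 := by
    have h1 : b * v ≤ 0.0000251 * b := hbv.trans (by linarith)
    have h2 : b * v ≤ b * 0.0000251 := by linarith
    exact le_of_mul_le_mul_left h2 hb0
  have hbβ : b / β = 1 + u := by
    rw [hu]
    field_simp
    rw [hβ]
    ring
  have h1 : L * b / β = L * (1 + u) := by rw [mul_div_assoc, hbβ]
  rw [h1]
  have h2 : L * (u + v + u * v) ≤ 5 * (b * v) * (2 + v) := by
    have h3 : u + v + u * v ≤ v * (2 + v) := by nlinarith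
    calc L * (u + v + u * v) ≤ L * (v * (2 + v)) := mul_le_mul_of_nonneg_left h3 hL0
      _ ≤ 5 * b * (v * (2 + v)) := mul_le_mul_of_nonneg_right hL (by positivity)
      _ = _ := by ring
  have h3 : 5 * (b * v) * (2 + v) ≤ 5 * (0.0000251 * E) * (2 + 0.0000251) := by
    refine mul_le_mul ?_ (by linarith) (by positivity) (by positivity)
    linarith
  have h4 : 0 ≤ E / 1600 * v := by positivity
  nlinarith

theorem clean (hG : G.Connected) {g : ℕ → ℝ} {b : ℕ} {K ε : ℝ} (hg : CF g b K) (hK : 0 < K)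
    (hε : 0 < ε) (hε1 : ε ≤ 1) (hNF : NF g b K ε) (hb : 10 ^ 8 ≤ ε ^ 2 * b) {x : RT}
    {S : Finset V} {r : V} (H : Tr G x S r) {p : ℕ} (hp : (p : ℝ) ≤ ε ^ 2 * b / 80000)
    (hw : x.e ≤ x.h + p) (h1 : 3 * b ≤ 4 * x.h) (h2 : x.h ≤ 5 * b) {m : ℕ} (hm : m ≤ b + 1) :
    2 * M G g b S r m ≤ K * (x.h - ε ^ 2 * b / 3000) := by
  have h8 : (10 : ℝ) ^ 8 = 100000000 := by norm_num
  have hε2 : ε ^ 2 ≤ 1 := pow_le_one₀ hε.le hε1
  have hε3 : ε ^ 2 ≤ ε := by nlinarith
  have hbn : (0 : ℝ) ≤ b := Nat.cast_nonneg b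
  have hEb : ε ^ 2 * b ≤ b := mul_le_of_le_one_left hbn hε2
  have hEb2 : ε ^ 2 * b ≤ ε * b := mul_le_mul_of_nonneg_right hε3 hbn
  obtain ⟨q, hq⟩ : ∃ q : ℕ, q = 2 * p + 1 := ⟨_, rfl⟩
  have hqr : (q : ℝ) = 2 * p + 1 := by rw [hq]; push_cast; ring
  have hqE : (q : ℝ) ≤ ε ^ 2 * b / 40000 + 1 := by rw [hqr]; linarith
  have hq1 : 1 ≤ q := by omega
  have hqb : 6 * q < b := by
    have : 6 * (q : ℝ) < b := by
      rw [h8] at hb
      linarith
    exact_mod_cast this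
  obtain ⟨b', rfl⟩ : ∃ b', b = b' + q := ⟨b - q, by omega⟩
  have hb' : 0 < b' := by omega
  have hβ : (0 : ℝ) < b' := by exact_mod_cast hb'
  have hcast : (((b' + q : ℕ) : ℝ)) = b' + q := by push_cast; ring
  have hcf := cf_shift hg hK hq1 hb'
  have hq2 : (q : ℝ) ≤ ε * ((b' + q : ℕ) : ℝ) / 2 := by
    rw [h8] at hb
    linarith
  have hnf := nf_shift hg hK hε hb' hNF hq2
  have hK' : 0 < K * ((b' + q : ℕ) : ℝ) / b' := by
    have : (0 : ℝ) < ((b' + q : ℕ) : ℝ) := by rw [hcast]; positivity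
    positivity
  have hb2 : (1000 : ℝ) ≤ ε / 2 * b' := by
    have h3 : ((b' + q : ℕ) : ℝ) ≤ 2 * b' := by
      have : b' + q ≤ 2 * b' := by omega
      exact_mod_cast this
    have h4 : ε * ((b' + q : ℕ) : ℝ) ≤ ε * (2 * b') := mul_le_mul_of_nonneg_left h3 hε.le
    rw [h8] at hb
    linarith
  have hpl := path_lemma hcf hK' (by positivity) (by linarith) hnf hb2 (L := x.h) (by omega)
    (by omega)
  -- the sum of the states
  set f : ℕ → ℝ := fun i => P (fun j => g (j + q)) b' (x.h - i) with hf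
  have hf0 : ∀ i, 0 ≤ f i := fun i => P_nonneg hcf.nonneg b' _
  have hanti : ∀ i j, i ≤ j → f j ≤ f i := fun i j hij => P_mono hcf.nonneg b' (by omega)
  have hM1 : M G g (b' + q) S r m ≤ ∑ i ∈ range m, f i := by
    refine Finset.sum_le_sum fun i _ => ?_
    have h3 := hair hG hg.nonneg H hw (b := b' + q) (by omega) i
    have h4 : b' + q - (2 * p + 1) = b' := by omega
    rw [h4, ← hq] at h3
    exact h3
  have hM2 : ∑ i ∈ range m, f i ≤ ∑ i ∈ range (b' + (q + 1)), f i := by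
    refine Finset.sum_le_sum_of_subset_of_nonneg ?_ fun i _ _ => hf0 i
    exact Finset.range_mono (by omega)
  set A : ℝ := ∑ i ∈ range b', f i with hA
  have hM3 : ∑ j ∈ range (q + 1), f (b' + j) ≤ (q + 1) * (A / b') := by
    have h3 : ∀ j ∈ range (q + 1), f (b' + j) ≤ A / b' := by
      intro j _
      rw [le_div_iff₀ hβ, mul_comm]
      have h4 : (range b').card • f (b' + j) ≤ ∑ i ∈ range b', f i := by
        refine Finset.card_nsmul_le_sum _ _ _ fun i hi => ?_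
        rw [Finset.mem_range] at hi
        exact hanti _ _ (by omega)
      rw [Finset.card_range, nsmul_eq_mul] at h4
      exact h4
    have h4 := Finset.sum_le_card_nsmul _ _ _ h3
    rw [Finset.card_range, nsmul_eq_mul] at h4
    push_cast at h4
    exact h4
  have hM4 : 2 * M G g (b' + q) S r m ≤ 2 * A * (1 + ((q : ℝ) + 1) / b') := by
    have h3 := Finset.sum_range_add f b' (q + 1)
    have h4 : 2 * A * (1 + ((q : ℝ) + 1) / b') = 2 * (A + (q + 1) * (A / b')) := by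
      field_simp
    rw [h4]
    linarith
  obtain ⟨-, hfin⟩ := final_est (L := (x.h : ℝ)) (b := ((b' + q : ℕ) : ℝ)) (β := (b' : ℝ))
    (q := (q : ℝ)) (E := ε ^ 2 * ((b' + q : ℕ) : ℝ)) hb hEb (Nat.cast_nonneg q) hqE
    (by rw [hcast]; ring) (Nat.cast_nonneg _) (by exact_mod_cast h2)
  refine hM4.trans ?_
  have h5 : 2 * A ≤ K * ((x.h : ℝ) * ((b' + q : ℕ) : ℝ) / b' -
      ε ^ 2 * ((b' + q : ℕ) : ℝ) / 1600) := by
    refine hpl.trans (le_of_eq ?_)
    field_simp
    ring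
  have h6 : (0 : ℝ) ≤ 1 + ((q : ℝ) + 1) / b' := by positivity
  calc 2 * A * (1 + ((q : ℝ) + 1) / b')
      ≤ K * ((x.h : ℝ) * ((b' + q : ℕ) : ℝ) / b' - ε ^ 2 * ((b' + q : ℕ) : ℝ) / 1600) *
        (1 + ((q : ℝ) + 1) / b') := mul_le_mul_of_nonneg_right h5 h6
    _ = K * (((x.h : ℝ) * ((b' + q : ℕ) : ℝ) / b' - ε ^ 2 * ((b' + q : ℕ) : ℝ) / 1600) *
        (1 + ((q : ℝ) + 1) / b')) := by ring
    _ ≤ _ := mul_le_mul_of_nonneg_left hfin hK.le

end Pool.Agent.Helper51.ST
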