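import Pool.Agent.Helper51.ST.Basic

/-! # Project ST, module ST-8: cutting a long leg -/

set_option autoImplicit false

namespace Pool.Agent.Helper51.ST

open Finset Pool.Agent.Helper51.BN

variable {V : Type*} [DecidableEq V] {G : SimpleGraph V}

/-- cutting at a vertex of height `x.h - d` on a longest path -/
theorem exists_cut_at {x : RT} {S : Finset V} {r : V} (H : Tr G x S r) :
    ∀ d : ℕ, d ≤ x.h → ∃ (y z : RT) (S' T : Finset V) (v : V), Tr G y S' v ∧ Tr G z T r ∧
      S' ∪ T = S ∧ S' ∩ T = {v} ∧ y.e + z.e = x.e ∧ y.h = x.h - d ∧ d ≤ z.h := by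
  induction H with
  | pt r =>
    intro d hd
    have h0 : d = 0 := Nat.le_zero.1 hd
    subst h0
    exact ⟨RT.pt, RT.pt, {r}, {r}, r, Tr.pt r, Tr.pt r, union_self _, inter_self _, rfl, rfl,
      le_rfl⟩
  | @ext x S c r hx hrc hrS ih =>
    intro d hd
    rcases Nat.eq_zero_or_pos d with h0 | hpos
    · subst h0
      refine ⟨RT.ext x, RT.pt, insert r S, {r}, r, Tr.ext r hx hrc hrS, Tr.pt r, ?_, ?_, rfl, rfl,
        le_rfl⟩
      · exact union_eq_left.2 (singleton_subset_iff.2 (mem_insert_self r S))
      · exact inter_eq_right.2 (singleton_subset_iff.2 (mem_insert_self r S))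
    · have hd' : d ≤ x.h + 1 := hd
      obtain ⟨y, z, S', T, v, hy, hz, hU, hI, he, hh, hdz⟩ := ih (d - 1) (by omega)
      have hS'S : S' ⊆ S := hU ▸ subset_union_left
      have hTS : T ⊆ S := hU ▸ subset_union_right
      refine ⟨y, RT.ext z, S', insert r T, v, hy, Tr.ext r hz hrc (fun h => hrS (hTS h)), ?_, ?_,
        ?_, ?_, ?_⟩
      · rw [union_insert, hU]
      · rw [inter_insert_of_notMem (fun h => hrS (hS'S h)), hI]
      · show y.e + (z.e + 1) = x.e + 1
        omega
      · show y.h = x.h + 1 - d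
        omega
      · show d ≤ z.h + 1
        omega
  | @join x y S T r hx hy hST ihx ihy =>
    intro d hd
    have hd' : d ≤ max x.h y.h := hd
    rcases le_total y.h x.h with hle | hle
    · have hm : max x.h y.h = x.h := max_eq_left hle
      rw [hm] at hd'
      obtain ⟨y1, z1, S1, T1, v, hy1, hz1, hU, hI, he, hh, hdz⟩ := ihx d hd'
      have hS1 : S1 ⊆ S := hU ▸ subset_union_left
      have hT1 : T1 ⊆ S := hU ▸ subset_union_right
      have hrT : r ∈ T := hy.mem
      have hr1 : r ∈ T1 := hz1.mem
      have hTT : T1 ∩ T = {r} := by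
        apply Subset.antisymm
        · rw [← hST]
          exact inter_subset_inter hT1 (Subset.refl T)
        · rw [singleton_subset_iff, mem_inter]
          exact ⟨hr1, hrT⟩
      refine ⟨y1, RT.join z1 y, S1, T1 ∪ T, v, hy1, Tr.join hz1 hy hTT, ?_, ?_, ?_, ?_, ?_⟩
      · rw [← union_assoc, hU]
      · apply Subset.antisymm
        · intro u hu
          rw [mem_inter, mem_union] at hu
          rcases hu with ⟨hu1, hu2 | hu2⟩
          · rw [← hI]
            exact mem_inter.2 ⟨hu1, hu2⟩
          · have h1 : u ∈ S ∩ T := mem_inter.2 ⟨hS1 hu1, hu2⟩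
            rw [hST, mem_singleton] at h1
            subst h1
            rw [← hI]
            exact mem_inter.2 ⟨hu1, hr1⟩
        · rw [← hI]
          exact inter_subset_inter (Subset.refl S1) subset_union_left
      · show y1.e + (z1.e + y.e) = x.e + y.e
        omega
      · show y1.h = max x.h y.h - d
        rw [hm]
        exact hh
      · show d ≤ max z1.h y.h
        exact le_max_of_le_left hdz
    · have hm : max x.h y.h = y.h := max_eq_right hle
      rw [hm] at hd'
      obtain ⟨y1, z1, S1, T1, v, hy1, hz1, hU, hI, he, hh, hdz⟩ := ihy d hd'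
      have hS1 : S1 ⊆ T := hU ▸ subset_union_left
      have hT1 : T1 ⊆ T := hU ▸ subset_union_right
      have hrS : r ∈ S := hx.mem
      have hr1 : r ∈ T1 := hz1.mem
      have hTT : S ∩ T1 = {r} := by
        apply Subset.antisymm
        · rw [← hST]
          exact inter_subset_inter (Subset.refl S) hT1
        · rw [singleton_subset_iff, mem_inter]
          exact ⟨hrS, hr1⟩
      refine ⟨y1, RT.join x z1, S1, S ∪ T1, v, hy1, Tr.join hx hz1 hTT, ?_, ?_, ?_, ?_, ?_⟩
      · rw [← hU, union_left_comm]
      · apply Subset.antisymm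
        · intro u hu
          rw [mem_inter, mem_union] at hu
          rcases hu with ⟨hu1, hu2 | hu2⟩
          · have h1 : u ∈ S ∩ T := mem_inter.2 ⟨hu2, hS1 hu1⟩
            rw [hST, mem_singleton] at h1
            subst h1
            rw [← hI]
            exact mem_inter.2 ⟨hu1, hr1⟩
          · rw [← hI]
            exact mem_inter.2 ⟨hu1, hu2⟩
        · rw [← hI]
          exact inter_subset_inter (Subset.refl S1) subset_union_right
      · show y1.e + (x.e + z1.e) = x.e + y.e
        omega
      · show y1.h = max x.h y.h - d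
        rw [hm]
        exact hh
      · show d ≤ max x.h z1.h
        exact le_max_of_le_right hdz

theorem exists_cut {x : RT} {S : Finset V} {r : V} (H : Tr G x S r) {p b : ℕ}
    (hw : x.e ≤ x.h + p) (hpb : p < b) (hb : 5 * b < x.h) :
    ∃ (y z : RT) (S' T : Finset V) (v : V), Tr G y S' v ∧ Tr G z T r ∧ S' ∪ T = S ∧
      y.e + z.e = x.e ∧ 2 * b ≤ z.h ∧ z.h ≤ 3 * b ∧ z.e ≤ z.h + p ∧ 2 * b + 1 ≤ y.e := by
  obtain ⟨y, z, S', T, v, hy, hz, hU, -, he, hh, hdz⟩ := exists_cut_at H (2 * b) (by omega)
  have h1 := RT.h_le y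
  have h2 := RT.h_le z
  exact ⟨y, z, S', T, v, hy, hz, hU, he, hdz, by omega, by omega, by omega⟩

end Pool.Agent.Helper51.ST
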