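import Pool.Agent.Helper51.ST.Basic

/-! # Project ST: the data of the final modules -/

set_option autoImplicit false

namespace Pool.Agent.Helper51.ST

open Finset Pool.Agent.Helper51.BN

/-- `m` pieces, each with at least `8 * k` edges, with at most `k ^ 2` edges in total. -/
structure Data {V : Type*} [DecidableEq V] (G : SimpleGraph V) (k A L m : ℕ) (y : Fin m → RT)
    (P : Fin m → Finset V) (q : Fin m → V) : Prop where
  conn : G.Connected
  tr : ∀ i, Tr G (y i) (P i) (q i)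
  big : ∀ i, 8 * k ≤ (y i).e
  tot : ∑ i, (y i).e ≤ k ^ 2
  L2 : 2 ≤ L
  L4 : L ^ 4 ≤ k
  cnt : 8 * A * m ≤ k

/-- A price and its scale `b`; `ρ` is the price of an edge. -/
structure Price (g : ℕ → ℝ) (k L b : ℕ) (ρ : ℝ) : Prop where
  nonneg : ∀ i, 0 ≤ g i
  mono : Monotone g
  ρpos : 0 < ρ
  b1 : 1 ≤ b
  bk : b + L + 1 ≤ k
  b2 : k * L ≤ 12 * b ^ 2
  cf : CF g b (ρ * (2 * b + 1))
  tot : ρ * ((k : ℝ) ^ 2 - 4 * k * L) ≤ ∑ r ∈ range (k - L), g r

/-- The pieces have covers whose total cost is at most the total price of the radii less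
than `k - L`. -/
def Cheap {V : Type*} (G : SimpleGraph V) (g : ℕ → ℝ) (k L : ℕ) {m : ℕ}
    (P : Fin m → Finset V) : Prop :=
  ∃ C : Fin m → Finset (V × ℕ), (∀ i, ∀ p ∈ C i, p.2 < k - L) ∧
    (∀ i, ∀ v ∈ P i, ∃ p ∈ C i, G.dist p.1 v ≤ p.2) ∧
    ∑ i, cost g (C i) ≤ ∑ r ∈ range (k - L), g r

end Pool.Agent.Helper51.ST
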