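import Pool.Agent.Helper51.BN.Frac

/-!
# Project ST (stability of the fractional burning theorem): definitions

Rooted trees are built from points, stems and joins at the root.
-/

set_option autoImplicit false

namespace Pool.Agent.Helper51.ST

open Finset Pool.Agent.Helper51.BN

/-- The shape of a rooted tree: a point, a stem below a tree, two trees joined at the root. -/
inductive RT : Type
  | pt : RT
  | ext : RT → RT
  | join : RT → RT → RT

namespace RT

/-- The number of edges. -/
def e : RT → ℕ
  | pt => 0
  | ext x => x.e + 1
  | join x y => x.e + y.e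

/-- The height. -/
def h : RT → ℕ
  | pt => 0
  | ext x => x.h + 1
  | join x y => max x.h y.h

/-- The number of paths of length at least `t` (where `1 ≤ t`) in the long path decomposition. -/
def N (t : ℕ) : RT → ℕ
  | pt => 0
  | ext x => if x.h + 1 = t then 1 else x.N t
  | join x y => x.N t + y.N t

/-- The total length of the paths of length less than `t` in the long path decomposition, the
path which starts at the root excepted. -/
def w (t : ℕ) : RT → ℕ
  | pt => 0
  | ext x => x.w t
  | join x y => x.w t + y.w t + if min x.h y.h < t then min x.h y.h else 0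

/-- The number of stems whose lower end has height at least `t`. -/
def s (t : ℕ) : RT → ℕ
  | pt => 0
  | ext x => x.s t + if t ≤ x.h + 1 then 1 else 0
  | join x y => x.s t + y.s t

end RT

/-- `Tr G x S r`: the vertices of `S` carry a rooted tree of `G` with root `r` and shape `x`. -/
inductive Tr {V : Type*} [DecidableEq V] (G : SimpleGraph V) : RT → Finset V → V → Prop
  | pt (r : V) : Tr G RT.pt {r} r
  | ext {x : RT} {S : Finset V} {c : V} (r : V) : Tr G x S c → G.Adj r c → r ∉ S →
      Tr G (RT.ext x) (insert r S) r
  | join {x y : RT} {S T : Finset V} {r : V} : Tr G x S r → Tr G y T r → S ∩ T = {r} →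
      Tr G (RT.join x y) (S ∪ T) r

/-- The two sums of the costs of the negative states which occur in a join. -/
noncomputable def M {V : Type*} [Fintype V] [DecidableEq V] (G : SimpleGraph V) (g : ℕ → ℝ)
    (b : ℕ) (S : Finset V) (r : V) (m : ℕ) : ℝ :=
  ∑ i ∈ range m, F G g b S r (-(i : ℤ) - 1)

/-- The sum of the costs of all states between `-m` and `m`. -/
noncomputable def X {V : Type*} [Fintype V] [DecidableEq V] (G : SimpleGraph V) (g : ℕ → ℝ)
    (b : ℕ) (S : Finset V) (r : V) (m : ℕ) : ℝ :=
  ∑ s ∈ Icc (-(m : ℤ)) m, F G g b S r s

/-- The least cost of a list of radii at most `b` whose intervals cover a path of `y` vertices. -/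
noncomputable def P (g : ℕ → ℝ) (b y : ℕ) : ℝ :=
  sInf {x | ∃ l : List ℕ, (∀ r ∈ l, r ≤ b) ∧ y ≤ (l.map fun r => 2 * r + 1).sum ∧
    (l.map g).sum = x}

/-- The cost function is not flat: the average of the small balls is cheap. -/
def NF (g : ℕ → ℝ) (b : ℕ) (K ε : ℝ) : Prop :=
  ∃ h ≤ b, 2 * ∑ j ∈ range h, g j ≤ K * (h - ε * b)

end Pool.Agent.Helper51.ST
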