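import Pool.Agent.Helper51.ST.Basic

/-! # Project ST, module ST-19: the skeleton of a rooted tree -/

set_option autoImplicit false

namespace Pool.Agent.Helper51.ST

open Finset Pool.Agent.Helper51.BN

/-- The shape of the skeleton: everything of height at most `p` is cut off. -/
def RT.sk (p : ℕ) : RT → RT
  | RT.pt => RT.pt
  | RT.ext x => if x.h + 1 ≤ p then RT.pt else RT.ext (RT.sk p x)
  | RT.join x y => RT.join (RT.sk p x) (RT.sk p y)

theorem RT.N_one_sk {p : ℕ} (hp : 1 ≤ p) (x : RT) : (x.sk p).N 1 ≤ x.N p := by
  induction x with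
  | pt => simp [RT.sk, RT.N]
  | ext x ih =>
    rw [RT.sk]
    split_ifs with h
    · simp [RT.N]
    · have h1 : ¬ x.h + 1 = p := by omega
      have h2 : x.N p ≠ 0 := by
        rw [Ne, RT.N_eq_zero hp]; omega
      simp only [RT.N, if_neg h1]
      split_ifs
      · omega
      · exact ih
  | join x y ihx ihy =>
    simp only [RT.sk, RT.N]
    omega

variable {V : Type*} [Fintype V] [DecidableEq V] {G : SimpleGraph V}

omit [Fintype V] in
theorem Tr.dist_le (hG : G.Connected) {x : RT} {S : Finset V} {r : V} (H : Tr G x S r) :
    ∀ v ∈ S, G.dist v r ≤ x.h := by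
  induction H with
  | pt r => intro v hv; rw [mem_singleton] at hv; simp [hv]
  | @ext x S c r H hadj hr ih =>
    intro v hv
    rw [mem_insert] at hv
    rcases hv with rfl | hv
    · simp
    · have h1 := hG.dist_triangle (u := v) (v := c) (w := r)
      have h2 := ih v hv
      have h3 : G.dist c r = 1 := SimpleGraph.dist_eq_one_iff_adj.2 hadj.symm
      simp only [RT.h]
      omega
  | @join x y S T r Hx Hy hST ihx ihy =>
    intro v hv
    rw [mem_union] at hv
    simp only [RT.h]
    rcases hv with hv | hv
    · have := ihx v hv; omega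
    · have := ihy v hv; omega

omit [Fintype V] in
theorem Tr.sk (hG : G.Connected) {p : ℕ} {x : RT} {S : Finset V} {r : V} (H : Tr G x S r) :
    ∃ S' : Finset V, S' ⊆ S ∧ Tr G (x.sk p) S' r ∧ ∀ v ∈ S, ∃ u ∈ S', G.dist v u ≤ p := by
  induction H with
  | pt r => exact ⟨{r}, Subset.refl _, Tr.pt r, fun v hv => ⟨v, hv, by simp⟩⟩
  | @ext x S c r H hadj hr ih =>
    rw [RT.sk]
    split_ifs with h
    · refine ⟨{r}, by simp, Tr.pt r, fun v hv => ⟨r, by simp, ?_⟩⟩
      have := (Tr.ext r H hadj hr).dist_le hG v hv
      simp only [RT.h] at this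
      omega
    · obtain ⟨S', hS', H', hc⟩ := ih
      refine ⟨insert r S', insert_subset_insert _ hS', Tr.ext r H' hadj (fun h => hr (hS' h)), ?_⟩
      intro v hv
      rw [mem_insert] at hv
      rcases hv with rfl | hv
      · exact ⟨v, by simp, by simp⟩
      · obtain ⟨u, hu, hd⟩ := hc v hv
        exact ⟨u, by simp [hu], hd⟩
  | @join x y S T r Hx Hy hST ihx ihy =>
    obtain ⟨S', hS', HS', hcS⟩ := ihx
    obtain ⟨T', hT', HT', hcT⟩ := ihy
    refine ⟨S' ∪ T', union_subset_union hS' hT', Tr.join HS' HT' ?_, ?_⟩
    · apply Subset.antisymm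
      · intro v hv
        rw [← hST]
        rw [mem_inter] at hv ⊢
        exact ⟨hS' hv.1, hT' hv.2⟩
      · rw [singleton_subset_iff, mem_inter]
        exact ⟨HS'.mem, HT'.mem⟩
    · intro v hv
      rw [mem_union] at hv
      rcases hv with hv | hv
      · obtain ⟨u, hu, hd⟩ := hcS v hv
        exact ⟨u, by simp [hu], hd⟩
      · obtain ⟨u, hu, hd⟩ := hcT v hv
        exact ⟨u, by simp [hu], hd⟩

/-- The vertices other than the root with exactly one neighbour. -/
def Lf (K : G.Subgraph) (r : V) : Set V := {v | v ∈ K.verts ∧ v ≠ r ∧ (K.neighborSet v).ncard = 1}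

theorem Tr.subgraph {x : RT} {S : Finset V} {r : V} (H : Tr G x S r) :
    ∃ K : G.Subgraph, K.verts = ↑S ∧ K.Connected ∧ K.edgeSet.ncard + 1 = S.card ∧
      (Lf K r).ncard ≤ x.N 1 := by
  induction H with
  | pt r =>
    refine ⟨G.singletonSubgraph r, by simp, SimpleGraph.Subgraph.singletonSubgraph_connected,
      by simp, ?_⟩
    have : Lf (G.singletonSubgraph r) r = ∅ := by
      ext v
      simp only [Lf, Set.mem_ofPred_eq, Set.mem_empty_iff_false, iff_false, not_and]
      intro h1 h2
      exact absurd (by simpa using h1) h2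
    simp [this]
  | @ext x S c r H hadj hr ih =>
    obtain ⟨K, hV, hC, hE, hL⟩ := ih
    have hcS : c ∈ S := H.mem
    have hrK : r ∉ K.verts := by rw [hV]; exact hr
    have hcK : c ∈ K.verts := by rw [hV]; exact hcS
    have hrc : r ≠ c := hadj.ne
    refine ⟨K ⊔ G.subgraphOfAdj hadj, ?_, ?_, ?_, ?_⟩
    · rw [SimpleGraph.Subgraph.verts_sup, hV, SimpleGraph.subgraphOfAdj_verts, coe_insert]
      ext v
      simp only [Set.mem_union, mem_coe, Set.mem_insert_iff, Set.mem_singleton_iff]
      constructor
      · rintro (h | h | h)
        · exact Or.inr h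
        · exact Or.inl h
        · right; rw [h]; exact hcS
      · rintro (h | h)
        · exact Or.inr (Or.inl h)
        · exact Or.inl h
    · refine SimpleGraph.Subgraph.connected_sup hC.preconnected
        (SimpleGraph.Subgraph.subgraphOfAdj_connected hadj).preconnected ⟨c, ?_⟩
      simp [hcK]
    · rw [SimpleGraph.Subgraph.edgeSet_sup, SimpleGraph.edgeSet_subgraphOfAdj,
        Set.union_singleton, Set.ncard_insert_of_notMem _ (Set.toFinite _), hE,
        card_insert_of_notMem hr]
      intro h
      rw [SimpleGraph.Subgraph.mem_edgeSet] at h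
      exact hrK h.fst_mem
    · have hn1 : x.N 1 ≤ (RT.ext x).N 1 := by
        simp only [RT.N]
        split_ifs with h
        · have : x.N 1 = 0 := (RT.N_eq_zero le_rfl x).2 (by omega)
          omega
        · exact le_rfl
      have hnb : ∀ v, v ≠ r → v ≠ c →
          (K ⊔ G.subgraphOfAdj hadj).neighborSet v = K.neighborSet v := by
        intro v h1 h2
        ext w
        simp only [SimpleGraph.Subgraph.mem_neighborSet, SimpleGraph.Subgraph.sup_adj,
          SimpleGraph.subgraphOfAdj_adj]
        constructor
        · rintro (h | h)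
          · exact h
          · exfalso
            rw [Sym2.eq_iff] at h
            rcases h with ⟨h, -⟩ | ⟨-, h⟩
            · exact h1 h.symm
            · exact h2 h.symm
        · exact Or.inl
      by_cases hS : S = {c}
      · have hx : x.h = 0 := by
          have h1 := H.card
          rw [hS, card_singleton] at h1
          have := RT.h_le x
          omega
        have h2 : (RT.ext x).N 1 = 1 := by simp [RT.N, hx]
        rw [h2]
        have : Lf (K ⊔ G.subgraphOfAdj hadj) r ⊆ {c} := by
          rintro v ⟨hv1, hv2, -⟩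
          rw [SimpleGraph.Subgraph.verts_sup, hV, SimpleGraph.subgraphOfAdj_verts, hS] at hv1
          simp only [coe_singleton, Set.mem_union, Set.mem_singleton_iff,
            Set.mem_insert_iff] at hv1
          rcases hv1 with h | h | h
          · exact h
          · exact absurd h hv2
          · exact h
        calc (Lf (K ⊔ G.subgraphOfAdj hadj) r).ncard ≤ ({c} : Set V).ncard :=
              Set.ncard_le_ncard this (Set.toFinite _)
          _ = 1 := Set.ncard_singleton c
      · refine le_trans ?_ (hL.trans hn1)
        apply Set.ncard_le_ncard _ (Set.toFinite _)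
        rintro v ⟨hv1, hv2, hv3⟩
        by_cases hvc : v = c
        · exfalso
          subst hvc
          obtain ⟨w, hwS, hwc⟩ : ∃ w ∈ S, w ≠ v := by
            by_contra hcon
            push Not at hcon
            apply hS
            ext w
            rw [mem_singleton]
            exact ⟨fun h => hcon w h, fun h => by rw [h]; exact hcS⟩
          have hwK : w ∈ K.verts := by rw [hV]; exact hwS
          obtain ⟨z, hz⟩ : ∃ z, K.Adj v z := by
            have hpre := hC.preconnected
            obtain ⟨q⟩ := (SimpleGraph.Subgraph.preconnected_iff.1 hpre) ⟨v, hcK⟩ ⟨w, hwK⟩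
            cases q with
            | nil => exact absurd rfl hwc
            | cons h _ => exact ⟨_, h⟩
          have hzr : z ≠ r := fun h => hrK (by rw [← h]; exact hz.snd_mem)
          have hz' : z ∈ (K ⊔ G.subgraphOfAdj hadj).neighborSet v := by
            simp only [SimpleGraph.Subgraph.mem_neighborSet, SimpleGraph.Subgraph.sup_adj]
            exact Or.inl hz
          have hr' : r ∈ (K ⊔ G.subgraphOfAdj hadj).neighborSet v := by
            simp only [SimpleGraph.Subgraph.mem_neighborSet, SimpleGraph.Subgraph.sup_adj,
              SimpleGraph.subgraphOfAdj_adj]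
            exact Or.inr Sym2.eq_swap
          obtain ⟨a, ha⟩ := Set.ncard_eq_one.1 hv3
          rw [ha, Set.mem_singleton_iff] at hz' hr'
          exact hzr (hz'.trans hr'.symm)
        · rw [hnb v hv2 hvc] at hv3
          refine ⟨?_, hvc, hv3⟩
          rw [SimpleGraph.Subgraph.verts_sup, SimpleGraph.subgraphOfAdj_verts] at hv1
          rcases hv1 with h | h | h
          · exact h
          · exact absurd h hv2
          · exact absurd h hvc
  | @join x y S T r Hx Hy hST ihx ihy =>
    obtain ⟨K, hV, hC, hE, hL⟩ := ihx
    obtain ⟨K', hV', hC', hE', hL'⟩ := ihy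
    have hrK : r ∈ K.verts := by rw [hV]; exact Hx.mem
    have hrK' : r ∈ K'.verts := by rw [hV']; exact Hy.mem
    have hboth : ∀ v, v ∈ K.verts → v ∈ K'.verts → v = r := by
      intro v h1 h2
      rw [hV] at h1
      rw [hV'] at h2
      have : v ∈ S ∩ T := mem_inter.2 ⟨h1, h2⟩
      rwa [hST, mem_singleton] at this
    refine ⟨K ⊔ K', ?_, SimpleGraph.Subgraph.connected_sup hC.preconnected hC'.preconnected
      ⟨r, by simp [hrK, hrK']⟩, ?_, ?_⟩
    · rw [SimpleGraph.Subgraph.verts_sup, hV, hV', coe_union]
    · have hdis : Disjoint K.edgeSet K'.edgeSet := by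
        rw [Set.disjoint_left]
        intro e
        induction e with
        | _ a b =>
          intro h1 h2
          rw [SimpleGraph.Subgraph.mem_edgeSet] at h1 h2
          have ha := hboth a h1.fst_mem h2.fst_mem
          have hb := hboth b h1.snd_mem h2.snd_mem
          exact h1.ne (ha.trans hb.symm)
      rw [SimpleGraph.Subgraph.edgeSet_sup, Set.ncard_union_eq hdis (Set.toFinite _)
        (Set.toFinite _)]
      have := card_union_add_card_inter S T
      rw [hST, card_singleton] at this
      omega
    · have hsub : Lf (K ⊔ K') r ⊆ Lf K r ∪ Lf K' r := by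
        rintro v ⟨hv1, hv2, hv3⟩
        rw [SimpleGraph.Subgraph.verts_sup] at hv1
        rcases hv1 with h | h
        · left
          refine ⟨h, hv2, ?_⟩
          have : (K ⊔ K').neighborSet v = K.neighborSet v := by
            ext w
            simp only [SimpleGraph.Subgraph.mem_neighborSet, SimpleGraph.Subgraph.sup_adj]
            constructor
            · rintro (h' | h')
              · exact h'
              · exact absurd (hboth v h h'.fst_mem) hv2
            · exact Or.inl
          rwa [this] at hv3
        · right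
          refine ⟨h, hv2, ?_⟩
          have : (K ⊔ K').neighborSet v = K'.neighborSet v := by
            ext w
            simp only [SimpleGraph.Subgraph.mem_neighborSet, SimpleGraph.Subgraph.sup_adj]
            constructor
            · rintro (h' | h')
              · exact absurd (hboth v h'.fst_mem h) hv2
              · exact h'
            · exact Or.inr
          rwa [this] at hv3
      calc (Lf (K ⊔ K') r).ncard ≤ (Lf K r ∪ Lf K' r).ncard :=
            Set.ncard_le_ncard hsub (Set.toFinite _)
        _ ≤ (Lf K r).ncard + (Lf K' r).ncard := Set.ncard_union_le _ _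
        _ ≤ (RT.join x y).N 1 := by simp only [RT.N]; omega

theorem skeleton {V : Type*} [Fintype V] [DecidableEq V] {G : SimpleGraph V} (hG : G.Connected)
    {x : RT} {S : Finset V} {r : V} (H : Tr G x S r) {p : ℕ} (hp : 1 ≤ p) :
    ∃ K : G.Subgraph, K.coe.IsTree ∧
      {v : K.verts | (K.coe.neighborSet v).ncard = 1}.ncard ≤ x.N p + 1 ∧
      ∀ v ∈ S, ∃ u ∈ K.verts, G.dist v u ≤ p := by
  obtain ⟨S', -, H', hc⟩ := H.sk hG (p := p)
  obtain ⟨K, hV, hC, hE, hL⟩ := H'.subgraph
  refine ⟨K, ?_, ?_, ?_⟩
  · rw [SimpleGraph.isTree_iff_connected_and_card]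
    refine ⟨hC.coe, ?_⟩
    have h1 : Nat.card K.coe.edgeSet = K.edgeSet.ncard := by
      rw [← SimpleGraph.Subgraph.image_coe_edgeSet_coe,
        Set.ncard_image_of_injective _ (Sym2.map.injective Subtype.val_injective)]
      rfl
    have h2 : Nat.card K.verts = S'.card := by
      rw [hV]; simp
    rw [h1, h2, hE]
  · have h3 : Subtype.val '' {v : K.verts | (K.coe.neighborSet v).ncard = 1} ⊆
        insert r (Lf K r) := by
      rintro _ ⟨v, hv, rfl⟩
      by_cases hvr : (v : V) = r
      · rw [hvr]; exact Set.mem_insert _ _
      · right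
        refine ⟨v.2, hvr, ?_⟩
        have h4 : Subtype.val '' (K.coe.neighborSet v) = K.neighborSet v := by
          ext w
          simp only [Set.mem_image, SimpleGraph.mem_neighborSet, SimpleGraph.Subgraph.coe_adj,
            SimpleGraph.Subgraph.mem_neighborSet]
          constructor
          · rintro ⟨u, hu, rfl⟩; exact hu
          · intro hw; exact ⟨⟨w, hw.snd_mem⟩, hw, rfl⟩
        rw [← h4, Set.ncard_image_of_injective _ Subtype.val_injective]
        exact hv
    calc {v : K.verts | (K.coe.neighborSet v).ncard = 1}.ncard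
        = (Subtype.val '' {v : K.verts | (K.coe.neighborSet v).ncard = 1}).ncard :=
          (Set.ncard_image_of_injective _ Subtype.val_injective).symm
      _ ≤ (insert r (Lf K r)).ncard := Set.ncard_le_ncard h3 (Set.toFinite _)
      _ ≤ (Lf K r).ncard + 1 := Set.ncard_insert_le _ _
      _ ≤ x.N p + 1 := by
        have := RT.N_one_sk hp x
        omega
  · intro v hv
    obtain ⟨u, hu, hd⟩ := hc v hv
    exact ⟨u, by rw [hV]; exact hu, hd⟩

end Pool.Agent.Helper51.ST
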