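import Pool.Agent.Helper51.ST.Main
import Pool.Agent.Helper51.ST.Skel
import Pool.Agent.Helper64.FB.GraphMain

/-! # Project ST, module ST-20: stability and few leaves together -/

set_option autoImplicit false

namespace Pool.Agent.Helper51.ST

open Finset Pool.Agent.Helper51.BN N441b2449

universe u

private theorem few_num {c : ℝ} (hc : c = 1 / 10 ^ 21) : ∃ k₀ : ℕ, ∀ k : ℕ, k₀ ≤ k →
    1 ≤ ⌊c * k / Real.log k⌋₊ ∧
    10 ^ 20 * ((⌊c * k / Real.log k⌋₊ + 1) + ⌊c * k / Real.log k⌋₊ + 1) * (Nat.log 2 k + 1) ≤ k := by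
  have h1 : ∀ᶠ x : ℝ in Filter.atTop, ‖Real.log x‖ ≤ (1 / 10 ^ 22 : ℝ) * ‖x‖ :=
    Real.isLittleO_log_id_atTop.bound (by norm_num)
  have h2 : ∀ᶠ x : ℝ in Filter.atTop, Real.exp 1 ≤ x := Filter.eventually_ge_atTop _
  obtain ⟨k₀, hk₀⟩ := Filter.eventually_atTop.1
    (tendsto_natCast_atTop_atTop.eventually (h1.and h2))
  refine ⟨k₀, fun k hk => ?_⟩
  obtain ⟨h3, h4⟩ := hk₀ k hk
  have hk0 : (0 : ℝ) < k := lt_of_lt_of_le (Real.exp_pos 1) h4
  have hlog : 1 ≤ Real.log k := by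
    rw [Real.le_log_iff_exp_le hk0]
    exact h4
  rw [Real.norm_of_nonneg (by linarith), Real.norm_of_nonneg hk0.le] at h3
  have hl0 : 0 < Real.log k := by linarith
  constructor
  · apply Nat.le_floor
    rw [Nat.cast_one, le_div_iff₀ hl0, hc]
    linarith
  · have hL : (⌊c * k / Real.log k⌋₊ : ℝ) ≤ c * k / Real.log k :=
      Nat.floor_le (by rw [hc]; positivity)
    generalize ⌊c * (k : ℝ) / Real.log k⌋₊ = L at hL ⊢
    have hL' : (L : ℝ) * Real.log k ≤ c * k := by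
      rwa [le_div_iff₀ hl0] at hL
    have hlg : ((Nat.log 2 k : ℕ) : ℝ) * Real.log 2 ≤ Real.log k := by
      have h5 : (2 : ℝ) ^ (Nat.log 2 k) ≤ k := by
        have hk1 : k ≠ 0 := by
          rintro rfl
          simp at hk0
        exact_mod_cast Nat.pow_log_le_self 2 hk1
      have h6 := Real.log_le_log (by positivity) h5
      rwa [Real.log_pow] at h6
    have hlg2 : ((Nat.log 2 k : ℕ) : ℝ) ≤ 3 / 2 * Real.log k := by
      have h7 := Real.log_two_gt_d9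
      have h8 : (0 : ℝ) ≤ (Nat.log 2 k : ℕ) := Nat.cast_nonneg _
      nlinarith
    have hfin : (10 : ℝ) ^ 20 * ((L + 1) + L + 1) * ((Nat.log 2 k : ℕ) + 1) ≤ k := by
      have h9 : ((Nat.log 2 k : ℕ) : ℝ) + 1 ≤ 5 / 2 * Real.log k := by linarith
      have h10 : ((L : ℝ) + 1 + L + 1) * ((Nat.log 2 k : ℕ) + 1) ≤
          ((L : ℝ) + 1 + L + 1) * (5 / 2 * Real.log k) :=
        mul_le_mul_of_nonneg_left h9 (by positivity)
      have h11 : ((L : ℝ) + 1 + L + 1) * (5 / 2 * Real.log k) =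
          5 * (L * Real.log k) + 5 * Real.log k := by ring
      rw [hc] at hL'
      rw [mul_assoc]
      nlinarith
    exact_mod_cast hfin

/-- A graph with at most `k ^ 2` vertices and burning number greater than `k` is close to a
corona: every rooted spanning tree has at least `(1 - δ) * k` long paths. -/
theorem stab {δ δ₁ : ℝ} (hδ : 0 < δ) (hδ' : δ ≤ 1) (hδ₁ : 0 < δ₁) (hδ₁' : δ₁ ≤ 1 / 10) :
    ∃ k₀ : ℕ, ∀ {V : Type u} [Fintype V] [DecidableEq V] {G : SimpleGraph V}, G.Connected →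
      ∀ {k : ℕ} {x : RT} {r : V}, Tr G x univ r → k₀ ≤ k → Fintype.card V ≤ k ^ 2 →
      k < burningNumber G → (1 - δ) * k ≤ x.N ⌈(1 - 3 * δ₁) * k⌉₊ := by
  obtain ⟨c, hc⟩ : ∃ c : ℝ, c = 1 / 10 ^ 21 := ⟨_, rfl⟩
  obtain ⟨k₁, h1⟩ := stability.{u} (c := c) hδ hδ' hδ₁ hδ₁' (by rw [hc]; norm_num)
    (by rw [hc]; norm_num)
  obtain ⟨k₂, h2⟩ := few_num hc
  refine ⟨max k₁ k₂, ?_⟩
  intro V _ _ G hG k x r H hk hcard hb
  have he : x.e ≤ k ^ 2 := by
    have h3 := H.card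
    rw [card_univ] at h3
    omega
  rcases h1 hG H (le_of_max_le_left hk) he hb with h | h
  · exact h
  · exfalso
    obtain ⟨hp, hC⟩ := h2 k (le_of_max_le_right hk)
    obtain ⟨K, hK1, hK2, hK3⟩ := skeleton hG H hp
    obtain ⟨cc, hcc⟩ := Pool.Agent.Helper64.FB.graph_main hG K hK1
      (hK2.trans (Nat.add_le_add_right h 1)) (fun w => hK3 w (mem_univ w)) hcard hC
    have h5 := Pool.Agent.Helper64.Burn.burningNumber_le_of_centers hG cc hcc
    omega

end Pool.Agent.Helper51.ST
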