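import Pool.Agent.Helper51.ST.Stem
import Pool.Agent.Helper51.ST.Data

/-! # Project ST, module ST-17a: in the flat case there are few high stems -/

set_option autoImplicit false

namespace Pool.Agent.Helper51.ST

open Finset Pool.Agent.Helper51.BN

universe u

/-- In the flat case the price of a radius `R < b` is hardly more than `K / 2`. -/
theorem flat_price {g : ℕ → ℝ} {b : ℕ} {K ε : ℝ} (hg : CF g b K) (hNF : ¬ NF g b K ε) {R : ℕ}
    (hR : R < b) : 2 * g R * ((b : ℝ) - R) ≤ K * ((b : ℝ) - R + ε * b) := by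
  have h1 : K * ((R : ℝ) - ε * b) < 2 * ∑ j ∈ range R, g j := by
    by_contra hcon
    exact hNF ⟨R, hR.le, not_lt.mp hcon⟩
  have h2 := sum_range_le hg (le_refl b)
  have h3 := Finset.sum_range_add_sum_Ico g hR.le
  have h4 : ((b : ℝ) - R) * g R ≤ ∑ j ∈ Ico R b, g j := by
    have h5 : (Ico R b).card • g R ≤ ∑ j ∈ Ico R b, g j := by
      apply Finset.card_nsmul_le_sum
      intro j hj
      rw [mem_Ico] at hj
      exact hg.mono R j hj.1 hj.2.le
    rw [Nat.card_Ico, nsmul_eq_mul, Nat.cast_sub hR.le] at h5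
    exact h5
  nlinarith

/-- The cost function up to a smaller radius. -/
private theorem fs_cf {g : ℕ → ℝ} {b : ℕ} {K : ℝ} (hg : CF g b K) {b' : ℕ} (h1 : 1 ≤ b')
    (hb : b' ≤ b) : CF g b' (K * (1 + 2 / b')) := by
  have hK : 0 ≤ K := (hg.nonneg b).trans hg.top
  have hb0 : (0 : ℝ) < b' := by exact_mod_cast h1
  have hgb : g b' ≤ K := (hg.mono b' b hb le_rfl).trans hg.top
  have h2 := sum_range_le hg hb
  have h3 : ∑ j ∈ range (b' + 1), g j = g 0 + ∑ j ∈ Icc 1 b', g j := by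
    have h4 : range (b' + 1) = insert 0 (Icc 1 b') := by
      ext j
      simp only [mem_range, mem_insert, mem_Icc]
      omega
    rw [h4, sum_insert (by simp)]
  rw [sum_range_succ] at h3
  refine ⟨hg.nonneg, fun i j hij hj => hg.mono i j hij (hj.trans hb), ?_, ?_⟩
  · refine hgb.trans ?_
    have : 0 ≤ K * (2 / (b' : ℝ)) := by positivity
    nlinarith
  · have h5 : K * (1 + 2 / (b' : ℝ)) * b' = K * b' + 2 * K := by
      field_simp
    rw [h5]
    have h6 := hg.nonneg 0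
    linarith

/-- The numerical part. -/
private theorem fs_num {ε' b k L a s x y mm : ℝ} (h' : 0 < ε') (h'1 : ε' ≤ 1 / 10)
    (hb : 60 ≤ ε' * b) (hb0 : 1 ≤ b) (hk : 0 < k) (hL : 48 * L ≤ ε' * k)
    (ha1 : (1 - ε') * b - 1 ≤ a) (ha2 : b / 2 ≤ a) (hmm : 4 * mm ≤ ε' * k ^ 2)
    (hx : x = (2 * b + 1) * (1 + 2 / a)) (hy : x / 3 ≤ y) (hs0 : mm ≤ s)
    (hmain : (2 * a + 1) * (k ^ 2 - 4 * k * L) ≤ x * k ^ 2 - y * (s - mm)) :
    s ≤ 4 * ε' * k ^ 2 := by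
  have ha0 : 0 < a := by linarith
  have hx0 : 0 < x := by rw [hx]; positivity
  have hxa : x * a = (2 * b + 1) * (a + 2) := by
    rw [hx]; field_simp
  have h1 : (2 * a + 1) * (k ^ 2 - 4 * k * L) ≤ x * k ^ 2 - x / 3 * (s - mm) := by
    have : x / 3 * (s - mm) ≤ y * (s - mm) :=
      mul_le_mul_of_nonneg_right hy (by linarith)
    linarith
  -- (2a+1) ≥ (1 - ε' - 1/b)(2b+1)
  have h2 : (1 - ε') * (2 * b + 1) - 3 ≤ 2 * a + 1 := by nlinarith
  -- x ≤ (2b+1) (1 + 4/b)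
  have h3 : x * b ≤ (2 * b + 1) * (b + 4) := by
    have h4 : x = (2 * b + 1) * (1 + 2 / a) := hx
    have h5 : 2 / a ≤ 4 / b := by
      rw [div_le_div_iff₀ ha0 (by linarith)]
      linarith
    have h6 : (2 * b + 1) * (1 + 4 / b) * b = (2 * b + 1) * (b + 4) := by
      field_simp
    rw [← h6, h4]
    apply mul_le_mul_of_nonneg_right _ (by linarith)
    apply mul_le_mul_of_nonneg_left _ (by linarith)
    linarith
  have h3' : x ≤ (2 * b + 1) + 12 := by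
    have : x * b ≤ ((2 * b + 1) + 12) * b := by nlinarith
    exact le_of_mul_le_mul_right this (by linarith)
  have hxl : 2 * b + 1 ≤ x := by
    rw [hx]
    have : 0 ≤ (2 * b + 1) * (2 / a) := by positivity
    nlinarith
  -- 2a+1 ≥ x - (ε' x + 16)
  have h7 : x - ε' * x - 15 ≤ 2 * a + 1 := by nlinarith
  have h8 : 15 ≤ ε' * x / 8 := by nlinarith
  have h9 : x * (1 - 9 / 8 * ε') ≤ 2 * a + 1 := by linarith
  have h10 : k ^ 2 * (1 - ε' / 12) ≤ k ^ 2 - 4 * k * L := by nlinarith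
  have h10' : 0 ≤ k ^ 2 * (1 - ε' / 12) := by
    apply mul_nonneg (by positivity)
    linarith
  have h11 : x * (1 - 9 / 8 * ε') * (k ^ 2 * (1 - ε' / 12)) ≤
      (2 * a + 1) * (k ^ 2 - 4 * k * L) :=
    mul_le_mul h9 h10 h10' (by linarith)
  have h12 : x * (1 - 29 / 24 * ε') * k ^ 2 ≤
      x * (1 - 9 / 8 * ε') * (k ^ 2 * (1 - ε' / 12)) := by
    have h13 : x * (1 - 9 / 8 * ε') * (k ^ 2 * (1 - ε' / 12)) =
        x * (1 - 29 / 24 * ε') * k ^ 2 + x * k ^ 2 * ε' ^ 2 * (9 / 96) := by ring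
    have h14 : 0 ≤ x * k ^ 2 * ε' ^ 2 * (9 / 96) := by positivity
    linarith
  have h15 : x * ((s - mm) / 3) ≤ x * (29 / 24 * ε' * k ^ 2) := by
    nlinarith
  have h16 : (s - mm) / 3 ≤ 29 / 24 * ε' * k ^ 2 := le_of_mul_le_mul_left h15 hx0
  have h17 : 0 ≤ ε' * k ^ 2 := by positivity
  linarith

private theorem fs_num2 {ε' A m k a : ℝ} (h' : 0 < ε') (h'1 : ε' ≤ 1 / 10)
    (hA2 : 25000 ≤ A * ε' ^ 2) (hm : 0 ≤ m) (hk : 0 ≤ k) (h1 : 8 * A * m ≤ k)
    (h2 : a + 1 ≤ k) : m * (a + 1) * 4 ≤ ε' * k ^ 2 := by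
  have hA : 0 ≤ A := by
    by_contra hcon
    push Not at hcon
    nlinarith [sq_nonneg ε']
  have h3 : 1 ≤ ε' * A := by
    have h4 : ε' ^ 2 ≤ ε' := by nlinarith
    have h5 : A * ε' ^ 2 ≤ A * ε' := mul_le_mul_of_nonneg_left h4 hA
    linarith
  have h4 : m * (a + 1) ≤ m * k := mul_le_mul_of_nonneg_left h2 hm
  have h5 : 8 * m ≤ ε' * k := by
    have h6 : 8 * m * 1 ≤ 8 * m * (ε' * A) := mul_le_mul_of_nonneg_left h3 (by positivity)
    have h7 : ε' * (8 * A * m) ≤ ε' * k := mul_le_mul_of_nonneg_left h1 h'.le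
    linarith
  have h8 : 8 * m * k ≤ ε' * k * k := mul_le_mul_of_nonneg_right h5 hk
  linarith [mul_nonneg hm hk]

theorem flat_stem {ε' ε : ℝ} (h' : 0 < ε') (h'1 : ε' ≤ 1 / 10) (hε : 0 < ε)
    (hεε : 10 * ε ≤ ε') :
    ∃ k₀ : ℕ, ∀ {V : Type u} [Fintype V] [DecidableEq V] {G : SimpleGraph V} {k A L m : ℕ}
      {y : Fin m → RT} {P : Fin m → Finset V} {q : Fin m → V}, Data G k A L m y P q →
      ∀ {g : ℕ → ℝ} {b : ℕ} {ρ : ℝ}, Price g k L b ρ → k₀ ≤ k → k₀ ≤ A →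
      ¬ NF g b (ρ * (2 * b + 1)) ε → ¬ Cheap G g k L P →
      ((∑ i, (y i).s (⌊(1 - ε') * b⌋₊ + 1) : ℕ) : ℝ) ≤ 4 * ε' * (k : ℝ) ^ 2 := by
  refine ⟨⌈25000 / ε' ^ 2⌉₊, ?_⟩
  intro V _ _ G k A L m y P q hD g b ρ hP hk hA hNF hCh
  have hk1 : 25000 / ε' ^ 2 ≤ (k : ℝ) := (Nat.le_ceil _).trans (by exact_mod_cast hk)
  have hA1 : 25000 / ε' ^ 2 ≤ (A : ℝ) := (Nat.le_ceil _).trans (by exact_mod_cast hA)
  have hk2 : 25000 ≤ (k : ℝ) * ε' ^ 2 := by rwa [div_le_iff₀ (by positivity)] at hk1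
  have hA2 : 25000 ≤ (A : ℝ) * ε' ^ 2 := by rwa [div_le_iff₀ (by positivity)] at hA1
  have hk0 : (0 : ℝ) < k := by
    by_contra hcon
    have : (k : ℝ) = 0 := le_antisymm (not_lt.mp hcon) (Nat.cast_nonneg k)
    rw [this] at hk2
    norm_num at hk2
  have hL2 : (2 : ℝ) ≤ L := by exact_mod_cast hD.L2
  have hL4 : (L : ℝ) ^ 4 ≤ k := by exact_mod_cast hD.L4
  have hLL : (L : ℝ) ^ 2 ≤ k := by
    refine le_trans ?_ hL4
    apply pow_le_pow_right₀ (by linarith) (by norm_num)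
  have hLk : 48 * (L : ℝ) ≤ ε' * k := by
    apply (pow_le_pow_iff_left₀ (by positivity) (by positivity) two_ne_zero).mp
    have h1 : (48 * (L : ℝ)) ^ 2 ≤ 2304 * k := by nlinarith
    have h2 : 2304 * (k : ℝ) ≤ (ε' * k) ^ 2 := by nlinarith
    exact h1.trans h2
  have hb1 : (1 : ℝ) ≤ b := by exact_mod_cast hP.b1
  have hb2 : (k : ℝ) * L ≤ 12 * (b : ℝ) ^ 2 := by exact_mod_cast hP.b2
  have hbε : 60 ≤ ε' * (b : ℝ) := by
    apply (pow_le_pow_iff_left₀ (by norm_num) (by positivity) two_ne_zero).mp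
    have h1 : (k : ℝ) * 2 ≤ 12 * (b : ℝ) ^ 2 := by nlinarith
    have h2 : (k : ℝ) * ε' ^ 2 * 2 ≤ 12 * (b : ℝ) ^ 2 * ε' ^ 2 := by nlinarith [sq_nonneg ε']
    nlinarith
  have hb600 : (600 : ℝ) ≤ b := by nlinarith
  set a : ℕ := ⌊(1 - ε') * b⌋₊ with ha
  have ha1 : (1 - ε') * (b : ℝ) - 1 ≤ a := by
    have := Nat.lt_floor_add_one ((1 - ε') * (b : ℝ))
    linarith
  have ha3 : (a : ℝ) ≤ (1 - ε') * b := by
    apply Nat.floor_le
    apply mul_nonneg (by linarith) (by positivity)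
  have ha2 : (b : ℝ) / 2 ≤ a := by nlinarith
  have ha0 : (1 : ℝ) ≤ a := by linarith
  have ha0' : 1 ≤ a := by exact_mod_cast ha0
  have hab : (a : ℝ) < b := by nlinarith
  have hab' : a < b := by exact_mod_cast hab
  have hbk : b < k - L := by
    have := hP.bk
    omega
  set K : ℝ := ρ * (2 * b + 1) with hK
  have hK0 : 0 < K := by
    have := hP.ρpos
    positivity
  have hcf : CF g b K := hP.cf
  have hcf' := fs_cf hcf ha0' hab'.le
  set K' : ℝ := K * (1 + 2 / a) with hK'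
  have hKK' : K ≤ K' := by
    have : 0 ≤ K * (2 / (a : ℝ)) := by positivity
    rw [hK']
    nlinarith
  have hga : g a ≤ 11 / 20 * K := by
    have h1 := flat_price hcf hNF hab'
    have h2 : ε' * b ≤ (b : ℝ) - a := by linarith
    have h3 : K * ((b : ℝ) - a + ε * b) ≤ K * (11 / 10 * ((b : ℝ) - a)) := by
      apply mul_le_mul_of_nonneg_left _ hK0.le
      nlinarith
    have h4 : (2 * g a) * ((b : ℝ) - a) ≤ (11 / 10 * K) * ((b : ℝ) - a) := by linarith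
    have h5 := le_of_mul_le_mul_right h4 (by linarith)
    linarith
  have hpiece : ∀ i, ∃ C : Finset (V × ℕ), (∀ p ∈ C, p.2 ≤ a) ∧
      (∀ v ∈ P i, ∃ p ∈ C, G.dist p.1 v ≤ p.2) ∧
      (2 * a + 1) * cost g C ≤ K' * (y i).e - (K' - g a) * (((y i).s (a + 1) : ℝ) - (a + 1)) := by
    intro i
    apply stem_piece hD.conn hcf' (hD.tr i)
    have := hD.big i
    omega
  choose C hC1 hC2 hC3 using hpiece
  have hcost : ∑ r ∈ range (k - L), g r < ∑ i, cost g (C i) := by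
    by_contra hcon
    exact hCh ⟨C, fun i p hp => lt_of_le_of_lt (hC1 i p hp) (by omega), hC2, not_lt.mp hcon⟩
  have hsum : (2 * (a : ℝ) + 1) * ∑ i, cost g (C i) ≤
      K' * (k : ℝ) ^ 2 - (K' - g a) * (((∑ i, (y i).s (a + 1) : ℕ) : ℝ) - m * (a + 1)) := by
    have h1 : ∑ i, (2 * (a : ℝ) + 1) * cost g (C i) ≤
        ∑ i, (K' * (y i).e - (K' - g a) * (((y i).s (a + 1) : ℝ) - (a + 1))) :=
      Finset.sum_le_sum fun i _ => hC3 i
    rw [← Finset.mul_sum, Finset.sum_sub_distrib, ← Finset.mul_sum, ← Finset.mul_sum,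
      Finset.sum_sub_distrib, Finset.sum_const, Finset.card_univ, Fintype.card_fin,
      nsmul_eq_mul] at h1
    have h2 : ((∑ i, (y i).e : ℕ) : ℝ) ≤ (k : ℝ) ^ 2 := by exact_mod_cast hD.tot
    have h3 : K' * ((∑ i, (y i).e : ℕ) : ℝ) ≤ K' * (k : ℝ) ^ 2 :=
      mul_le_mul_of_nonneg_left h2 (by linarith)
    push_cast at h3 ⊢
    linarith
  have hmk : (m : ℝ) * (a + 1) * 4 ≤ ε' * (k : ℝ) ^ 2 := by
    have h1 : 8 * (A : ℝ) * m ≤ k := by exact_mod_cast hD.cnt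
    have h2 : (a : ℝ) + 1 ≤ k := by
      have : a + 1 ≤ k := by omega
      exact_mod_cast this
    exact fs_num2 h' h'1 hA2 (Nat.cast_nonneg m) (Nat.cast_nonneg k) h1 h2
  by_cases hs : (m : ℝ) * (a + 1) ≤ ((∑ i, (y i).s (a + 1) : ℕ) : ℝ)
  · have hρ := hP.ρpos
    have htot := hP.tot
    have hy : K' / 3 ≤ K' - g a := by linarith
    refine fs_num (a := a) (b := b) (k := k) (L := L) (x := K' / ρ) (y := (K' - g a) / ρ)
      (mm := (m : ℝ) * (a + 1)) h' h'1 hbε hb1 hk0 hLk ha1 ha2 (by linarith)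
      ?_ ?_ hs ?_
    · rw [hK', hK]
      field_simp
    · rw [div_div, mul_comm ρ 3, ← div_div]
      exact div_le_div_of_nonneg_right hy hρ.le
    · have h1 : (2 * (a : ℝ) + 1) * (ρ * ((k : ℝ) ^ 2 - 4 * k * L)) ≤
          (2 * (a : ℝ) + 1) * ∑ i, cost g (C i) :=
        mul_le_mul_of_nonneg_left (htot.trans hcost.le) (by positivity)
      have h2 := h1.trans hsum
      have h3 : ρ * ((2 * (a : ℝ) + 1) * ((k : ℝ) ^ 2 - 4 * k * L)) ≤
          ρ * (K' / ρ * (k : ℝ) ^ 2 - (K' - g a) / ρ *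
            (((∑ i, (y i).s (a + 1) : ℕ) : ℝ) - m * (a + 1))) := by
        have h4 : ρ * (K' / ρ * (k : ℝ) ^ 2 - (K' - g a) / ρ *
            (((∑ i, (y i).s (a + 1) : ℕ) : ℝ) - m * (a + 1))) =
            K' * (k : ℝ) ^ 2 - (K' - g a) *
              (((∑ i, (y i).s (a + 1) : ℕ) : ℝ) - m * (a + 1)) := by
          field_simp
        rw [h4]
        linarith
      exact le_of_mul_le_mul_left h3 hρ
  · push Not at hs
    have h1 : 0 ≤ ε' * (k : ℝ) ^ 2 := by positivity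
    linarith

end Pool.Agent.Helper51.ST
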