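import Pool.Agent.Helper51.ST.FlatCover
import Pool.Agent.Helper51.ST.FlatStem

/-! # Project ST, module ST-17c: the flat case with a large scale -/

set_option autoImplicit false

namespace Pool.Agent.Helper51.ST

open Finset Pool.Agent.Helper51.BN

universe u

theorem flat_large {δ δ₁ ε : ℝ} (hδ : 0 < δ) (hδ' : δ ≤ 1) (hδ₁ : 0 < δ₁) (hδ₁' : δ₁ ≤ 1 / 10)
    (hε : 0 < ε) (hε' : 16 * ε ≤ δ * δ₁) :
    ∃ k₀ : ℕ, ∀ {V : Type u} [Fintype V] [DecidableEq V] {G : SimpleGraph V} {k A L m : ℕ}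
      {y : Fin m → RT} {P : Fin m → Finset V} {q : Fin m → V}, Data G k A L m y P q →
      ∀ {g : ℕ → ℝ} {b : ℕ} {ρ : ℝ}, Price g k L b ρ → k₀ ≤ k → k₀ ≤ A →
      (1 - δ₁ / 4) * k ≤ b → ¬ NF g b (ρ * (2 * b + 1)) ε →
      ∀ {B : ℕ}, B ≤ k → (1 - 3 * δ₁) * k + 1 ≤ B →
      ((∑ i, (y i).s B : ℕ) : ℝ) ≤ δ * δ₁ / 16 * (k : ℝ) ^ 2 →
      ((∑ i, (y i).N ⌈(1 - 3 * δ₁) * k⌉₊ : ℕ) : ℝ) ≤ (1 - δ / 2) * k → Cheap G g k L P := by
  obtain ⟨η, hη⟩ : ∃ η : ℝ, η = δ * δ₁ / 48 := ⟨_, rfl⟩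
  have hη0 : 0 < η := by rw [hη]; positivity
  refine ⟨⌈1 / η ^ 2⌉₊, ?_⟩
  intro V _ _ G k A L m y P q hD g b ρ hP hk hA hb hNF B hBk hB hs hN
  -- the largeness of `k` and `A`
  have hk1 : 1 ≤ η ^ 2 * k := by
    have h1 : 1 / η ^ 2 ≤ (k : ℝ) := (Nat.le_ceil _).trans (by exact_mod_cast hk)
    rw [div_le_iff₀ (by positivity)] at h1
    linarith
  have hA1 : 1 ≤ η ^ 2 * A := by
    have h1 : 1 / η ^ 2 ≤ (A : ℝ) := (Nat.le_ceil _).trans (by exact_mod_cast hA)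
    rw [div_le_iff₀ (by positivity)] at h1
    linarith
  have hk0 : (0 : ℝ) ≤ k := Nat.cast_nonneg _
  have hA0 : (0 : ℝ) ≤ A := Nat.cast_nonneg _
  have hm0 : (0 : ℝ) ≤ m := Nat.cast_nonneg _
  have e1 : η ^ 2 ≤ δ₁ / 2304 := by
    rw [hη]
    have h1 : δ ^ 2 ≤ 1 := by nlinarith
    have h2 : δ₁ ^ 2 ≤ δ₁ := by nlinarith
    have h3 : δ ^ 2 * δ₁ ^ 2 ≤ 1 * δ₁ := mul_le_mul h1 h2 (by positivity) (by norm_num)
    have h4 : (δ * δ₁ / 48) ^ 2 = δ ^ 2 * δ₁ ^ 2 / 2304 := by ring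
    rw [h4]
    linarith
  have e2 : η ^ 2 ≤ δ / 2304 := by
    rw [hη]
    have h1 : δ ^ 2 ≤ δ := by nlinarith
    have h2 : δ₁ ^ 2 ≤ 1 := by nlinarith
    have h3 : δ ^ 2 * δ₁ ^ 2 ≤ δ * 1 := mul_le_mul h1 h2 (by positivity) (by positivity)
    have h4 : (δ * δ₁ / 48) ^ 2 = δ ^ 2 * δ₁ ^ 2 / 2304 := by ring
    rw [h4]
    linarith
  have hδk : 2304 ≤ δ₁ * k := by
    have := mul_le_mul_of_nonneg_right e1 hk0
    linarith
  have hδA : 2304 ≤ δ * A := by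
    have := mul_le_mul_of_nonneg_right e2 hA0
    linarith
  have hkpos : (0 : ℝ) < k := by
    rcases hk0.lt_or_eq with h | h
    · exact h
    · rw [← h] at hδk
      linarith
  have hL0 : (0 : ℝ) ≤ L := Nat.cast_nonneg _
  have hL : (L : ℝ) ≤ η * k := by
    have h1 : L ^ 2 ≤ L ^ 4 := Nat.pow_le_pow_right (by have := hD.L2; omega) (by norm_num)
    have h2 : L ^ 2 ≤ k := h1.trans hD.L4
    have h3 : (L : ℝ) ^ 2 ≤ k := by exact_mod_cast h2
    have h4 : (k : ℝ) ≤ (η * k) ^ 2 := by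
      have := mul_le_mul_of_nonneg_right hk1 hk0
      calc (k : ℝ) = 1 * k := by ring
        _ ≤ η ^ 2 * k * k := this
        _ = (η * k) ^ 2 := by ring
    exact abs_le_of_sq_le_sq' (h3.trans h4) (by positivity) |>.2
  have hLδ : 48 * (L : ℝ) ≤ δ * k := by
    have h1 : η ≤ δ / 48 := by
      rw [hη]
      have : δ * δ₁ ≤ δ * 1 := mul_le_mul_of_nonneg_left (by linarith) hδ.le
      linarith
    have := mul_le_mul_of_nonneg_right h1 hk0
    linarith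
  have hLδ₁ : 48 * (L : ℝ) ≤ δ₁ * k := by
    have h1 : η ≤ δ₁ / 48 := by
      rw [hη]
      have : δ * δ₁ ≤ 1 * δ₁ := mul_le_mul_of_nonneg_right hδ' hδ₁.le
      linarith
    have := mul_le_mul_of_nonneg_right h1 hk0
    linarith
  have hm : 24 * (m : ℝ) ≤ δ * k := by
    have h1 : 8 * (A : ℝ) * m ≤ k := by exact_mod_cast hD.cnt
    have h2 : δ * (8 * (A : ℝ) * m) ≤ δ * k := mul_le_mul_of_nonneg_left h1 hδ.le
    have h3 : 3 * (m : ℝ) ≤ δ * A * m := mul_le_mul_of_nonneg_right (by linarith) hm0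
    have h4 : δ * (8 * (A : ℝ) * m) = 8 * (δ * A * m) := by ring
    linarith
  -- the parameters
  obtain ⟨R, hR⟩ : ∃ R : ℕ, R = ⌊(1 - δ₁) * k⌋₊ := ⟨_, rfl⟩
  obtain ⟨D, hDD⟩ : ∃ D : ℕ, D = ⌊δ₁ * k / 4⌋₊ := ⟨_, rfl⟩
  obtain ⟨d, hd⟩ : ∃ d : ℕ, d = ⌈δ₁ * k⌉₊ + 1 := ⟨_, rfl⟩
  obtain ⟨R₁, hR₁⟩ : ∃ R₁ : ℕ, R₁ = ⌈(1 - 3 * δ₁) * k⌉₊ := ⟨_, rfl⟩
  rw [← hR₁] at hN
  have p1 : (0 : ℝ) ≤ (1 - δ₁) * k := mul_nonneg (by linarith) hk0
  have p3 : (0 : ℝ) < (1 - 3 * δ₁) * k := mul_pos (by linarith) hkpos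
  have r1 : (R : ℝ) ≤ (1 - δ₁) * k := by rw [hR]; exact Nat.floor_le p1
  have r2 : (1 - δ₁) * k < (R : ℝ) + 1 := by rw [hR]; exact Nat.lt_floor_add_one _
  have r3 : (D : ℝ) ≤ δ₁ * k / 4 := by rw [hDD]; exact Nat.floor_le (by positivity)
  have r4 : δ₁ * k / 4 < (D : ℝ) + 1 := by rw [hDD]; exact Nat.lt_floor_add_one _
  have r5 : δ₁ * k + 1 ≤ (d : ℝ) := by
    rw [hd]
    push_cast
    have := Nat.le_ceil (δ₁ * k)
    linarith
  have r6 : (d : ℝ) < δ₁ * k + 2 := by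
    rw [hd]
    push_cast
    have := Nat.ceil_lt_add_one (show 0 ≤ δ₁ * k by positivity)
    linarith
  have r7 : (R₁ : ℝ) < (1 - 3 * δ₁) * k + 1 := by
    rw [hR₁]; exact Nat.ceil_lt_add_one p3.le
  have q1 : 1 ≤ R₁ := by
    rw [hR₁]
    exact Nat.one_le_iff_ne_zero.2 (Nat.ceil_pos.2 p3).ne'
  have q2 : R₁ ≤ B := by
    have : (R₁ : ℝ) < B := lt_of_lt_of_le r7 hB
    exact_mod_cast this.le
  have q3 : B ≤ d + R := by
    have : (k : ℝ) < (d : ℝ) + R := by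
      have : (1 - δ₁) * k = k - δ₁ * k := by ring
      linarith
    have h2 : k < d + R := by exact_mod_cast this
    omega
  have q4 : D + d + 1 + R₁ ≤ R := by
    have h1 : (D : ℝ) + d + 1 + R₁ < R + 1 := by
      have e3 : (1 - δ₁) * k = k - δ₁ * k := by ring
      have e4 : (1 - 3 * δ₁) * k = k - 3 * (δ₁ * k) := by ring
      rw [e3] at r2
      rw [e4] at r7
      linarith
    have h2 : D + d + 1 + R₁ < R + 1 := by exact_mod_cast h1
    omega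
  have hbk : (b : ℝ) + L + 1 ≤ k := by exact_mod_cast hP.bk
  have q5 : R < k - L := by
    have h1 : (R : ℝ) + L < k := by
      have e3 : (1 - δ₁) * k = k - δ₁ * k := by ring
      rw [e3] at r1
      linarith
    have h2 : R + L < k := by exact_mod_cast h1
    omega
  have q6 : R < b := by
    have h1 : (R : ℝ) < b := by
      have e3 : (1 - δ₁) * k = k - δ₁ * k := by ring
      have e4 : (1 - δ₁ / 4) * k = k - δ₁ * k / 4 := by ring
      rw [e3] at r1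
      rw [e4] at hb
      linarith
    exact_mod_cast h1
  -- the covers
  have hcov : ∀ i, ∃ Z : Finset V, Z.card ≤ (y i).N R₁ + (y i).s B / (D + 1) + 1 ∧
      ∀ v ∈ P i, ∃ z ∈ Z, G.dist z v ≤ R := fun i =>
    flat_cover hD.conn (hD.tr i) q1 q2 q3 q4
  choose Z hZc hZ using hcov
  refine ⟨fun i => Z i ×ˢ {R}, ?_, ?_, ?_⟩
  · intro i p hp
    rw [Finset.mem_product, Finset.mem_singleton] at hp
    rw [hp.2]
    exact q5
  · intro i v hv
    obtain ⟨z, hz, hzv⟩ := hZ i v hv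
    exact ⟨(z, R), by simp [hz], hzv⟩
  · have hcost : ∀ i, cost g (Z i ×ˢ {R}) = (Z i).card * g R := by
      intro i
      unfold cost
      rw [Finset.sum_product]
      simp
    have hsum : ∑ i, cost g (Z i ×ˢ {R}) = ((∑ i, (Z i).card : ℕ) : ℝ) * g R := by
      push_cast
      rw [Finset.sum_mul]
      exact Finset.sum_congr rfl fun i _ => hcost i
    rw [hsum]
    obtain ⟨T, hT⟩ : ∃ T : ℕ, T = ∑ i, (y i).s B / (D + 1) := ⟨_, rfl⟩
    have t1 : (D + 1) * T ≤ ∑ i, (y i).s B := by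
      rw [hT, Finset.mul_sum]
      exact Finset.sum_le_sum fun i _ => Nat.mul_div_le _ _
    have t2 : ((D : ℝ) + 1) * T ≤ δ * δ₁ / 16 * (k : ℝ) ^ 2 := by
      refine le_trans ?_ hs
      exact_mod_cast t1
    have t3 : (T : ℝ) ≤ δ * k / 4 := by
      have hT0 : (0 : ℝ) ≤ T := Nat.cast_nonneg _
      have h1 : δ₁ * k / 4 * T ≤ ((D : ℝ) + 1) * T := mul_le_mul_of_nonneg_right r4.le hT0
      have h2 : δ₁ * k / 4 * T ≤ δ₁ * k / 4 * (δ * k / 4) := by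
        refine (h1.trans t2).trans (le_of_eq ?_)
        ring
      exact le_of_mul_le_mul_left h2 (by positivity)
    have t4 : ∑ i, (Z i).card ≤ ∑ i, (y i).N R₁ + T + m := by
      calc ∑ i, (Z i).card ≤ ∑ i, ((y i).N R₁ + (y i).s B / (D + 1) + 1) :=
            Finset.sum_le_sum fun i _ => hZc i
        _ = ∑ i, (y i).N R₁ + T + m := by
            rw [Finset.sum_add_distrib, Finset.sum_add_distrib, ← hT]
            simp
    have t5 : ((∑ i, (Z i).card : ℕ) : ℝ) ≤ (1 - δ / 4) * k + m := by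
      have h1 : ((∑ i, (Z i).card : ℕ) : ℝ) ≤ ((∑ i, (y i).N R₁ : ℕ) : ℝ) + T + m := by
        exact_mod_cast t4
      have e3 : (1 - δ / 2) * k = k - δ * k / 2 := by ring
      have e4 : (1 - δ / 4) * k = k - δ * k / 4 := by ring
      rw [e3] at hN
      rw [e4]
      linarith
    -- the price of `R`
    have hfp := flat_price hP.cf hNF q6
    have hgR : g R ≤ ρ * k * (1 + δ / 12) := by
      have hx1 : 3 / 4 * (δ₁ * k) ≤ (b : ℝ) - R := by
        have e3 : (1 - δ₁) * k = k - δ₁ * k := by ring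
        have e4 : (1 - δ₁ / 4) * k = k - δ₁ * k / 4 := by ring
        rw [e3] at r1
        rw [e4] at hb
        linarith
      have hx0 : 0 < (b : ℝ) - R := by linarith
      have hεb : ε * b ≤ δ / 12 * ((b : ℝ) - R) := by
        have h1 : ε * b ≤ ε * k := mul_le_mul_of_nonneg_left (by linarith) hε.le
        have h2 : 16 * ε * k ≤ δ * δ₁ * k := mul_le_mul_of_nonneg_right hε' hk0
        have h3 : δ / 12 * (3 / 4 * (δ₁ * k)) ≤ δ / 12 * ((b : ℝ) - R) :=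
          mul_le_mul_of_nonneg_left hx1 (by positivity)
        have h4 : δ / 12 * (3 / 4 * (δ₁ * k)) = δ * δ₁ * k / 16 := by ring
        linarith
      have hK0 : 0 ≤ ρ * (2 * (b : ℝ) + 1) := by
        have := hP.ρpos
        positivity
      have h5 : 2 * g R * ((b : ℝ) - R) ≤
          ρ * (2 * (b : ℝ) + 1) * (1 + δ / 12) * ((b : ℝ) - R) := by
        refine hfp.trans ?_
        have h6 : (b : ℝ) - R + ε * b ≤ (1 + δ / 12) * ((b : ℝ) - R) := by linarith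
        calc ρ * (2 * (b : ℝ) + 1) * ((b : ℝ) - R + ε * b)
            ≤ ρ * (2 * (b : ℝ) + 1) * ((1 + δ / 12) * ((b : ℝ) - R)) :=
              mul_le_mul_of_nonneg_left h6 hK0
          _ = _ := by ring
      have h7 : 2 * g R ≤ ρ * (2 * (b : ℝ) + 1) * (1 + δ / 12) :=
        le_of_mul_le_mul_right h5 hx0
      have h8 : ρ * (2 * (b : ℝ) + 1) ≤ ρ * (2 * k) :=
        mul_le_mul_of_nonneg_left (by linarith) hP.ρpos.le
      have h9 : ρ * (2 * (b : ℝ) + 1) * (1 + δ / 12) ≤ ρ * (2 * k) * (1 + δ / 12) :=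
        mul_le_mul_of_nonneg_right h8 (by positivity)
      linarith
    have hρk : 0 < ρ * k := mul_pos hP.ρpos hkpos
    have hfin : ((1 - δ / 4) * k + m) * (1 + δ / 12) ≤ k - 4 * L := by
      have h1 : ((1 - δ / 4) * k + m) * (1 + δ / 12)
          = (1 - δ / 6) * k - δ ^ 2 / 48 * k + m * (1 + δ / 12) := by ring
      have h2 : m * (1 + δ / 12) ≤ (m : ℝ) * 2 := mul_le_mul_of_nonneg_left (by linarith) hm0
      have h3 : 0 ≤ δ ^ 2 / 48 * (k : ℝ) := by positivity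
      have h4 : (1 - δ / 6) * (k : ℝ) = k - δ * k / 6 := by ring
      linarith
    calc ((∑ i, (Z i).card : ℕ) : ℝ) * g R
        ≤ ((1 - δ / 4) * k + m) * g R := mul_le_mul_of_nonneg_right t5 (hP.nonneg R)
      _ ≤ ((1 - δ / 4) * k + m) * (ρ * k * (1 + δ / 12)) := by
          refine mul_le_mul_of_nonneg_left hgR ?_
          have : 0 ≤ (1 - δ / 4) * (k : ℝ) := mul_nonneg (by linarith) hk0
          linarith
      _ = ρ * k * (((1 - δ / 4) * k + m) * (1 + δ / 12)) := by ring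
      _ ≤ ρ * k * (k - 4 * L) := mul_le_mul_of_nonneg_left hfin hρk.le
      _ = ρ * ((k : ℝ) ^ 2 - 4 * k * L) := by ring
      _ ≤ ∑ r ∈ range (k - L), g r := hP.tot

end Pool.Agent.Helper51.ST
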