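import Pool.Agent.Helper51.ST.FlatSmall
import Pool.Agent.Helper51.ST.FlatLarge

/-! # Project ST, module ST-17: the flat case -/

set_option autoImplicit false

namespace Pool.Agent.Helper51.ST

open Finset Pool.Agent.Helper51.BN

universe u

theorem flat_total {δ δ₁ : ℝ} (hδ : 0 < δ) (hδ' : δ ≤ 1) (hδ₁ : 0 < δ₁) (hδ₁' : δ₁ ≤ 1 / 10) :
    ∃ ε : ℝ, 0 < ε ∧ ε ≤ 1 ∧ ∃ k₀ : ℕ, ∀ {V : Type u} [Fintype V] [DecidableEq V]
      {G : SimpleGraph V} {k A L m : ℕ} {y : Fin m → RT} {P : Fin m → Finset V} {q : Fin m → V},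
      Data G k A L m y P q → ∀ {g : ℕ → ℝ} {b : ℕ} {ρ : ℝ}, Price g k L b ρ → k₀ ≤ k → k₀ ≤ A →
      ¬ NF g b (ρ * (2 * b + 1)) ε →
      ((∑ i, (y i).N ⌈(1 - 3 * δ₁) * k⌉₊ : ℕ) : ℝ) ≤ (1 - δ / 2) * k → Cheap G g k L P := by
  have hprod : 0 < δ * δ₁ := mul_pos hδ hδ₁
  have hprod' : δ * δ₁ ≤ 1 / 10 := by nlinarith
  set τ : ℝ := δ₁ / 4 with hτdef
  have hτ : 0 < τ := by positivity
  have hτ1 : τ ≤ 1 := by linarith
  set ε' : ℝ := min (τ ^ 2 / 128) (δ * δ₁ / 64) with hε'def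
  have hε' : 0 < ε' := lt_min (by positivity) (by positivity)
  have hε'1 : ε' ≤ τ ^ 2 / 128 := min_le_left _ _
  have hε'2 : ε' ≤ δ * δ₁ / 64 := min_le_right _ _
  set ε : ℝ := min (ε' / 10) (δ * δ₁ / 16) with hεdef
  have hε : 0 < ε := lt_min (by positivity) (by positivity)
  have hε1 : ε ≤ ε' / 10 := min_le_left _ _
  have hε2 : ε ≤ δ * δ₁ / 16 := min_le_right _ _
  obtain ⟨k1, h1⟩ := flat_stem.{u} hε' (by linarith) hε (by linarith : 10 * ε ≤ ε')
  obtain ⟨k2, h2⟩ := flat_small.{u} hτ hτ1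
  obtain ⟨k3, h3⟩ := flat_large.{u} hδ hδ' hδ₁ hδ₁' hε (by linarith : 16 * ε ≤ δ * δ₁)
  refine ⟨ε, hε, by linarith, max (max k1 k2) (max k3 ⌈1 / δ₁⌉₊), ?_⟩
  intro V _ _ G k A L m y P q hD g b ρ hP hk hA hNF hN
  by_contra hcheap
  have hk1 : k1 ≤ k := le_trans (le_trans (le_max_left _ _) (le_max_left _ _)) hk
  have hk2 : k2 ≤ k := le_trans (le_trans (le_max_right _ _) (le_max_left _ _)) hk
  have hk3 : k3 ≤ k := le_trans (le_trans (le_max_left _ _) (le_max_right _ _)) hk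
  have hk4 : ⌈1 / δ₁⌉₊ ≤ k := le_trans (le_trans (le_max_right _ _) (le_max_right _ _)) hk
  have hA1 : k1 ≤ A := le_trans (le_trans (le_max_left _ _) (le_max_left _ _)) hA
  have hA2 : k2 ≤ A := le_trans (le_trans (le_max_right _ _) (le_max_left _ _)) hA
  have hA3 : k3 ≤ A := le_trans (le_trans (le_max_left _ _) (le_max_right _ _)) hA
  have hs := h1 hD hP hk1 hA1 hNF hcheap
  set B : ℕ := ⌊(1 - ε') * b⌋₊ + 1 with hB
  have hb0 : (0 : ℝ) ≤ b := Nat.cast_nonneg b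
  have hk0 : (0 : ℝ) ≤ k := Nat.cast_nonneg k
  have hε'le : ε' ≤ 1 := by nlinarith
  have hpos : 0 ≤ (1 - ε') * b := mul_nonneg (by linarith) hb0
  have hBle : (B : ℝ) ≤ b + 1 := by
    rw [hB]
    push_cast
    have := Nat.floor_le hpos
    nlinarith
  have hBge : (1 - ε') * b ≤ (B : ℝ) := by
    rw [hB]
    push_cast
    exact (Nat.lt_floor_add_one _).le
  have hk2' : (0 : ℝ) ≤ (k : ℝ) ^ 2 := by positivity
  rcases lt_or_ge (b : ℝ) ((1 - τ) * k) with hb | hb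
  · apply hcheap
    refine h2 hD hP hk2 hA2 (B := B) (by omega) (by linarith) (hs.trans ?_)
    have : 4 * ε' ≤ τ ^ 2 / 32 := by linarith
    exact mul_le_mul_of_nonneg_right this hk2'
  · apply hcheap
    refine h3 hD hP hk3 hA3 hb hNF (B := B) ?_ ?_ (hs.trans ?_) hN
    · have h5 : b + 1 ≤ k := by have := hP.bk; omega
      have h6 : (B : ℝ) ≤ k := by
        have : ((b + 1 : ℕ) : ℝ) ≤ k := by exact_mod_cast h5
        push_cast at this
        linarith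
      exact_mod_cast h6
    · have h7 : 1 / δ₁ ≤ (k : ℝ) := (Nat.le_ceil _).trans (by exact_mod_cast hk4)
      have h8 : 1 ≤ δ₁ * k := by
        rw [div_le_iff₀ hδ₁] at h7
        linarith
      have h9 : (1 - ε') * ((1 - τ) * k) ≤ (1 - ε') * b :=
        mul_le_mul_of_nonneg_left hb (by linarith)
      have h10 : ε' ≤ δ₁ := by nlinarith
      have h11 : 0 ≤ (δ₁ - ε') * k := mul_nonneg (by linarith) hk0
      have h12 : 0 ≤ ε' * τ * k := by positivity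
      have h13 : τ * k = δ₁ * k / 4 := by rw [hτdef]; ring
      have h14 : 0 ≤ δ₁ * k := by positivity
      nlinarith
    · have : 4 * ε' ≤ δ * δ₁ / 16 := by linarith
      exact mul_le_mul_of_nonneg_right this hk2'

end Pool.Agent.Helper51.ST
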