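import Pool.Agent.Helper51.ST.Basic

/-! # Project ST, module ST-13: covering a piece with equal balls -/

set_option autoImplicit false

namespace Pool.Agent.Helper51.ST

open Finset Pool.Agent.Helper51.BN

variable {V : Type*} [Fintype V] [DecidableEq V] {G : SimpleGraph V}

private theorem fc_dist_step (hG : G.Connected) {r c : V} (h : G.Adj r c) (v : V) :
    G.dist r v ≤ 1 + G.dist c v := by
  have h1 := hG.dist_triangle (u := r) (v := c) (w := v)
  have h2 : G.dist r c = 1 := SimpleGraph.dist_eq_one_iff_adj.mpr h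
  omega

private theorem fc_dist_le_h (hG : G.Connected) {x : RT} {S : Finset V} {r : V}
    (H : Tr G x S r) : ∀ v ∈ S, G.dist r v ≤ x.h := by
  induction H with
  | pt r =>
    intro v hv
    rw [mem_singleton] at hv
    subst hv
    simp
  | @ext x S c r H hadj hr ih =>
    intro v hv
    rw [mem_insert] at hv
    rcases hv with rfl | hv
    · simp
    · have h1 := fc_dist_step hG hadj v
      have h2 := ih v hv
      simp only [RT.h]
      omega
  | @join x y S T r HS HT hST ihS ihT =>
    intro v hv
    rw [mem_union] at hv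
    simp only [RT.h]
    rcases hv with hv | hv
    · exact (ihS v hv).trans (le_max_left _ _)
    · exact (ihT v hv).trans (le_max_right _ _)

private theorem fc_inv0 (hG : G.Connected) {x : RT} {S : Finset V} {r : V} (H : Tr G x S r)
    {B D R : ℕ} (hB : 1 ≤ B) (h : D + B ≤ R) :
    ∃ (Z : Finset V) (y : ℕ), y ≤ D ∧ Z.card * (D + 1) + y ≤ x.s B ∧
      ∀ v ∈ S, (∃ z ∈ Z, G.dist z v ≤ R) ∨ G.dist r v ≤ y + min x.h (B - 1) := by
  induction H with
  | pt r =>
    refine ⟨∅, 0, Nat.zero_le _, by simp, ?_⟩
    intro v hv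
    rw [mem_singleton] at hv
    subst hv
    right
    simp
  | @ext x S c r H hadj hr ih =>
    obtain ⟨Z, y, hy, hs, hcov⟩ := ih
    simp only [RT.s, RT.h]
    by_cases hlt : B ≤ x.h + 1
    · rw [if_pos hlt]
      by_cases hyD : y + 1 ≤ D
      · refine ⟨Z, y + 1, hyD, by omega, ?_⟩
        intro v hv
        rw [mem_insert] at hv
        rcases hv with rfl | hv
        · right
          simp
        · rcases hcov v hv with h1 | h1
          · exact Or.inl h1
          · right
            have h2 := fc_dist_step hG hadj v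
            omega
      · have hyD' : y = D := by omega
        refine ⟨insert r Z, 0, Nat.zero_le _, ?_, ?_⟩
        · have hc := card_insert_le r Z
          have hc2 : (insert r Z).card * (D + 1) ≤ (Z.card + 1) * (D + 1) :=
            Nat.mul_le_mul_right _ hc
          have hc3 : (Z.card + 1) * (D + 1) = Z.card * (D + 1) + D + 1 := by ring
          omega
        · intro v hv
          rw [mem_insert] at hv
          rcases hv with rfl | hv
          · right
            simp
          · left
            rcases hcov v hv with h1 | h1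
            · obtain ⟨z, hz, hzv⟩ := h1
              exact ⟨z, mem_insert_of_mem hz, hzv⟩
            · refine ⟨r, mem_insert_self _ _, ?_⟩
              have h2 := fc_dist_step hG hadj v
              have h3 : min x.h (B - 1) ≤ B - 1 := min_le_right _ _
              omega
    · rw [if_neg hlt]
      refine ⟨Z, y, hy, by omega, ?_⟩
      intro v hv
      rw [mem_insert] at hv
      rcases hv with rfl | hv
      · right
        simp
      · rcases hcov v hv with h1 | h1
        · exact Or.inl h1
        · right
          have h2 := fc_dist_step hG hadj v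
          omega
  | @join x y' S T r HS HT hST ihS ihT =>
    obtain ⟨Z, y, hy, hs, hcov⟩ := ihS
    obtain ⟨Z', z', hy', hs', hcov'⟩ := ihT
    simp only [RT.s, RT.h]
    refine ⟨Z ∪ Z', max y z', max_le hy hy', ?_, ?_⟩
    · have hc := card_union_le Z Z'
      have hc2 : (Z ∪ Z').card * (D + 1) ≤ (Z.card + Z'.card) * (D + 1) :=
        Nat.mul_le_mul_right _ hc
      have hc3 : (Z.card + Z'.card) * (D + 1) = Z.card * (D + 1) + Z'.card * (D + 1) := by ring
      omega
    · intro v hv
      rw [mem_union] at hv
      rcases hv with hv | hv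
      · rcases hcov v hv with ⟨z, hz, hzv⟩ | h1
        · exact Or.inl ⟨z, mem_union_left _ hz, hzv⟩
        · right
          omega
      · rcases hcov' v hv with ⟨z, hz, hzv⟩ | h1
        · exact Or.inl ⟨z, mem_union_right _ hz, hzv⟩
        · right
          omega

theorem flat_cover₀ (hG : G.Connected) {x : RT} {S : Finset V} {r : V} (H : Tr G x S r)
    {B D R : ℕ} (hB : 1 ≤ B) (h : D + B ≤ R) :
    ∃ Z : Finset V, Z.card ≤ x.s B / (D + 1) + 1 ∧ ∀ v ∈ S, ∃ z ∈ Z, G.dist z v ≤ R := by
  obtain ⟨Z, y, hy, hs, hcov⟩ := fc_inv0 hG H hB h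
  refine ⟨insert r Z, ?_, ?_⟩
  · have hc := card_insert_le r Z
    have hq : Z.card ≤ x.s B / (D + 1) := by
      rw [Nat.le_div_iff_mul_le (by omega : 0 < D + 1)]
      omega
    omega
  · intro v hv
    rcases hcov v hv with ⟨z, hz, hzv⟩ | h1
    · exact ⟨z, mem_insert_of_mem hz, hzv⟩
    · refine ⟨r, mem_insert_self _ _, ?_⟩
      have h3 : min x.h (B - 1) ≤ B - 1 := min_le_right _ _
      omega

private theorem fc_N_le_ext {t : ℕ} (ht : 1 ≤ t) (x : RT) : x.N t ≤ (RT.ext x).N t := by
  simp only [RT.N]
  split_ifs with h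
  · have h0 : x.N t = 0 := (RT.N_eq_zero ht x).mpr (by omega)
    omega
  · exact le_rfl

private theorem fc_light (hG : G.Connected) {x : RT} {S : Finset V} {r : V} (H : Tr G x S r)
    {R R₁ : ℕ} (hR : 1 ≤ R₁) : ∀ j : ℕ, x.h ≤ R + j →
    ∃ Z : Finset V, Z.card ≤ x.N R₁ ∧
      ∀ v ∈ S, (∃ z ∈ Z, G.dist z v ≤ R) ∨ G.dist r v ≤ j + R₁ := by
  induction H with
  | pt r =>
    intro j _
    refine ⟨∅, by simp, ?_⟩
    intro v hv
    rw [mem_singleton] at hv
    subst hv
    right
    simp
  | @ext x S c r H hadj hr ih =>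
    intro j hj
    rcases Nat.eq_zero_or_pos j with rfl | hj0
    · have hall := fc_dist_le_h hG (Tr.ext r H hadj hr)
      by_cases hle : R₁ ≤ (RT.ext x).h
      · refine ⟨{r}, ?_, ?_⟩
        · rw [card_singleton]
          have hne : (RT.ext x).N R₁ ≠ 0 := by
            intro h0
            rw [RT.N_eq_zero hR] at h0
            omega
          omega
        · intro v hv
          left
          refine ⟨r, mem_singleton_self _, ?_⟩
          have := hall v hv
          omega
      · refine ⟨∅, by simp, ?_⟩
        intro v hv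
        right
        have := hall v hv
        omega
    · simp only [RT.h] at hj
      obtain ⟨Z, hZ, hcov⟩ := ih (j - 1) (by omega)
      refine ⟨Z, hZ.trans (fc_N_le_ext hR x), ?_⟩
      intro v hv
      rw [mem_insert] at hv
      rcases hv with rfl | hv
      · right
        simp
      · rcases hcov v hv with h1 | h1
        · exact Or.inl h1
        · right
          have h2 := fc_dist_step hG hadj v
          omega
  | @join x y S T r HS HT hST ihS ihT =>
    intro j hj
    simp only [RT.h] at hj
    obtain ⟨Z, hZ, hcov⟩ := ihS j (by omega)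
    obtain ⟨Z', hZ', hcov'⟩ := ihT j (by omega)
    refine ⟨Z ∪ Z', ?_, ?_⟩
    · have hc := card_union_le Z Z'
      simp only [RT.N]
      omega
    · intro v hv
      rw [mem_union] at hv
      rcases hv with hv | hv
      · rcases hcov v hv with ⟨z, hz, hzv⟩ | h1
        · exact Or.inl ⟨z, mem_union_left _ hz, hzv⟩
        · exact Or.inr h1
      · rcases hcov' v hv with ⟨z, hz, hzv⟩ | h1
        · exact Or.inl ⟨z, mem_union_right _ hz, hzv⟩
        · exact Or.inr h1

private theorem fc_heavy (hG : G.Connected) {x : RT} {S : Finset V} {r : V} (H : Tr G x S r)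
    {B D R R₁ d : ℕ} (hR : 1 ≤ R₁) (h1 : B ≤ d + R) (h2 : D + d + 1 + R₁ ≤ R) :
    ∃ (Z₁ Z₂ : Finset V) (y : ℕ), Z₁.card ≤ x.N R₁ ∧ Z₂.card * (D + 1) + y ≤ x.s B ∧ y ≤ D ∧
      ∀ v ∈ S, (∃ z ∈ Z₁ ∪ Z₂, G.dist z v ≤ R) ∨ G.dist r v ≤ y + d + R₁ := by
  induction H with
  | pt r =>
    refine ⟨∅, ∅, 0, by simp, by simp, Nat.zero_le _, ?_⟩
    intro v hv
    rw [mem_singleton] at hv
    subst hv
    right
    simp
  | @ext x S c r H hadj hr ih =>
    by_cases hlt : B ≤ x.h + 1
    · obtain ⟨Z₁, Z₂, y, hN, hs, hy, hcov⟩ := ih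
      have hN' := hN.trans (fc_N_le_ext hR x)
      have hsx : (RT.ext x).s B = x.s B + 1 := by
        simp only [RT.s]
        rw [if_pos hlt]
      by_cases hyD : y + 1 ≤ D
      · refine ⟨Z₁, Z₂, y + 1, hN', by omega, hyD, ?_⟩
        intro v hv
        rw [mem_insert] at hv
        rcases hv with rfl | hv
        · right
          simp
        · rcases hcov v hv with h3 | h3
          · exact Or.inl h3
          · right
            have h4 := fc_dist_step hG hadj v
            omega
      · have hyD' : y = D := by omega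
        refine ⟨Z₁, insert r Z₂, 0, hN', ?_, Nat.zero_le _, ?_⟩
        · have hc := card_insert_le r Z₂
          have hc2 : (insert r Z₂).card * (D + 1) ≤ (Z₂.card + 1) * (D + 1) :=
            Nat.mul_le_mul_right _ hc
          have hc3 : (Z₂.card + 1) * (D + 1) = Z₂.card * (D + 1) + D + 1 := by ring
          omega
        · intro v hv
          rw [mem_insert] at hv
          rcases hv with rfl | hv
          · right
            simp
          · left
            rcases hcov v hv with h3 | h3
            · obtain ⟨z, hz, hzv⟩ := h3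
              refine ⟨z, ?_, hzv⟩
              rw [mem_union] at hz ⊢
              rcases hz with hz | hz
              · exact Or.inl hz
              · exact Or.inr (mem_insert_of_mem hz)
            · refine ⟨r, mem_union_right _ (mem_insert_self _ _), ?_⟩
              have h4 := fc_dist_step hG hadj v
              omega
    · have hh : (RT.ext x).h ≤ R + d := by
        simp only [RT.h]
        omega
      obtain ⟨Z, hZ, hcov⟩ := fc_light hG (Tr.ext r H hadj hr) hR d hh
      refine ⟨Z, ∅, 0, hZ, by simp, Nat.zero_le _, ?_⟩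
      intro v hv
      rcases hcov v hv with ⟨z, hz, hzv⟩ | h3
      · exact Or.inl ⟨z, mem_union_left _ hz, hzv⟩
      · right
        omega
  | @join x y' S T r HS HT hST ihS ihT =>
    obtain ⟨Z₁, Z₂, y, hN, hs, hy, hcov⟩ := ihS
    obtain ⟨W₁, W₂, y'', hN', hs', hy', hcov'⟩ := ihT
    refine ⟨Z₁ ∪ W₁, Z₂ ∪ W₂, max y y'', ?_, ?_, max_le hy hy', ?_⟩
    · have hc := card_union_le Z₁ W₁
      simp only [RT.N]
      omega
    · have hc := card_union_le Z₂ W₂
      have hc2 : (Z₂ ∪ W₂).card * (D + 1) ≤ (Z₂.card + W₂.card) * (D + 1) :=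
        Nat.mul_le_mul_right _ hc
      have hc3 : (Z₂.card + W₂.card) * (D + 1) = Z₂.card * (D + 1) + W₂.card * (D + 1) := by
        ring
      simp only [RT.s]
      omega
    · intro v hv
      rw [mem_union] at hv
      rcases hv with hv | hv
      · rcases hcov v hv with ⟨z, hz, hzv⟩ | h3
        · refine Or.inl ⟨z, ?_, hzv⟩
          rw [mem_union] at hz
          rcases hz with hz | hz
          · exact mem_union_left _ (mem_union_left _ hz)
          · exact mem_union_right _ (mem_union_left _ hz)
        · right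
          omega
      · rcases hcov' v hv with ⟨z, hz, hzv⟩ | h3
        · refine Or.inl ⟨z, ?_, hzv⟩
          rw [mem_union] at hz
          rcases hz with hz | hz
          · exact mem_union_left _ (mem_union_right _ hz)
          · exact mem_union_right _ (mem_union_right _ hz)
        · right
          omega

theorem flat_cover (hG : G.Connected) {x : RT} {S : Finset V} {r : V} (H : Tr G x S r)
    {B D R R₁ d : ℕ} (hR : 1 ≤ R₁) (hB : R₁ ≤ B) (h1 : B ≤ d + R) (h2 : D + d + 1 + R₁ ≤ R) :
    ∃ Z : Finset V, Z.card ≤ x.N R₁ + x.s B / (D + 1) + 1 ∧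
      ∀ v ∈ S, ∃ z ∈ Z, G.dist z v ≤ R := by
  obtain ⟨Z₁, Z₂, y, hN, hs, hy, hcov⟩ := fc_heavy hG H hR h1 h2
  refine ⟨insert r (Z₁ ∪ Z₂), ?_, ?_⟩
  · have hc := card_insert_le r (Z₁ ∪ Z₂)
    have hc2 := card_union_le Z₁ Z₂
    have hq : Z₂.card ≤ x.s B / (D + 1) := by
      rw [Nat.le_div_iff_mul_le (by omega : 0 < D + 1)]
      omega
    omega
  · intro v hv
    rcases hcov v hv with ⟨z, hz, hzv⟩ | h3
    · exact ⟨z, mem_insert_of_mem hz, hzv⟩
    · refine ⟨r, mem_insert_self _ _, ?_⟩
      omega

end Pool.Agent.Helper51.ST
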