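import Pool.Agent.Helper51.ST.FlatCover
import Pool.Agent.Helper51.ST.Data

/-! # Project ST, module ST-17b: the flat case with a small scale -/

set_option autoImplicit false

namespace Pool.Agent.Helper51.ST

open Finset Pool.Agent.Helper51.BN

universe u

theorem flat_small {τ : ℝ} (hτ : 0 < τ) (hτ1 : τ ≤ 1) :
    ∃ k₀ : ℕ, ∀ {V : Type u} [Fintype V] [DecidableEq V] {G : SimpleGraph V} {k A L m : ℕ}
      {y : Fin m → RT} {P : Fin m → Finset V} {q : Fin m → V}, Data G k A L m y P q →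
      ∀ {g : ℕ → ℝ} {b : ℕ} {ρ : ℝ}, Price g k L b ρ → k₀ ≤ k → k₀ ≤ A →
      ∀ {B : ℕ}, 1 ≤ B → (B : ℝ) ≤ (1 - τ) * k + 1 →
      ((∑ i, (y i).s B : ℕ) : ℝ) ≤ τ ^ 2 / 32 * (k : ℝ) ^ 2 → Cheap G g k L P := by
  refine ⟨⌈64 / τ ^ 2⌉₊, ?_⟩
  intro V _ _ G k A L m y P q hD g b ρ hp hk hA B hB hB1 hs
  have hτ2 : 0 < τ ^ 2 := by positivity
  have hk' : 64 / τ ^ 2 ≤ (k : ℝ) := (Nat.le_ceil _).trans (by exact_mod_cast hk)
  have hA' : 64 / τ ^ 2 ≤ (A : ℝ) := (Nat.le_ceil _).trans (by exact_mod_cast hA)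
  have hk2 : 64 ≤ τ ^ 2 * k := by rwa [div_le_iff₀' hτ2] at hk'
  have hA2 : 64 ≤ τ ^ 2 * A := by rwa [div_le_iff₀' hτ2] at hA'
  have hτsq : τ ^ 2 ≤ τ := by nlinarith
  have hk0 : (0 : ℝ) ≤ k := Nat.cast_nonneg k
  have hA0 : (0 : ℝ) ≤ A := Nat.cast_nonneg A
  have hk1 : 64 ≤ τ * k := hk2.trans (mul_le_mul_of_nonneg_right hτsq hk0)
  have hA1 : 64 ≤ τ * A := hA2.trans (mul_le_mul_of_nonneg_right hτsq hA0)
  -- the number `L` is small
  have hL : (L : ℝ) ≤ τ * k / 8 := by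
    by_contra hc
    push Not at hc
    have h1 : L ^ 2 ≤ k := (Nat.pow_le_pow_right (by have := hD.L2; omega) (by norm_num)).trans
      hD.L4
    have h2 : (L : ℝ) ^ 2 ≤ k := by exact_mod_cast h1
    have h3 : (τ * k / 8) ^ 2 < (L : ℝ) ^ 2 := by
      apply pow_lt_pow_left₀ hc (by positivity) (by norm_num)
    nlinarith
  obtain ⟨D, hDdef⟩ : ∃ D : ℕ, D = ⌊τ * k / 4⌋₊ := ⟨_, rfl⟩
  have hD1 : (D : ℝ) ≤ τ * k / 4 := by rw [hDdef]; exact Nat.floor_le (by positivity)
  have hD2 : τ * k / 4 < D + 1 := by rw [hDdef]; exact Nat.lt_floor_add_one _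
  have hR : (B : ℝ) + D + τ * k / 2 ≤ (k : ℝ) - L := by nlinarith
  have hR' : B + D + L < k := by
    have : (B : ℝ) + D + L < k := by linarith
    exact_mod_cast this
  have hcov := fun i => flat_cover₀ hD.conn (hD.tr i) (B := B) (D := D) (R := B + D) hB
    (by omega)
  choose Z hZ1 hZ2 using hcov
  refine ⟨fun i => Z i ×ˢ {B + D}, ?_, ?_, ?_⟩
  · intro i p hp'
    have : p.2 = B + D := by
      have := (Finset.mem_product.1 hp').2
      simpa using this
    rw [this]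
    omega
  · intro i v hv
    obtain ⟨z, hz, hd⟩ := hZ2 i v hv
    exact ⟨(z, B + D), by simp [hz], hd⟩
  · have hcost : ∀ i, cost g (Z i ×ˢ ({B + D} : Finset ℕ)) = (Z i).card * g (B + D) := by
      intro i
      unfold cost
      rw [Finset.sum_product]
      simp
    have hg : 0 ≤ g (B + D) := hp.nonneg _
    have hZsum : ((∑ i, (Z i).card : ℕ) : ℝ) ≤ τ * k / 4 := by
      have h1 : ∀ i, ((Z i).card : ℝ) ≤ ((y i).s B : ℝ) / (D + 1) + 1 := by
        intro i
        have h2 : ((Z i).card : ℝ) ≤ (((y i).s B / (D + 1) + 1 : ℕ) : ℝ) := by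
          exact_mod_cast hZ1 i
        have h3 : (((y i).s B / (D + 1) : ℕ) : ℝ) ≤ ((y i).s B : ℝ) / ((D + 1 : ℕ) : ℝ) :=
          Nat.cast_div_le
        push_cast at h2 h3
        linarith
      have h4 : ((∑ i, (Z i).card : ℕ) : ℝ) ≤ ((∑ i, (y i).s B : ℕ) : ℝ) / (D + 1) + m := by
        push_cast
        calc ∑ i, ((Z i).card : ℝ) ≤ ∑ i, (((y i).s B : ℝ) / (D + 1) + 1) :=
              Finset.sum_le_sum fun i _ => h1 i
          _ = (∑ i, ((y i).s B : ℝ)) / (D + 1) + m := by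
              rw [Finset.sum_add_distrib, Finset.sum_div]
              simp
      have h5 : ((∑ i, (y i).s B : ℕ) : ℝ) / (D + 1) ≤ τ * k / 8 := by
        rw [div_le_iff₀ (by positivity)]
        have : τ ^ 2 / 32 * (k : ℝ) ^ 2 ≤ τ * k / 8 * (D + 1) := by
          have h6 : τ * k / 8 * (τ * k / 4) ≤ τ * k / 8 * (D + 1) :=
            mul_le_mul_of_nonneg_left hD2.le (by positivity)
          calc τ ^ 2 / 32 * (k : ℝ) ^ 2 = τ * k / 8 * (τ * k / 4) := by ring
            _ ≤ _ := h6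
        linarith
      have h7 : (m : ℝ) ≤ τ * k / 8 := by
        have h8 : (8 : ℝ) * A * m ≤ k := by exact_mod_cast hD.cnt
        have hm0 : (0 : ℝ) ≤ m := Nat.cast_nonneg m
        have h9 : τ * (8 * A * m) ≤ τ * k := mul_le_mul_of_nonneg_left h8 hτ.le
        have h10 : 64 * m ≤ τ * A * m := mul_le_mul_of_nonneg_right hA1 hm0
        nlinarith
      linarith
    have hS : τ * k / 2 * g (B + D) ≤ ∑ r ∈ range (k - L), g r := by
      have h1 : ∑ r ∈ Finset.Ico (B + D) (k - L), g r ≤ ∑ r ∈ range (k - L), g r := by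
        apply Finset.sum_le_sum_of_subset_of_nonneg
        · intro r hr
          rw [Finset.mem_Ico] at hr
          exact Finset.mem_range.2 hr.2
        · intro r _ _
          exact hp.nonneg r
      have h2 : ((Finset.Ico (B + D) (k - L)).card : ℝ) * g (B + D)
          ≤ ∑ r ∈ Finset.Ico (B + D) (k - L), g r := by
        rw [← nsmul_eq_mul]
        apply Finset.card_nsmul_le_sum
        intro r hr
        exact hp.mono (Finset.mem_Ico.1 hr).1
      have h3 : τ * k / 2 ≤ ((Finset.Ico (B + D) (k - L)).card : ℝ) := by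
        rw [Nat.card_Ico, Nat.cast_sub (by omega), Nat.cast_sub (by omega)]
        push_cast
        linarith
      calc τ * k / 2 * g (B + D) ≤ ((Finset.Ico (B + D) (k - L)).card : ℝ) * g (B + D) :=
            mul_le_mul_of_nonneg_right h3 hg
        _ ≤ _ := h2.trans h1
    calc ∑ i, cost g (Z i ×ˢ ({B + D} : Finset ℕ)) = ((∑ i, (Z i).card : ℕ) : ℝ) * g (B + D) := by
          push_cast
          rw [Finset.sum_mul]
          exact Finset.sum_congr rfl fun i _ => hcost i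
      _ ≤ τ * k / 4 * g (B + D) := mul_le_mul_of_nonneg_right hZsum hg
      _ ≤ τ * k / 2 * g (B + D) := by
          apply mul_le_mul_of_nonneg_right _ hg
          nlinarith
      _ ≤ _ := hS

end Pool.Agent.Helper51.ST
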