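import Pool.Agent.Helper51.ST.Defs

/-! # Project ST, module ST-6a: the least cost `P g b y` of covering a path of `y` vertices -/

set_option autoImplicit false

namespace Pool.Agent.Helper51.ST

open Finset Pool.Agent.Helper51.BN

theorem P_nonneg {g : ℕ → ℝ} (hg : ∀ i, 0 ≤ g i) (b y : ℕ) : 0 ≤ P g b y := by
  refine Real.sInf_nonneg ?_
  rintro _ ⟨l, _, _, rfl⟩
  refine List.sum_nonneg fun x hx => ?_
  obtain ⟨r, _, rfl⟩ := List.mem_map.1 hx
  exact hg r

theorem P_le {g : ℕ → ℝ} (hg : ∀ i, 0 ≤ g i) {b y : ℕ} {l : List ℕ} (hl : ∀ r ∈ l, r ≤ b)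
    (hy : y ≤ (l.map fun r => 2 * r + 1).sum) : P g b y ≤ (l.map g).sum := by
  refine csInf_le ⟨0, ?_⟩ ⟨l, hl, hy, rfl⟩
  rintro _ ⟨l, _, _, rfl⟩
  refine List.sum_nonneg fun x hx => ?_
  obtain ⟨r, _, rfl⟩ := List.mem_map.1 hx
  exact hg r

private theorem shrink {g : ℕ → ℝ} (hg : ∀ i, 0 ≤ g i) (b y : ℕ) (l : List ℕ)
    (hl : ∀ r ∈ l, r ≤ b) (hy : y ≤ (l.map fun r => 2 * r + 1).sum) :
    ∃ l' : List ℕ, (∀ r ∈ l', r ≤ b) ∧ y ≤ (l'.map fun r => 2 * r + 1).sum ∧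
      (l'.map g).sum ≤ (l.map g).sum ∧ (l'.map fun r => 2 * r + 1).sum ≤ y + 2 * b := by
  induction l with
  | nil => exact ⟨[], by simp, hy, le_rfl, by simp⟩
  | cons r t ih =>
    by_cases h1 : ((r :: t).map fun r => 2 * r + 1).sum ≤ y + 2 * b
    · exact ⟨r :: t, hl, hy, le_rfl, h1⟩
    · have h2 : r ≤ b := hl r List.mem_cons_self
      rw [List.map_cons, List.sum_cons] at h1
      obtain ⟨l', h3, h4, h5, h6⟩ := ih (fun q hq => hl q (List.mem_cons_of_mem _ hq)) (by omega)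
      refine ⟨l', h3, h4, h5.trans ?_, h6⟩
      rw [List.map_cons, List.sum_cons]
      linarith [hg r]

private theorem fin_lists (b n : ℕ) :
    {l : List ℕ | (∀ r ∈ l, r ≤ b) ∧ l.length ≤ n}.Finite := by
  refine ((List.finite_length_le (Fin (b + 1)) n).image (List.map Fin.val)).subset ?_
  rintro l ⟨h1, h2⟩
  refine ⟨l.map fun r => ⟨min r b, by omega⟩, by simpa using h2, ?_⟩
  rw [List.map_map]
  conv_rhs => rw [← List.map_id l]
  refine List.map_congr_left fun r hr => ?_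
  simp [h1 r hr]

private theorem length_le_sum (l : List ℕ) : l.length ≤ (l.map fun r => 2 * r + 1).sum := by
  induction l with
  | nil => simp
  | cons r t ih =>
    rw [List.map_cons, List.sum_cons, List.length_cons]
    omega

/-- An optimal list without superfluous radii. -/
theorem exists_P {g : ℕ → ℝ} (hg : ∀ i, 0 ≤ g i) (b y : ℕ) :
    ∃ l : List ℕ, (∀ r ∈ l, r ≤ b) ∧ y ≤ (l.map fun r => 2 * r + 1).sum ∧
      (l.map g).sum = P g b y ∧ (l.map fun r => 2 * r + 1).sum ≤ y + 2 * b := by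
  have hfin : {l : List ℕ | (∀ r ∈ l, r ≤ b) ∧ y ≤ (l.map fun r => 2 * r + 1).sum ∧
      (l.map fun r => 2 * r + 1).sum ≤ y + 2 * b}.Finite := by
    refine (fin_lists b (y + 2 * b)).subset ?_
    rintro l ⟨h1, _, h3⟩
    exact ⟨h1, (length_le_sum l).trans h3⟩
  have hadm : (∀ r ∈ List.replicate y 0, r ≤ b) ∧
      y ≤ ((List.replicate y 0).map fun r => 2 * r + 1).sum := by
    constructor
    · intro r hr
      rw [(List.mem_replicate.1 hr).2]
      exact Nat.zero_le _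
    · simp
  obtain ⟨l₁, h1, h2, _, h4⟩ := shrink hg b y _ hadm.1 hadm.2
  obtain ⟨l₀, ⟨h5, h6, h7⟩, h8⟩ := Set.exists_min_image _ (fun l : List ℕ => (l.map g).sum) hfin
    ⟨l₁, h1, h2, h4⟩
  refine ⟨l₀, h5, h6, le_antisymm ?_ (P_le hg h5 h6), h7⟩
  refine le_csInf ⟨_, _, hadm.1, hadm.2, rfl⟩ ?_
  rintro _ ⟨l, h9, h10, rfl⟩
  obtain ⟨l', h11, h12, h13, h14⟩ := shrink hg b y l h9 h10
  exact (h8 l' ⟨h11, h12, h14⟩).trans h13

theorem P_zero {g : ℕ → ℝ} (hg : ∀ i, 0 ≤ g i) (b : ℕ) : P g b 0 = 0 := by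
  refine le_antisymm ?_ (P_nonneg hg b 0)
  have := P_le hg (b := b) (y := 0) (l := []) (by simp) (by simp)
  simpa using this

theorem P_mono {g : ℕ → ℝ} (hg : ∀ i, 0 ≤ g i) (b : ℕ) {y z : ℕ} (h : y ≤ z) :
    P g b y ≤ P g b z := by
  obtain ⟨l, h1, h2, h3, _⟩ := exists_P hg b z
  rw [← h3]
  exact P_le hg h1 (h.trans h2)

theorem P_one {g : ℕ → ℝ} (hg : ∀ i, 0 ≤ g i) {b r y : ℕ} (hr : r ≤ b) (hy : y ≤ 2 * r + 1) :
    P g b y ≤ g r := by
  have := P_le hg (b := b) (y := y) (l := [r]) (by simpa using hr) (by simpa using hy)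
  simpa using this

theorem P_add {g : ℕ → ℝ} (hg : ∀ i, 0 ≤ g i) {b r : ℕ} (hr : r ≤ b) (y : ℕ) :
    P g b (y + (2 * r + 1)) ≤ P g b y + g r := by
  obtain ⟨l, h1, h2, h3, _⟩ := exists_P hg b y
  have := P_le hg (b := b) (y := y + (2 * r + 1)) (l := r :: l)
    (by
      intro q hq
      rcases List.mem_cons.1 hq with rfl | hq
      · exact hr
      · exact h1 q hq)
    (by
      rw [List.map_cons, List.sum_cons]
      omega)
  rw [List.map_cons, List.sum_cons, h3] at this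
  linarith

/-- Equal balls. -/
theorem P_flat {g : ℕ → ℝ} (hg : ∀ i, 0 ≤ g i) {b β : ℕ} (hβ : β ≤ b) (y : ℕ) :
    P g b y ≤ ((y + 2 * β) / (2 * β + 1) : ℕ) * g β := by
  have := P_le hg (b := b) (y := y) (l := List.replicate ((y + 2 * β) / (2 * β + 1)) β)
    (by
      intro q hq
      rw [(List.mem_replicate.1 hq).2]
      exact hβ)
    (by
      rw [List.map_replicate, List.sum_replicate, smul_eq_mul]
      have h1 := Nat.div_add_mod (y + 2 * β) (2 * β + 1)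
      have h2 := Nat.mod_lt (y + 2 * β) (show 0 < 2 * β + 1 by omega)
      rw [mul_comm] at h1
      omega)
  rw [List.map_replicate, List.sum_replicate, nsmul_eq_mul] at this
  exact this

end Pool.Agent.Helper51.ST
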