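import Pool.Agent.Helper51.ST.Basic
import Pool.Agent.Helper51.ST.PathBasic

/-! # Project ST, module ST-7a: a path with short hair -/

set_option autoImplicit false

namespace Pool.Agent.Helper51.ST

open Finset Pool.Agent.Helper51.BN

variable {V : Type*} [Fintype V] [DecidableEq V] {G : SimpleGraph V}

/-- The longest path from the root: every vertex is near to it. -/
private theorem exists_spine (hG : G.Connected) {x : RT} {S : Finset V} {r : V}
    (H : Tr G x S r) :
    ∃ v : ℕ → V, v 0 = r ∧ (∀ i < x.h, G.Adj (v i) (v (i + 1))) ∧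
      ∀ u ∈ S, ∃ a ≤ x.h, G.dist (v a) u ≤ x.e - x.h := by
  induction H with
  | pt r =>
    refine ⟨fun _ => r, rfl, ?_, ?_⟩
    · intro i hi
      simp only [RT.h] at hi
      omega
    · intro u hu
      rw [Finset.mem_singleton] at hu
      subst hu
      exact ⟨0, Nat.zero_le _, by rw [SimpleGraph.dist_self]; exact Nat.zero_le _⟩
  | @ext x S c r H hadj hr ih =>
    obtain ⟨v, hv0, hv1, hv2⟩ := ih
    refine ⟨fun i => if i = 0 then r else v (i - 1), by simp, ?_, ?_⟩
    · intro i hi
      simp only [RT.h] at hi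
      by_cases h0 : i = 0
      · subst h0
        simp only [if_true, zero_add, one_ne_zero, if_false, Nat.sub_self]
        rw [hv0]
        exact hadj
      · have h1 := hv1 (i - 1) (by omega)
        have h2 : i - 1 + 1 = i := by omega
        rw [h2] at h1
        simp only [h0, if_false, Nat.add_eq_zero_iff, one_ne_zero, and_false,
          Nat.add_sub_cancel]
        exact h1
    · intro u hu
      rw [Finset.mem_insert] at hu
      rcases hu with rfl | hu
      · exact ⟨0, Nat.zero_le _, by simp⟩
      · obtain ⟨a, ha, hd⟩ := hv2 u hu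
        refine ⟨a + 1, by simp only [RT.h]; omega, ?_⟩
        simp only [Nat.add_eq_zero_iff, one_ne_zero, and_false, if_false, Nat.add_sub_cancel,
          RT.h, RT.e]
        omega
  | @join x y S T r H1 H2 hST ih1 ih2 =>
    obtain ⟨v, hv0, hv1, hv2⟩ := ih1
    obtain ⟨w, hw0, hw1, hw2⟩ := ih2
    have hx := RT.h_le x
    have hy := RT.h_le y
    rcases le_total y.h x.h with hle | hle
    · refine ⟨v, hv0, ?_, ?_⟩
      · intro i hi
        exact hv1 i (by simp only [RT.h] at hi; omega)
      · intro u hu
        rw [Finset.mem_union] at hu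
        rcases hu with hu | hu
        · obtain ⟨a, ha, hd⟩ := hv2 u hu
          exact ⟨a, by simp only [RT.h]; omega, by simp only [RT.h, RT.e]; omega⟩
        · refine ⟨0, Nat.zero_le _, ?_⟩
          have := H2.built.dist_le hG u hu
          rw [hv0]
          simp only [RT.h, RT.e]
          omega
    · refine ⟨w, hw0, ?_, ?_⟩
      · intro i hi
        exact hw1 i (by simp only [RT.h] at hi; omega)
      · intro u hu
        rw [Finset.mem_union] at hu
        rcases hu with hu | hu
        · refine ⟨0, Nat.zero_le _, ?_⟩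
          have := H1.built.dist_le hG u hu
          rw [hw0]
          simp only [RT.h, RT.e]
          omega
        · obtain ⟨a, ha, hd⟩ := hw2 u hu
          exact ⟨a, by simp only [RT.h]; omega, by simp only [RT.h, RT.e]; omega⟩

/-- Distances on the spine. -/
private theorem spine_dist (hG : G.Connected) {v : ℕ → V} {h : ℕ}
    (hv : ∀ i < h, G.Adj (v i) (v (i + 1))) {a : ℕ} (d : ℕ) (hd : a + d ≤ h) :
    G.dist (v a) (v (a + d)) ≤ d := by
  induction d with
  | zero => simp
  | succ d ih =>
    have h1 := ih (by omega)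
    have h2 := hG.dist_triangle (u := v a) (v := v (a + d)) (w := v (a + (d + 1)))
    have h3 : G.dist (v (a + d)) (v (a + (d + 1))) = 1 :=
      SimpleGraph.dist_eq_one_iff_adj.mpr (hv (a + d) (by omega))
    omega

private theorem spine_dist' (hG : G.Connected) {v : ℕ → V} {h : ℕ}
    (hv : ∀ i < h, G.Adj (v i) (v (i + 1))) {a c R : ℕ} (ha : a ≤ h) (hc : c ≤ h)
    (h1 : a ≤ c + R) (h2 : c ≤ a + R) : G.dist (v c) (v a) ≤ R := by
  rcases le_total a c with hle | hle
  · have := spine_dist hG hv (a := a) (c - a) (by omega)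
    rw [show a + (c - a) = c by omega] at this
    rw [SimpleGraph.dist_comm]
    omega
  · have := spine_dist hG hv (a := c) (a - c) (by omega)
    rw [show c + (a - c) = a by omega] at this
    omega

/-- The intervals of a list, placed on the spine one after the other from the position `a` on. -/
private theorem exists_place {g : ℕ → ℝ} (hg : ∀ i, 0 ≤ g i) (v : ℕ → V) (h b q : ℕ)
    (hq : q ≤ b) (l : List ℕ) :
    ∀ (a : ℕ), (∀ r ∈ l, r ≤ b - q) → ∃ C : Finset (V × ℕ), (∀ p ∈ C, p.2 ≤ b) ∧
      cost g C ≤ (l.map fun r => g (r + q)).sum ∧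
      ∀ t, a ≤ t → t ≤ h → t < a + (l.map fun r => 2 * r + 1).sum →
        ∃ p ∈ C, ∃ c ≤ h, ∃ r, p.1 = v c ∧ p.2 = r + q ∧ t ≤ c + r ∧ c ≤ t + r := by
  induction l with
  | nil =>
    intro a _
    refine ⟨∅, by simp, by simp [cost], ?_⟩
    intro t h1 _ h3
    simp only [List.map_nil, List.sum_nil] at h3
    omega
  | cons r l ih =>
    intro a hl
    obtain ⟨C, hC1, hC2, hC3⟩ := ih (a + (2 * r + 1)) fun s hs => hl s (List.mem_cons_of_mem _ hs)
    have hr : r ≤ b - q := hl r List.mem_cons_self
    refine ⟨insert (v (min (a + r) h), r + q) C, ?_, ?_, ?_⟩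
    · intro p hp
      rw [Finset.mem_insert] at hp
      rcases hp with rfl | hp
      · change r + q ≤ b
        omega
      · exact hC1 p hp
    · rw [List.map_cons, List.sum_cons]
      unfold cost at hC2 ⊢
      by_cases hm : (v (min (a + r) h), r + q) ∈ C
      · rw [Finset.insert_eq_of_mem hm]
        have := hg (r + q)
        linarith
      · rw [Finset.sum_insert hm]
        linarith
    · intro t h1 h2 h3
      rw [List.map_cons, List.sum_cons] at h3
      by_cases ht : t < a + (2 * r + 1)
      · refine ⟨_, Finset.mem_insert_self _ _, min (a + r) h, min_le_right _ _, r, rfl, rfl,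
          ?_, ?_⟩
        · omega
        · omega
      · obtain ⟨p, hp, hp'⟩ := hC3 t (by omega) h2 (by omega)
        exact ⟨p, Finset.mem_insert_of_mem hp, hp'⟩

theorem hair (hG : G.Connected) {g : ℕ → ℝ} (hg : ∀ i, 0 ≤ g i) {b : ℕ} {x : RT}
    {S : Finset V} {r : V} (H : Tr G x S r) {p : ℕ} (hw : x.e ≤ x.h + p) (hb : 2 * p + 1 ≤ b)
    (i : ℕ) :
    F G g b S r (-(i : ℤ) - 1) ≤ P (fun j => g (j + (2 * p + 1))) (b - (2 * p + 1)) (x.h - i) := by
  have hg' : ∀ j, 0 ≤ (fun j => g (j + (2 * p + 1))) j := fun j => hg _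
  have hdist : ∀ u ∈ S, G.dist r u ≤ x.h := H.built.dist_le hG
  by_cases hi : x.h ≤ i
  · rw [F_zero hg hdist (by omega)]
    exact P_nonneg hg' _ _
  · obtain ⟨l, hl1, hl2, hl3, -⟩ := exists_P hg' (b - (2 * p + 1)) (x.h - i)
    rw [← hl3]
    obtain ⟨v, hv0, hv1, hv2⟩ := exists_spine hG H
    obtain ⟨C, hC1, hC2, hC3⟩ := exists_place hg v x.h b (2 * p + 1) hb l (i + 1) hl1
    refine (F_le hg hC1 ⟨?_, fun h0 => ?_⟩).trans hC2
    · intro u hu
      by_cases hd : G.dist r u ≤ i
      · right
        omega
      · left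
        obtain ⟨a, ha, had⟩ := hv2 u hu
        have hra := hG.dist_triangle (u := r) (v := v a) (w := u)
        have hva : G.dist (v 0) (v a) ≤ a := by
          have := spine_dist hG hv1 (a := 0) a (by omega)
          rwa [zero_add] at this
        rw [hv0] at hva
        by_cases hai : i + 1 ≤ a
        · obtain ⟨pt, hpt, c, hc, ρ, e1, e2, e3, e4⟩ := hC3 a hai ha (by omega)
          refine ⟨pt, hpt, ?_⟩
          rw [e1, e2]
          have h1 := hG.dist_triangle (u := v c) (v := v a) (w := u)
          have h2 := spine_dist' hG hv1 (a := a) (c := c) (R := ρ) ha hc e3 e4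
          omega
        · obtain ⟨pt, hpt, c, hc, ρ, e1, e2, e3, e4⟩ := hC3 (i + 1) le_rfl (by omega) (by omega)
          refine ⟨pt, hpt, ?_⟩
          rw [e1, e2]
          have h1 := hG.dist_triangle (u := v c) (v := v a) (w := u)
          have h2 := spine_dist' hG hv1 (a := a) (c := c) (R := ρ + p) ha hc (by omega) (by omega)
          omega
    · omega

end Pool.Agent.Helper51.ST
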