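import Pool.Agent.Helper51.ST.Basic
import Pool.Agent.Helper51.ST.XM

/-! # Project ST, module ST-5: trees with one long path -/

set_option autoImplicit false

namespace Pool.Agent.Helper51.ST

open Finset Pool.Agent.Helper51.BN

variable {V : Type*} [Fintype V] [DecidableEq V] {G : SimpleGraph V}

private theorem N_of_ext {t : ℕ} (ht : 1 ≤ t) {x : RT} (h : (RT.ext x).N t ≤ 1) : x.N t ≤ 1 := by
  by_cases h1 : x.h + 1 = t
  · have h2 : x.N t = 0 := (RT.N_eq_zero ht x).2 (by omega)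
    omega
  · have h2 : (RT.ext x).N t = x.N t := by
      simp only [RT.N, if_neg h1]
    rw [h2] at h
    exact h

private theorem N_of_join {t : ℕ} (ht : 1 ≤ t) {x y : RT} (h : (RT.join x y).N t ≤ 1) :
    x.N t ≤ 1 ∧ y.N t ≤ 1 ∧ min x.h y.h < t := by
  have h2 : (RT.join x y).N t = x.N t + y.N t := rfl
  rw [h2] at h
  refine ⟨by omega, by omega, ?_⟩
  by_contra hcon
  rw [not_lt, le_min_iff] at hcon
  have h3 : x.N t ≠ 0 := fun h4 => absurd ((RT.N_eq_zero ht x).1 h4) (not_lt.2 hcon.1)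
  have h5 : y.N t ≠ 0 := fun h4 => absurd ((RT.N_eq_zero ht y).1 h4) (not_lt.2 hcon.2)
  omega

private theorem w_join {t : ℕ} {x y : RT} (h : min x.h y.h < t) :
    (RT.join x y).w t = x.w t + y.w t + min x.h y.h := by
  simp only [RT.w, if_pos h]

theorem single_light (hG : G.Connected) {g : ℕ → ℝ} {b t : ℕ} {K κ : ℝ} (hg : CF g b K)
    (hκ : 0 ≤ κ) (hκ1 : κ ≤ 1) (ht : 1 ≤ t) (htb : t ≤ b)
    (hlow : ∀ j < t, 2 * ∑ i ∈ range j, g i ≤ (1 - κ) * K * j) {x : RT} {S : Finset V} {r : V}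
    (H : Tr G x S r) (hN : x.N t ≤ 1) (hh : x.h ≤ b) (m : ℕ) :
    2 * M G g b S r m ≤ 2 * ∑ j ∈ range x.h, g j + (1 - κ) * K * x.w t := by
  induction H generalizing m with
  | pt r =>
    have h1 : M G g b {r} r m = 0 := by
      unfold M
      refine Finset.sum_eq_zero fun i _ => ?_
      refine F_zero hg.nonneg (h := 0) (S := {r}) (r := r) (fun v hv => ?_) (by push_cast; omega)
      rw [Finset.mem_singleton] at hv
      rw [hv, SimpleGraph.dist_self]
    rw [h1]
    simp only [RT.h, RT.w, Finset.range_zero, Finset.sum_empty]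
    norm_num
  | @ext x S c r H had hr ih =>
    have h1 : x.h + 1 ≤ b := hh
    have h2 := ih (N_of_ext ht hN) (by omega) m
    have h3 := M_ext hG hg.nonneg (b := b) (h := x.h) H.mem (H.built.dist_le hG) had h1 m
    have h4 : (RT.ext x).h = x.h + 1 := rfl
    have h5 : (RT.ext x).w t = x.w t := rfl
    rw [h4, h5, Finset.sum_range_succ]
    linarith
  | @join x y S T r HS HT hST ihS ihT =>
    obtain ⟨n1, n2, n3⟩ := N_of_join ht hN
    have h0 : (RT.join x y).h = max x.h y.h := rfl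
    rw [h0] at hh
    have h1 := ihS n1 ((le_max_left _ _).trans hh) m
    have h2 := ihT n2 ((le_max_right _ _).trans hh) m
    have h3 := M_join (G := G) hg.nonneg b S T r m
    have h4 := hlow _ n3
    have h5 : ∑ j ∈ range x.h, g j + ∑ j ∈ range y.h, g j =
        ∑ j ∈ range (max x.h y.h), g j + ∑ j ∈ range (min x.h y.h), g j := by
      rcases le_total x.h y.h with h | h
      · rw [max_eq_right h, min_eq_left h, add_comm]
      · rw [max_eq_left h, min_eq_right h]
    rw [h0, w_join n3]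
    push_cast at h4 ⊢
    nlinarith

private theorem light_join (hG : G.Connected) {g : ℕ → ℝ} {b t : ℕ} {K κ : ℝ} (hg : CF g b K)
    (hκ : 0 ≤ κ) (hκ1 : κ ≤ 1) (ht : 1 ≤ t) (htb : t ≤ b)
    (hlow : ∀ j < t, 2 * ∑ i ∈ range j, g i ≤ (1 - κ) * K * j) {x : RT} {S : Finset V} {r : V}
    (H : Tr G x S r) (hN : x.N t ≤ 1) (hh : x.h < t) (m : ℕ) :
    M G g b S r m + M G g b S r (m + 1) ≤ (1 - κ) * K * (x.w t + x.h) := by
  have h1 := single_light hG hg hκ hκ1 ht htb hlow H hN (by omega) m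
  have h2 := single_light hG hg hκ hκ1 ht htb hlow H hN (by omega) (m + 1)
  have h3 := hlow _ hh
  linarith

theorem single_low (hG : G.Connected) {g : ℕ → ℝ} {b t : ℕ} {K κ : ℝ} (hg : CF g b K)
    (hκ : 0 ≤ κ) (hκ1 : κ ≤ 1) (ht : 1 ≤ t) (htb : t ≤ b)
    (hlow : ∀ j < t, 2 * ∑ i ∈ range j, g i ≤ (1 - κ) * K * j) {x : RT} {S : Finset V} {r : V}
    (H : Tr G x S r) (hN : x.N t ≤ 1) (hh : x.h ≤ b) :
    X G g b S r x.h ≤ g 0 + 2 * ∑ j ∈ Icc 1 x.h, g j + (1 - κ) * K * x.w t := by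
  induction H with
  | pt r =>
    have h1 : X G g b {r} r (RT.pt).h = F G g b {r} r ((0 : ℕ) : ℤ) := by
      unfold X
      simp [RT.h]
    have h2 : F G g b {r} r ((0 : ℕ) : ℤ) ≤ g 0 := by
      refine F_ball hg.nonneg (h := 0) (S := {r}) (r := r) (fun v hv => ?_) le_rfl (by omega)
      rw [Finset.mem_singleton] at hv
      rw [hv, SimpleGraph.dist_self]
    rw [h1]
    simp only [RT.h, RT.w]
    simpa using h2
  | @ext x S c r H had hr ih =>
    have h1 : x.h + 1 ≤ b := hh
    have h2 := ih (N_of_ext ht hN) (by omega)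
    have h3 := X_ext_low hG hg.nonneg (b := b) (h := x.h) H.mem
      ((Tr.ext r H had hr).built.dist_le hG) had h1
    have h4 : (RT.ext x).h = x.h + 1 := rfl
    have h5 : (RT.ext x).w t = x.w t := rfl
    rw [h4, h5, Finset.sum_Icc_succ_top (by omega)]
    linarith
  | @join x y S T r HS HT hST ihS ihT =>
    obtain ⟨n1, n2, n3⟩ := N_of_join ht hN
    have h0 : (RT.join x y).h = max x.h y.h := rfl
    rw [h0] at hh
    rw [h0, w_join n3]
    rcases le_total y.h x.h with h | h
    · rw [max_eq_left h] at hh ⊢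
      rw [min_eq_right h] at n3 ⊢
      have h1 := ihS n1 hh
      have h2 := X_join hG hg.nonneg hh S T r
      have h3 := light_join hG hg hκ hκ1 ht htb hlow HT n2 n3 x.h
      push_cast
      nlinarith
    · rw [max_eq_right h] at hh ⊢
      rw [min_eq_left h] at n3 ⊢
      have h1 := ihT n2 hh
      have h2 := X_join hG hg.nonneg hh T S r
      have h3 := light_join hG hg hκ hκ1 ht htb hlow HS n1 n3 y.h
      rw [Finset.union_comm]
      push_cast
      nlinarith

private theorem single_b (hG : G.Connected) {g : ℕ → ℝ} {b t : ℕ} {K κ : ℝ} (hg : CF g b K)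
    (hκ : 0 ≤ κ) (hκ1 : κ ≤ 1) (ht : 1 ≤ t) (htb : t ≤ b)
    (hlow : ∀ j < t, 2 * ∑ i ∈ range j, g i ≤ (1 - κ) * K * j) {x : RT} {S : Finset V} {r : V}
    (H : Tr G x S r) (hN : x.N t ≤ 1) (hh : x.h = b) :
    X G g b S r b ≤ K * x.h + (1 - κ) * K * x.w t := by
  have h1 := single_low hG hg hκ hκ1 ht htb hlow H hN hh.le
  have h2 := hg.sum
  rw [hh] at h1 ⊢
  linarith

theorem single_high (hG : G.Connected) {g : ℕ → ℝ} {b t : ℕ} {K κ : ℝ} (hg : CF g b K)
    (hκ : 0 ≤ κ) (hκ1 : κ ≤ 1) (ht : 1 ≤ t) (htb : t ≤ b)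
    (hlow : ∀ j < t, 2 * ∑ i ∈ range j, g i ≤ (1 - κ) * K * j) {x : RT} {S : Finset V} {r : V}
    (H : Tr G x S r) (hN : x.N t ≤ 1) (hh : b ≤ x.h) :
    X G g b S r b ≤ K * x.h + (1 - κ) * K * x.w t := by
  have hK : 0 ≤ K := (hg.nonneg b).trans hg.top
  induction H with
  | pt r =>
    have h1 : (RT.pt).h = 0 := rfl
    rw [h1] at hh
    exact absurd (ht.trans htb) (by omega)
  | @ext x S c r H had hr ih =>
    by_cases h1 : (RT.ext x).h = b
    · exact single_b hG hg hκ hκ1 ht htb hlow (Tr.ext r H had hr) hN h1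
    · have h4 : (RT.ext x).h = x.h + 1 := rfl
      have h5 : (RT.ext x).w t = x.w t := rfl
      rw [h4] at h1 hh
      have h2 := ih (N_of_ext ht hN) (by omega)
      have h3 := X_ext_high hG hg.nonneg (b := b) (S := S) H.mem had
      have h6 := hg.top
      rw [h4, h5]
      push_cast
      linarith
  | @join x y S T r HS HT hST ihS ihT =>
    obtain ⟨n1, n2, n3⟩ := N_of_join ht hN
    have h0 : (RT.join x y).h = max x.h y.h := rfl
    rw [h0] at hh
    rw [h0, w_join n3]
    rcases le_total y.h x.h with h | h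
    · rw [max_eq_left h] at hh ⊢
      rw [min_eq_right h] at n3 ⊢
      have h1 := ihS n1 hh
      have h2 := X_join hG hg.nonneg (le_refl b) S T r
      have h3 := light_join hG hg hκ hκ1 ht htb hlow HT n2 n3 b
      push_cast
      nlinarith
    · rw [max_eq_right h] at hh ⊢
      rw [min_eq_left h] at n3 ⊢
      have h1 := ihT n2 hh
      have h2 := X_join hG hg.nonneg (le_refl b) T S r
      have h3 := light_join hG hg hκ hκ1 ht htb hlow HS n1 n3 b
      rw [Finset.union_comm]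
      push_cast
      nlinarith

end Pool.Agent.Helper51.ST
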