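import Pool.Agent.Helper51.ST.NFD
import Pool.Agent.Helper51.ST.Single
import Pool.Agent.Helper51.ST.Clean
import Pool.Agent.Helper51.ST.Cut

/-! # Project ST, module ST-9: the gain of a leg -/

set_option autoImplicit false

namespace Pool.Agent.Helper51.ST

open Finset Pool.Agent.Helper51.BN

variable {V : Type*} [Fintype V] [DecidableEq V] {G : SimpleGraph V}

/-- A leg with little hair. -/
theorem leg_clean (hG : G.Connected) {g : ℕ → ℝ} {b t p : ℕ} {K ε κ α : ℝ}
    (D : NFD g b t p K ε κ α) {x : RT} {S : Finset V} {r : V} (H : Tr G x S r)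
    (hN : x.N t = 1) (hw : x.w t ≤ p) {m : ℕ} (hm : m ≤ b) :
    M G g b S r m + M G g b S r (m + 1) ≤ K * x.h - K * (ε ^ 2 * b / 3200) := by
  have he : x.e = x.w t + x.h := RT.e_eq D.t1 hN.le
  have hth : t ≤ x.h := by
    by_contra hcon
    have := (RT.N_eq_zero D.t1 x).2 (not_le.1 hcon)
    omega
  have hK := D.Kpos
  have hb0 : (0 : ℝ) ≤ b := Nat.cast_nonneg b
  have hε2 : ε ^ 2 ≤ 1 := by nlinarith [D.εpos, D.ε1]
  have hεb : ε ^ 2 * b ≤ b := by nlinarith
  have hbig := D.big
  have hbpos : (0 : ℝ) < b := by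
    rcases hb0.lt_or_eq with h | h
    · exact h
    · rw [← h] at hbig
      norm_num at hbig
  have h34 : 3 * b ≤ 4 * t := by
    have h1 := D.tb'
    have h2 : (3 * b : ℝ) ≤ 4 * t := by linarith
    exact_mod_cast h2
  have hpb : p < b := by
    have h1 := D.hp
    have h2 : (p : ℝ) < b := by linarith
    exact_mod_cast h2
  have hwe : x.e ≤ x.h + p := by omega
  have hKεb : 0 ≤ K * (ε ^ 2 * b) := by positivity
  rcases le_or_gt x.h (5 * b) with h5 | h5
  · have h1 := clean hG D.cf D.Kpos D.εpos D.ε1 D.nf D.big H D.hp hwe (by omega) h5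
      (m := m) (by omega)
    have h2 := clean hG D.cf D.Kpos D.εpos D.ε1 D.nf D.big H D.hp hwe (by omega) h5
      (m := m + 1) (by omega)
    linarith
  · obtain ⟨y, z, S', T, v, Hy, Hz, hU, hE, hz1, hz2, hz3, hy⟩ := exists_cut H hwe hpb h5
    have h1 := clean hG D.cf D.Kpos D.εpos D.ε1 D.nf D.big Hz D.hp hz3 (by omega) (by omega)
      (m := m) (by omega)
    have h2 := clean hG D.cf D.Kpos D.εpos D.ε1 D.nf D.big Hz D.hp hz3 (by omega) (by omega)
      (m := m + 1) (by omega)
    have hcut : ∀ n : ℕ, M G g b S r n ≤ n * F G g b S' v 0 + M G g b T r n := by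
      intro n
      have h3 : ∀ i ∈ range n, F G g b S r (-(i : ℤ) - 1) ≤
          F G g b S' v 0 + F G g b T r (-(i : ℤ) - 1) := by
        intro i _
        rw [← hU]
        exact F_cut D.cf.nonneg S' T v r (by omega)
      have h4 := Finset.sum_le_sum h3
      rw [Finset.sum_add_distrib, Finset.sum_const, card_range, nsmul_eq_mul] at h4
      exact h4
    have h3 := hcut m
    have h4 := hcut (m + 1)
    have hF0 : 0 ≤ F G g b S' v 0 := F_nonneg D.cf.nonneg b S' v 0
    have hFe : (2 * b + 1) * F G g b S' v 0 ≤ K * y.e := by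
      obtain ⟨C, hC1, hC2, hC3⟩ := exists_cover hG D.cf Hy.built hy
      have h5 : F G g b S' v 0 ≤ cost g C := by
        refine F_le D.cf.nonneg hC1 ⟨fun u hu => Or.inl (hC2 u hu), fun _ => ?_⟩
        obtain ⟨q, hq, hq2⟩ := hC2 v Hy.mem
        exact ⟨q, hq, by exact_mod_cast hq2⟩
      refine le_trans ?_ hC3
      gcongr
    have h5 : (2 * m + 1 : ℝ) * F G g b S' v 0 ≤ (2 * b + 1) * F G g b S' v 0 := by
      have : (m : ℝ) ≤ b := by exact_mod_cast hm
      gcongr
    have h6 : (y.e : ℝ) + z.h ≤ x.h + p := by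
      have := Hz.built
      have h7 : z.h ≤ z.e := RT.h_le z
      have h8 : y.e + z.h ≤ x.h + p := by omega
      exact_mod_cast h8
    have h7 : K * (y.e + z.h) ≤ K * (x.h + p) := by gcongr
    have h8 : K * p ≤ K * (ε ^ 2 * b / 80000) := by
      have := D.hp
      gcongr
    push_cast at h4
    nlinarith

theorem leg (hG : G.Connected) {g : ℕ → ℝ} {b t p : ℕ} {K ε κ α : ℝ}
    (D : NFD g b t p K ε κ α) {x : RT} {S : Finset V} {r : V} (H : Tr G x S r)
    (hN : x.N t = 1) {m : ℕ} (hm : m ≤ b) :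
    M G g b S r m + M G g b S r (m + 1) ≤ K * x.e - κ * K / 2 * x.w t - 4 * α := by
  have he : x.e = x.w t + x.h := RT.e_eq D.t1 hN.le
  have he' : (x.e : ℝ) = x.w t + x.h := by exact_mod_cast he
  have hK := D.Kpos
  have hκ := D.κpos
  have hα := D.α_le
  have hw0 : (0 : ℝ) ≤ x.w t := Nat.cast_nonneg _
  rcases le_or_gt (x.w t) p with hw | hw
  · have h1 := leg_clean hG D H hN hw hm
    have h2 : κ * (K * p) ≤ 1 * (K * p) := by
      have := D.κ1
      gcongr
    have h3 : K * p ≤ K * (ε ^ 2 * b / 80000) := by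
      have := D.hp
      gcongr
    have h4 : 0 ≤ K * (ε ^ 2 * b) := by positivity
    have h5 : κ * (K * x.w t) ≤ 1 * (K * x.w t) := by
      have := D.κ1
      gcongr
    have h6 : 0 ≤ K * x.w t := by positivity
    rw [he']
    linarith
  · have h1 : κ * K * p ≤ κ * K * x.w t := by
      have : (p : ℝ) ≤ x.w t := by exact_mod_cast hw.le
      gcongr
    have key : M G g b S r m + M G g b S r (m + 1) ≤ K * x.h + (1 - κ) * K * x.w t := by
      rcases le_or_gt x.h b with hb | hb
      · have h2 := single_light hG D.cf D.κpos.le D.κ1 D.t1 D.tb D.low H hN.le hb m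
        have h3 := single_light hG D.cf D.κpos.le D.κ1 D.t1 D.tb D.low H hN.le hb (m + 1)
        have h4 := sum_range_le D.cf hb
        linarith
      · have h2 := single_high hG D.cf D.κpos.le D.κ1 D.t1 D.tb D.low H hN.le hb.le
        have h3 := M_le_X (G := G) D.cf.nonneg (le_refl b) S r
        have h4 := M_mono (G := G) D.cf.nonneg b S r hm
        have h5 := M_mono (G := G) D.cf.nonneg b S r (Nat.succ_le_succ hm)
        linarith
    rw [he']
    linarith

end Pool.Agent.Helper51.ST
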