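import Pool.Agent.Helper51.ST.NonflatPiece
import Pool.Agent.Helper51.ST.Range
import Pool.Agent.Helper51.ST.Data

/-! # Project ST, module ST-16: the non-flat case -/

set_option autoImplicit false

namespace Pool.Agent.Helper51.ST

open Finset Pool.Agent.Helper51.BN

universe u

/-- the numerical part -/
private lemma nonflat_num {ε c κ c2 B0 : ℝ} (hε : 0 < ε) (hε1 : ε ≤ 1) (hc : 0 < c) (hc1 : c ≤ 1)
    (hκ : κ = ε ^ 3 / 8000) (hc2 : c2 = min (c / 2) (ε ^ 2 / 160000))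
    (hB0 : B0 = 4 * (8 + 32 / κ) / (c2 * c)) {lam k A L m l b p t : ℝ}
    (h1 : 1 ≤ lam) (h2 : 2 / (c2 * c) ≤ lam) (h3 : 12 * B0 ^ 2 ≤ lam)
    (hA : lam ^ 3 ≤ A) (hAL : A ≤ L) (hL4 : L ^ 4 ≤ k) (hm : 0 ≤ m) (hcnt : 8 * A * m ≤ k)
    (hb0 : 0 ≤ b) (hbk : b ≤ k) (hb2 : k * L ≤ 12 * b ^ 2) (hl : c * k / lam ≤ l + 1)
    (htb : t ≤ b) :
    B0 * L * lam ^ 2 ≤ b ∧ c2 * b / lam ≤ l ∧ (c2 * b / lam ≤ p →
      4 * k * L ≤ κ / 8 * (p * (l - 4 * m) - 8 * A * k - 4 * m * t)) := by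
  have hκ0 : 0 < κ := by rw [hκ]; positivity
  have hc20 : 0 < c2 := by rw [hc2]; exact lt_min (by positivity) (by positivity)
  have hc21 : c2 ≤ c / 2 := by rw [hc2]; exact min_le_left _ _
  have hc2c : 0 < c2 * c := by positivity
  have hB00 : 0 < B0 := by rw [hB0]; positivity
  have hB01 : 4 / c ≤ B0 := by
    rw [hB0, div_le_div_iff₀ hc hc2c]
    have e1 : 0 < 32 / κ := by positivity
    have e2 : c2 ≤ 1 := by linarith
    have e3 : 0 ≤ 32 / κ * c := by positivity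
    have e4 : c2 * c ≤ 1 * c := mul_le_mul_of_nonneg_right e2 hc.le
    have e5 : 4 * (8 + 32 / κ) * c = 32 * c + 4 * (32 / κ * c) := by ring
    linarith
  have hlam : 0 < lam := by linarith
  have hL1 : 1 ≤ lam ^ 3 := one_le_pow₀ h1
  have hLlam : lam ^ 3 ≤ L := hA.trans hAL
  have hLpos : 1 ≤ L := hL1.trans hLlam
  have hLam1 : lam ≤ lam ^ 3 := le_self_pow₀ h1 (by norm_num)
  have hkey : B0 * L * lam ^ 2 ≤ b := by
    rw [← pow_le_pow_iff_left₀ (by positivity) hb0 (two_ne_zero)]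
    have e1 : L ^ 5 ≤ k * L := by
      have := mul_le_mul_of_nonneg_right hL4 (show 0 ≤ L by linarith)
      calc L ^ 5 = L ^ 4 * L := by ring
        _ ≤ k * L := this
    have e2 : lam ^ 5 ≤ L ^ 3 := by
      have e3 : (lam ^ 3) ^ 3 ≤ L ^ 3 := pow_le_pow_left₀ (by positivity) hLlam 3
      have e4 : lam ^ 5 ≤ (lam ^ 3) ^ 3 := by
        rw [← pow_mul]
        exact pow_le_pow_right₀ h1 (by norm_num)
      exact e4.trans e3
    have e5 : 12 * (B0 * L * lam ^ 2) ^ 2 ≤ L ^ 5 := by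
      calc 12 * (B0 * L * lam ^ 2) ^ 2 = (12 * B0 ^ 2) * (L ^ 2 * lam ^ 4) := by ring
        _ ≤ lam * (L ^ 2 * lam ^ 4) := mul_le_mul_of_nonneg_right h3 (by positivity)
        _ = L ^ 2 * lam ^ 5 := by ring
        _ ≤ L ^ 2 * L ^ 3 := mul_le_mul_of_nonneg_left e2 (by positivity)
        _ = L ^ 5 := by ring
    linarith
  have hbB : B0 * lam ≤ b := by
    refine le_trans ?_ hkey
    have e1 : 1 * lam ≤ L * lam ^ 2 :=
      mul_le_mul hLpos (le_self_pow₀ h1 (two_ne_zero)) hlam.le (by linarith)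
    rw [one_mul] at e1
    calc B0 * lam ≤ B0 * (L * lam ^ 2) := mul_le_mul_of_nonneg_left e1 hB00.le
      _ = B0 * L * lam ^ 2 := by ring
  have hbpos : 0 < b := lt_of_lt_of_le (by positivity) hbB
  have hkpos : 0 < k := lt_of_lt_of_le hbpos hbk
  -- `l ≥ 3 c k / (4 λ)`
  have hk1 : 1 ≤ c * k / (4 * lam) := by
    rw [le_div_iff₀ (by positivity), one_mul]
    have e1 : 4 * lam ≤ c * (B0 * lam) := by
      have : 4 ≤ c * B0 := by
        rw [div_le_iff₀ hc] at hB01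
        linarith
      calc 4 * lam ≤ (c * B0) * lam := mul_le_mul_of_nonneg_right this hlam.le
        _ = c * (B0 * lam) := by ring
    calc 4 * lam ≤ c * (B0 * lam) := e1
      _ ≤ c * k := mul_le_mul_of_nonneg_left (hbB.trans hbk) hc.le
  have hl3 : 3 * (c * k / (4 * lam)) ≤ l := by
    have : c * k / lam = 4 * (c * k / (4 * lam)) := by field_simp
    linarith
  have hl2 : c2 * b / lam ≤ l := by
    have e1 : c2 * b / lam ≤ c / 2 * k / lam := by
      apply div_le_div_of_nonneg_right _ hlam.le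
      exact mul_le_mul hc21 hbk hbpos.le (by positivity)
    have e2 : c / 2 * k / lam = 2 * (c * k / (4 * lam)) := by field_simp; ring
    have e3 : 0 < c * k / (4 * lam) := by positivity
    linarith
  refine ⟨hkey, hl2, fun hp => ?_⟩
  have hm4 : 4 * m ≤ c * k / (4 * lam) := by
    have e1 : 8 * lam ^ 3 * m ≤ k := by
      refine le_trans ?_ hcnt
      exact mul_le_mul_of_nonneg_right (by linarith) hm
    have e2 : 2 ≤ c * lam ^ 2 := by
      have e3 : 2 ≤ lam * (c2 * c) := by rwa [div_le_iff₀ hc2c] at h2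
      have e4 : lam * (c2 * c) ≤ lam ^ 2 * c := by
        have : c2 ≤ lam := by linarith
        calc lam * (c2 * c) = c2 * (lam * c) := by ring
          _ ≤ lam * (lam * c) := mul_le_mul_of_nonneg_right this (by positivity)
          _ = lam ^ 2 * c := by ring
      linarith
    rw [le_div_iff₀ (by positivity)]
    have e5 : 4 * m * (4 * lam) * 2 ≤ 2 * c * k := by
      calc 4 * m * (4 * lam) * 2 ≤ 4 * m * (4 * lam) * (c * lam ^ 2) :=
            mul_le_mul_of_nonneg_left e2 (by positivity)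
        _ = 2 * c * (8 * lam ^ 3 * m) := by ring
        _ ≤ 2 * c * k := mul_le_mul_of_nonneg_left e1 (by positivity)
    linarith
  have hlm : c * k / (2 * lam) ≤ l - 4 * m := by
    have : c * k / (2 * lam) = 2 * (c * k / (4 * lam)) := by field_simp; ring
    linarith
  have hlm0 : 0 < c * k / (2 * lam) := by positivity
  set Q : ℝ := c2 * b / lam * (c * k / (2 * lam)) with hQ
  have hQp : Q ≤ p * (l - 4 * m) :=
    mul_le_mul hp hlm hlm0.le (le_trans (by positivity) hp)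
  have hQ1 : (8 + 32 / κ) * (k * L) ≤ Q / 2 := by
    have e1 : Q / 2 = c2 * c / (4 * lam ^ 2) * (k * b) := by rw [hQ]; field_simp; ring
    have e2 : (8 + 32 / κ) * (k * L) = c2 * c / (4 * lam ^ 2) * (k * (B0 * L * lam ^ 2)) := by
      rw [hB0]; field_simp
    rw [e1, e2]
    exact mul_le_mul_of_nonneg_left (mul_le_mul_of_nonneg_left hkey hkpos.le) (by positivity)
  have hQ2 : 4 * m * t ≤ Q / 2 := by
    have e0 : 4 * m * t ≤ 4 * m * b := mul_le_mul_of_nonneg_left htb (by linarith)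
    have e1 : 8 * lam ^ 3 * m ≤ k := by
      refine le_trans ?_ hcnt
      exact mul_le_mul_of_nonneg_right (by linarith) hm
    have e2 : 2 ≤ lam * (c2 * c) := by rwa [div_le_iff₀ hc2c] at h2
    have e3 : Q / 2 = c2 * c * k * b / (4 * lam ^ 2) := by rw [hQ]; field_simp; ring
    rw [e3]
    refine e0.trans ?_
    rw [le_div_iff₀ (by positivity)]
    have e4 : 4 * m * b * (4 * lam ^ 2) * 2 ≤ c2 * c * k * b * 2 := by
      calc 4 * m * b * (4 * lam ^ 2) * 2 ≤ 4 * m * b * (4 * lam ^ 2) * (lam * (c2 * c)) :=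
            mul_le_mul_of_nonneg_left e2 (by positivity)
        _ = 2 * (c2 * c) * b * (8 * lam ^ 3 * m) := by ring
        _ ≤ 2 * (c2 * c) * b * k := mul_le_mul_of_nonneg_left e1 (by positivity)
        _ = c2 * c * k * b * 2 := by ring
    linarith
  have hAk : 8 * A * k ≤ 8 * (k * L) := by
    have := mul_le_mul_of_nonneg_left hAL hkpos.le
    linarith
  have hfin : 32 / κ * (k * L) ≤ p * (l - 4 * m) - 8 * A * k - 4 * m * t := by
    have : (8 + 32 / κ) * (k * L) = 8 * (k * L) + 32 / κ * (k * L) := by ring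
    linarith
  have e9 : κ / 8 * (32 / κ * (k * L)) = 4 * k * L := by field_simp; ring
  rw [← e9]
  exact mul_le_mul_of_nonneg_left hfin (by positivity)

theorem nonflat_total {ε c : ℝ} (hε : 0 < ε) (hε1 : ε ≤ 1) (hc : 0 < c) (hc1 : c ≤ 1) :
    ∃ Λ : ℝ, ∀ {V : Type u} [Fintype V] [DecidableEq V] {G : SimpleGraph V} {k A L m : ℕ}
      {y : Fin m → RT} {P : Fin m → Finset V} {q : Fin m → V}, Data G k A L m y P q →
      ∀ {g : ℕ → ℝ} {b : ℕ} {ρ : ℝ}, Price g k L b ρ → ∀ {x x₀ : RT} {l : ℕ},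
      Λ ≤ Real.log k → Real.log k ^ 3 ≤ A → A ≤ L → x₀.e ≤ 8 * A * k →
      (∀ t, 1 ≤ t → x.N t ≤ ∑ i, (y i).N t + x₀.N t + m) →
      c * k / Real.log k ≤ l + 1 → (l : ℝ) ≤ c * k / Real.log k → l < x.N l →
      NF g b (ρ * (2 * b + 1)) ε → Cheap G g k L P := by
  set κ : ℝ := ε ^ 3 / 8000 with hκ
  have hκ0 : 0 < κ := by positivity
  have hε3 : ε ^ 3 ≤ 1 := pow_le_one₀ hε.le hε1
  have hε2 : ε ^ 2 ≤ 1 := pow_le_one₀ hε.le hε1
  have hε20 : 0 < ε ^ 2 := by positivity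
  have hκ1 : κ ≤ 1 := by rw [hκ]; linarith
  set c2 : ℝ := min (c / 2) (ε ^ 2 / 160000) with hc2
  have hc20 : 0 < c2 := lt_min (by positivity) (by positivity)
  have hc2c : 0 < c2 * c := by positivity
  set B0 : ℝ := 4 * (8 + 32 / κ) / (c2 * c) with hB0
  have hB00 : 0 < B0 := by positivity
  refine ⟨max (max 1 (2 / (c2 * c))) (max (12 * B0 ^ 2) (10 ^ 8 / ε ^ 2)), ?_⟩
  intro V _ _ G k A L m y P q hD g b ρ hP x x₀ l hΛ hA hAL hx₀ hN hl1 _ hlN hNF
  set lam : ℝ := Real.log k with hlam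
  have h1 : 1 ≤ lam := (le_max_left _ _).trans ((le_max_left _ _).trans hΛ)
  have h2 : 2 / (c2 * c) ≤ lam := (le_max_right _ _).trans ((le_max_left _ _).trans hΛ)
  have h3 : 12 * B0 ^ 2 ≤ lam := (le_max_left _ _).trans ((le_max_right _ _).trans hΛ)
  have h4 : 10 ^ 8 / ε ^ 2 ≤ lam := (le_max_right _ _).trans ((le_max_right _ _).trans hΛ)
  have hlam0 : 0 < lam := by linarith
  set t : ℕ := ⌊(b : ℝ) - ε ^ 2 * b / 8000⌋₊ + 1 with ht
  set p : ℕ := min l ⌊ε ^ 2 * b / 80000⌋₊ with hp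
  set K : ℝ := ρ * (2 * b + 1) with hK
  have hb1 : (1 : ℝ) ≤ b := by exact_mod_cast hP.b1
  have hb0 : (0 : ℝ) < b := by linarith
  have hK0 : 0 < K := mul_pos hP.ρpos (by positivity)
  have hε2b : ε ^ 2 * b ≤ b := by
    calc ε ^ 2 * b ≤ 1 * b := mul_le_mul_of_nonneg_right hε2 hb0.le
      _ = b := one_mul _
  have hε2b0 : 0 < ε ^ 2 * b := by positivity
  have hfl : (⌊(b : ℝ) - ε ^ 2 * b / 8000⌋₊ : ℝ) ≤ (b : ℝ) - ε ^ 2 * b / 8000 :=
    Nat.floor_le (by linarith)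
  have htb : t ≤ b := by
    have : ⌊(b : ℝ) - ε ^ 2 * b / 8000⌋₊ < b := by
      rw [Nat.floor_lt (by linarith)]
      linarith
    omega
  have htb' : (b : ℝ) - t ≤ ε ^ 2 * b / 8000 := by
    have := Nat.lt_floor_add_one ((b : ℝ) - ε ^ 2 * b / 8000)
    rw [ht]; push_cast; linarith
  have hkR : (b : ℝ) ≤ k := by exact_mod_cast (by have := hP.bk; omega : b ≤ k)
  have hL4 : (L : ℝ) ^ 4 ≤ k := by exact_mod_cast hD.L4
  have hb2 : (k : ℝ) * L ≤ 12 * (b : ℝ) ^ 2 := by exact_mod_cast hP.b2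
  have hcnt : 8 * (A : ℝ) * m ≤ k := by exact_mod_cast hD.cnt
  have hAL' : (A : ℝ) ≤ L := by exact_mod_cast hAL
  obtain ⟨hkey, hl2, hfin⟩ := nonflat_num (ε := ε) (c := c) (κ := κ) (c2 := c2) (B0 := B0)
    (lam := lam) (k := k) (A := A) (L := L) (m := m) (l := l) (b := b) (p := p) (t := t)
    hε hε1 hc hc1 hκ hc2 hB0 h1 h2 h3 hA hAL' hL4 (Nat.cast_nonneg m) hcnt hb0.le hkR hb2 hl1
    (by exact_mod_cast htb)
  have hLR : 1 ≤ (L : ℝ) := (one_le_pow₀ h1).trans (hA.trans hAL')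
  have hbB : B0 * lam ≤ b := by
    refine le_trans ?_ hkey
    have e1 : 1 * lam ≤ (L : ℝ) * lam ^ 2 :=
      mul_le_mul hLR (le_self_pow₀ h1 (two_ne_zero)) hlam0.le (by linarith)
    rw [one_mul] at e1
    calc B0 * lam ≤ B0 * (L * lam ^ 2) := mul_le_mul_of_nonneg_left e1 hB00.le
      _ = B0 * L * lam ^ 2 := by ring
  have hB01 : 1 ≤ B0 := by
    rw [hB0, le_div_iff₀ hc2c]
    have e1 : 0 < 32 / κ := by positivity
    have e2 : c2 ≤ c / 2 := min_le_left _ _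
    have e3 : c2 * c ≤ 1 * 1 := mul_le_mul (by linarith) hc1 hc.le (by norm_num)
    linarith
  have hbig : 10 ^ 8 ≤ ε ^ 2 * b := by
    have e1 : lam ≤ b := le_trans (le_mul_of_one_le_left hlam0.le hB01) hbB
    have e2 : 10 ^ 8 / ε ^ 2 ≤ b := h4.trans e1
    rw [div_le_iff₀ hε20] at e2
    linarith
  have hp1 : (p : ℝ) ≤ ε ^ 2 * b / 80000 := by
    have e1 : (p : ℝ) ≤ ⌊ε ^ 2 * b / 80000⌋₊ := by exact_mod_cast min_le_right _ _
    exact e1.trans (Nat.floor_le (by positivity))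
  have hp2 : c2 * b / lam ≤ p := by
    have e1 : c2 * b / lam ≤ (⌊ε ^ 2 * b / 80000⌋₊ : ℝ) := by
      have e2 := Nat.lt_floor_add_one (ε ^ 2 * b / 80000)
      have e3 : c2 * b / lam ≤ c2 * b := div_le_self (by positivity) h1
      have e4 : c2 * b ≤ ε ^ 2 / 160000 * b := mul_le_mul_of_nonneg_right (min_le_right _ _) hb0.le
      linarith
    rw [hp, Nat.cast_min]
    exact le_min hl2 e1
  have hpκ : 8 / κ ≤ p := by
    refine le_trans ?_ hp2
    rw [le_div_iff₀ hlam0]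
    have e1 : c2 * (B0 * L * lam ^ 2) ≤ c2 * b := mul_le_mul_of_nonneg_left hkey hc20.le
    have e2 : c2 * (B0 * L * lam ^ 2) = 4 * (8 + 32 / κ) / c * (L * lam ^ 2) := by
      rw [hB0]; field_simp
    have e3 : 8 / κ ≤ 4 * (8 + 32 / κ) / c := by
      rw [le_div_iff₀ hc]
      have e4 : 0 < 8 / κ := by positivity
      have e5 : 32 / κ = 4 * (8 / κ) := by ring
      rw [e5]
      have e6 : 8 / κ * c ≤ 8 / κ * 1 := mul_le_mul_of_nonneg_left hc1 e4.le
      linarith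
    have e6 : lam ≤ (L : ℝ) * lam ^ 2 := by
      have e7 : 1 * lam ≤ (L : ℝ) * lam ^ 2 :=
        mul_le_mul hLR (le_self_pow₀ h1 (two_ne_zero)) hlam0.le (by linarith)
      rwa [one_mul] at e7
    have e7 : 8 / κ * lam ≤ 4 * (8 + 32 / κ) / c * (L * lam ^ 2) :=
      mul_le_mul e3 e6 hlam0.le (by positivity)
    linarith
  have hp0 : 0 < (p : ℝ) := lt_of_lt_of_le (by positivity) hpκ
  have hp1' : 1 ≤ p := by exact_mod_cast (show (0 : ℝ) < p from hp0)
  have hpt : p ≤ t := by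
    have : (p : ℝ) ≤ t := by linarith
    exact_mod_cast this
  have hpl : p ≤ l := min_le_left _ _
  have hNFD : NFD g b t p K ε κ (κ * K * p / 8) := by
    refine ⟨hP.cf, hK0, hε, hε1, hNF, hκ0, hκ1, by omega, htb, htb', ?_, hp1, hbig, ?_, ?_⟩
    · intro j hj
      have hjb : j ≤ b := by omega
      have e1 := range_le hP.cf hε.le hε1 hNF hjb
      refine e1.trans ?_
      have hj' : (j : ℝ) ≤ (b : ℝ) - ε ^ 2 * b / 8000 := by
        have : (j : ℝ) ≤ (⌊(b : ℝ) - ε ^ 2 * b / 8000⌋₊ : ℝ) := by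
          exact_mod_cast (by omega : j ≤ ⌊(b : ℝ) - ε ^ 2 * b / 8000⌋₊)
        exact this.trans hfl
      have hj0 : (0 : ℝ) ≤ j := Nat.cast_nonneg j
      have hjbR : (j : ℝ) ≤ b := by exact_mod_cast hjb
      have e2 : κ * j ≤ ε * min (j : ℝ) ((b : ℝ) - j) := by
        rcases min_choice (j : ℝ) ((b : ℝ) - j) with h | h
        · rw [h]
          apply mul_le_mul_of_nonneg_right _ hj0
          rw [hκ]
          have e3 : ε ^ 3 ≤ ε := pow_le_of_le_one hε.le hε1 (by norm_num)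
          linarith
        · rw [h]
          have e3 : ε ^ 2 * j / 8000 ≤ (b : ℝ) - j := by
            have : ε ^ 2 * j ≤ ε ^ 2 * b := mul_le_mul_of_nonneg_left hjbR hε20.le
            linarith
          calc κ * j = ε * (ε ^ 2 * j / 8000) := by rw [hκ]; ring
            _ ≤ ε * ((b : ℝ) - j) := mul_le_mul_of_nonneg_left e3 hε.le
      have e4 : (1 - κ) * K * j = K * (j - κ * j) := by ring
      rw [e4]
      exact mul_le_mul_of_nonneg_left (by linarith) hK0.le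
    · apply le_of_eq; ring
    · rw [div_le_iff₀ hκ0] at hpκ
      have : K * 8 ≤ K * (p * κ) := mul_le_mul_of_nonneg_left hpκ hK0.le
      have e1 : κ * K * p / 8 = K * (p * κ) / 8 := by ring
      rw [e1]; linarith
  -- the covers
  have hC : ∀ i, ∃ C : Finset (V × ℕ), (∀ p ∈ C, p.2 ≤ b) ∧
      (∀ v ∈ P i, ∃ p ∈ C, G.dist p.1 v ≤ p.2) ∧
      cost g C ≤ ρ * ((y i).e - κ / 2 * (((y i).w t : ℝ) - t) - κ * p / 8 * (((y i).N t : ℝ) - 2)) := by
    intro i
    have he : 8 * b ≤ (y i).e := by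
      have e1 := hD.big i
      have e2 : b ≤ k := by have := hP.bk; omega
      omega
    obtain ⟨C, hC1, hC2, hC3⟩ := nonflat_piece hD.conn hNFD (hD.tr i) he
    refine ⟨C, hC1, hC2, ?_⟩
    have e1 : K * (y i).e - κ * K / 2 * (((y i).w t : ℝ) - t)
        - κ * K * p / 8 * (((y i).N t : ℝ) - 2) = (2 * b + 1) * (ρ * ((y i).e -
          κ / 2 * (((y i).w t : ℝ) - t) - κ * p / 8 * (((y i).N t : ℝ) - 2))) := by
      rw [hK]; ring
    rw [e1] at hC3
    exact le_of_mul_le_mul_left hC3 (by positivity)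
  choose C hC1 hC2 hC3 using hC
  refine ⟨C, fun i q hq => ?_, hC2, ?_⟩
  · have e1 := hC1 i q hq
    have e2 := hP.bk
    omega
  refine le_trans (Finset.sum_le_sum fun i _ => hC3 i) ?_
  refine le_trans ?_ hP.tot
  rw [← Finset.mul_sum]
  apply mul_le_mul_of_nonneg_left _ hP.ρpos.le
  have hsum : ∑ i, (((y i).e : ℝ) - κ / 2 * (((y i).w t : ℝ) - t) - κ * p / 8 * (((y i).N t : ℝ) - 2))
      = (∑ i, ((y i).e : ℝ)) - κ / 2 * ((∑ i, ((y i).w t : ℝ)) - m * t)
        - κ * p / 8 * ((∑ i, ((y i).N t : ℝ)) - 2 * m) := by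
    rw [Finset.sum_sub_distrib, Finset.sum_sub_distrib, ← Finset.mul_sum, ← Finset.mul_sum,
      Finset.sum_sub_distrib, Finset.sum_sub_distrib]
    simp only [Finset.sum_const, Finset.card_univ, Fintype.card_fin, nsmul_eq_mul]
    ring
  rw [hsum]
  have hE : ∑ i, ((y i).e : ℝ) ≤ (k : ℝ) ^ 2 := by exact_mod_cast hD.tot
  have hW0 : 0 ≤ ∑ i, ((y i).w t : ℝ) := Finset.sum_nonneg fun i _ => Nat.cast_nonneg _
  have hNP : (p : ℝ) * ∑ i, ((y i).N p : ℝ) ≤
      p * (∑ i, ((y i).N t : ℝ)) + (∑ i, ((y i).w t : ℝ)) + p * m := by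
    have e1 : ∀ i, (p : ℝ) * ((y i).N p : ℝ) ≤ p * ((y i).N t : ℝ) + ((y i).w t : ℝ) + p := by
      intro i
      exact_mod_cast RT.N_le_add hp1' hpt (y i)
    calc (p : ℝ) * ∑ i, ((y i).N p : ℝ) = ∑ i, (p : ℝ) * ((y i).N p : ℝ) := Finset.mul_sum _ _ _
      _ ≤ ∑ i, ((p : ℝ) * ((y i).N t : ℝ) + ((y i).w t : ℝ) + p) :=
          Finset.sum_le_sum fun i _ => e1 i
      _ = _ := by
          rw [Finset.sum_add_distrib, Finset.sum_add_distrib, ← Finset.mul_sum]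
          simp only [Finset.sum_const, Finset.card_univ, Fintype.card_fin, nsmul_eq_mul]
          ring
  have hl3 : (l : ℝ) ≤ (∑ i, ((y i).N p : ℝ)) + x₀.N p + m := by
    have e1 : x.N l ≤ x.N p := RT.N_anti hp1' hpl x
    have e2 := hN p hp1'
    have e3 : l ≤ ∑ i, (y i).N p + x₀.N p + m := by omega
    exact_mod_cast e3
  have hx0 : (p : ℝ) * x₀.N p ≤ 8 * A * k := by
    have e1 := RT.N_mul_le hp1' x₀
    have e2 : p * x₀.N p ≤ 8 * A * k := by omega
    exact_mod_cast e2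
  have hfin' := hfin hp2
  set W : ℝ := ∑ i, ((y i).w t : ℝ)
  set NN : ℝ := ∑ i, ((y i).N t : ℝ)
  set NP : ℝ := ∑ i, ((y i).N p : ℝ)
  set E : ℝ := ∑ i, ((y i).e : ℝ)
  have e1 : (p : ℝ) * l ≤ p * NP + p * x₀.N p + p * m := by
    have := mul_le_mul_of_nonneg_left hl3 hp0.le
    linarith
  have e2 : (p : ℝ) * l - 8 * A * k - 2 * p * m ≤ p * NN + W := by linarith
  have e3 : κ / 8 * (p * l - 8 * A * k - 2 * p * m) ≤ κ / 8 * (p * NN + W) :=
    mul_le_mul_of_nonneg_left e2 (by positivity)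
  have e4 : κ / 8 * W ≤ κ / 2 * W := mul_le_mul_of_nonneg_right (by linarith) hW0
  have e5 : κ / 8 * (p * (l - 4 * m) - 8 * A * k - 4 * m * t) =
      κ / 8 * (p * l - 8 * A * k - 2 * p * m) - κ / 2 * (m * t) - κ * p / 8 * (2 * m) := by ring
  rw [e5] at hfin'
  have e6 : κ / 8 * (p * NN + W) = κ * p / 8 * NN + κ / 8 * W := by ring
  rw [e6] at e3
  have e7 : E - κ / 2 * (W - m * t) - κ * p / 8 * (NN - 2 * m)
      = E - (κ / 2 * W - κ / 2 * (m * t)) - (κ * p / 8 * NN - κ * p / 8 * (2 * m)) := by ring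
  rw [e7]
  linarith

end Pool.Agent.Helper51.ST
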