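import Mathlib

/-! # Project ST, module ST-18a: the choice of the parameters -/

set_option autoImplicit false

namespace Pool.Agent.Helper51.ST

theorem param_aux {l k : ℝ} {A s : ℕ} {δ : ℝ} (hl : 2 ≤ l) (hk : 1192 ^ 4 * l ^ 20 ≤ k)
    (hA : (A : ℝ) ≤ 2 * l ^ 3) (hs : (s : ℝ) ≤ 3 * l) (hδ : δ ≤ 8 * l) (hδ0 : 0 ≤ δ) :
    (s : ℝ) * ((18 * A : ℕ) * δ + 1) + (18 * A : ℕ) * δ ≤ 1155 * l ^ 5 ∧ 1155 * l ^ 5 ≤ k := by
  have hl0 : 0 ≤ l := by linarith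
  have hl1 : 1 ≤ l := by linarith
  have hAc : ((18 * A : ℕ) : ℝ) = 18 * (A : ℝ) := by push_cast; ring
  rw [hAc]
  have hA0 : (0 : ℝ) ≤ A := Nat.cast_nonneg _
  have hs0 : (0 : ℝ) ≤ s := Nat.cast_nonneg _
  have h1 : 18 * (A : ℝ) * δ ≤ 288 * l ^ 4 := by
    calc 18 * (A : ℝ) * δ ≤ 18 * (2 * l ^ 3) * (8 * l) := by gcongr
      _ = 288 * l ^ 4 := by ring
  have h45 : l ^ 4 ≤ l ^ 5 := pow_le_pow_right₀ hl1 (by norm_num)
  have h14 : 1 ≤ l ^ 4 := one_le_pow₀ hl1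
  have h2 : (s : ℝ) * (18 * (A : ℝ) * δ + 1) ≤ 867 * l ^ 5 := by
    calc (s : ℝ) * (18 * (A : ℝ) * δ + 1) ≤ (3 * l) * (288 * l ^ 4 + l ^ 4) := by gcongr
      _ = 867 * l ^ 5 := by ring
  refine ⟨by linarith, ?_⟩
  have h520 : l ^ 5 ≤ l ^ 20 := pow_le_pow_right₀ hl1 (by norm_num)
  have h20 : 0 ≤ l ^ 20 := by positivity
  nlinarith [h520, h20, hk]

/-- The parameters of the rounding: pieces with at most `16 * A * k` edges are covered by at most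
`18 * A` large balls; `s` rounds, the error is `X`. -/
theorem exists_param (Λ : ℝ) (k₁ : ℕ) : ∃ k₀ : ℕ, ∀ k, k₀ ≤ k →
    ∃ (A L s X : ℕ) (Y δ : ℝ), 1 ≤ A ∧ k₁ ≤ A ∧ k₁ ≤ k ∧ Λ ≤ Real.log k ∧
      Real.log k ^ 3 ≤ A ∧ A ≤ L ∧ 2 ≤ L ∧ L ^ 4 ≤ k ∧ 17 * L ≤ k ∧ L = X + 18 * A ∧
      0 < Y ∧ 8 ≤ δ ∧ Y * Real.exp (-(δ / 4)) ≤ 1 ∧ (k : ℝ) ≤ 2 ^ s * δ ∧
      (k : ℝ) + s * ((18 * A : ℕ) * δ + 1) ≤ Y ∧
      (s : ℝ) * ((18 * A : ℕ) * δ + 1) + (18 * A : ℕ) * δ < X := by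
  have e1 : ∀ᶠ k : ℕ in Filter.atTop, 1192 ^ 4 * Real.log k ^ 20 ≤ (k : ℝ) := by
    have h := (Real.isLittleO_pow_log_id_atTop (n := 20)).bound
      (show (0 : ℝ) < 1 / 1192 ^ 4 by norm_num)
    have h2 := (tendsto_natCast_atTop_atTop (R := ℝ)).eventually h
    filter_upwards [h2] with k hk
    simp only [id, Real.norm_eq_abs] at hk
    have hkk : |(k : ℝ)| = k := abs_of_nonneg (Nat.cast_nonneg k)
    rw [hkk] at hk
    have := le_abs_self (Real.log (k : ℝ) ^ 20)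
    have h3 : Real.log (k : ℝ) ^ 20 ≤ 1 / 1192 ^ 4 * (k : ℝ) := this.trans hk
    have h4 : (1192 : ℝ) ^ 4 * Real.log (k : ℝ) ^ 20 ≤ 1192 ^ 4 * (1 / 1192 ^ 4 * (k : ℝ)) :=
      mul_le_mul_of_nonneg_left h3 (by positivity)
    calc (1192 : ℝ) ^ 4 * Real.log (k : ℝ) ^ 20 ≤ 1192 ^ 4 * (1 / 1192 ^ 4 * (k : ℝ)) := h4
      _ = k := by field_simp
  have e2 : ∀ᶠ k : ℕ in Filter.atTop, max (max Λ 2) (k₁ : ℝ) ≤ Real.log k :=
    (Real.tendsto_log_atTop.comp (tendsto_natCast_atTop_atTop (R := ℝ))).eventually_ge_atTop _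
  have e3 : ∀ᶠ k : ℕ in Filter.atTop, max k₁ 3 ≤ k := Filter.eventually_ge_atTop _
  obtain ⟨k₀, hk₀⟩ := Filter.eventually_atTop.1 ((e1.and e2).and e3)
  refine ⟨k₀, fun k hk => ?_⟩
  obtain ⟨⟨h1, h2⟩, h3⟩ := hk₀ k hk
  set l := Real.log (k : ℝ) with hl
  have hΛ : Λ ≤ l := ((le_max_left _ _).trans (le_max_left _ _)).trans h2
  have hl2 : 2 ≤ l := ((le_max_right _ _).trans (le_max_left _ _)).trans h2
  have hk1l : (k₁ : ℝ) ≤ l := (le_max_right _ _).trans h2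
  have hk1 : k₁ ≤ k := (le_max_left _ _).trans h3
  have hk3 : 3 ≤ k := (le_max_right _ _).trans h3
  have hkpos : (0 : ℝ) < k := by exact_mod_cast (by omega : 0 < k)
  have hl1 : 1 ≤ l := by linarith
  have hl3 : 1 ≤ l ^ 3 := one_le_pow₀ hl1
  have hl13 : l ≤ l ^ 3 := by
    calc l = l ^ 1 := (pow_one l).symm
      _ ≤ l ^ 3 := pow_le_pow_right₀ hl1 (by norm_num)
  set A := ⌈l ^ 3⌉₊ with hAdef
  have hA3 : l ^ 3 ≤ A := Nat.le_ceil _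
  have hA2 : (A : ℝ) ≤ 2 * l ^ 3 := by
    have := (Nat.ceil_lt_add_one (show 0 ≤ l ^ 3 by positivity)).le
    linarith
  have hA1 : 1 ≤ A := by
    have : (1 : ℝ) ≤ A := hl3.trans hA3
    exact_mod_cast this
  have hAk1 : k₁ ≤ A := by
    have : (k₁ : ℝ) ≤ A := (hk1l.trans hl13).trans hA3
    exact_mod_cast this
  set s := Nat.clog 2 k with hs
  have hks : k ≤ 2 ^ s := Nat.le_pow_clog (by norm_num) k
  have hs3 : (s : ℝ) ≤ 3 * l := by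
    have hlt : 2 ^ s.pred < k := Nat.pow_pred_clog_lt_self (by norm_num) (by omega)
    have hlt' : ((2 : ℝ)) ^ s.pred < k := by exact_mod_cast hlt
    have hlog := Real.log_lt_log (by positivity) hlt'
    rw [Real.log_pow] at hlog
    have hl2' : (1 / 2 : ℝ) ≤ Real.log 2 := by have := Real.log_two_gt_d9; linarith
    have hsp : (s : ℝ) ≤ (s.pred : ℝ) + 1 := by
      have : s ≤ s.pred + 1 := by rw [Nat.pred_eq_sub_one]; omega
      exact_mod_cast this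
    have hp0 : (0 : ℝ) ≤ (s.pred : ℝ) := Nat.cast_nonneg _
    have : (s.pred : ℝ) * (1 / 2) ≤ (s.pred : ℝ) * Real.log 2 := by gcongr
    have h9 : (s.pred : ℝ) * (1 / 2) ≤ l := by rw [hl]; linarith
    linarith
  set Y : ℝ := 2 * k with hY
  have hYpos : 0 < Y := by positivity
  set δ := 4 * Real.log Y with hδ
  have hlogY : Real.log Y = Real.log 2 + l := by
    rw [hY, Real.log_mul (by norm_num) hkpos.ne']
  have hlog2 : (0 : ℝ) < Real.log 2 := Real.log_pos (by norm_num)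
  have hlog2' : Real.log 2 ≤ 1 := by have := Real.log_two_lt_d9; linarith
  have hδ8 : 8 ≤ δ := by rw [hδ, hlogY]; linarith
  have hδl : δ ≤ 8 * l := by rw [hδ, hlogY]; linarith
  have hδ0 : 0 ≤ δ := by linarith
  obtain ⟨p1, p2⟩ := param_aux hl2 h1 hA2 hs3 hδl hδ0
  set R := (s : ℝ) * ((18 * A : ℕ) * δ + 1) + (18 * A : ℕ) * δ with hR
  have hR0 : 0 ≤ R := by positivity
  set X := ⌊R⌋₊ + 1 with hX
  have hRX : R < X := by
    rw [hX]; push_cast; exact Nat.lt_floor_add_one R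
  have hXR : (X : ℝ) ≤ R + 1 := by
    rw [hX]; push_cast
    have := Nat.floor_le hR0
    linarith
  have hl5 : 1 ≤ l ^ 5 := one_le_pow₀ hl1
  have hl35 : l ^ 3 ≤ l ^ 5 := pow_le_pow_right₀ hl1 (by norm_num)
  have hLle : ((X + 18 * A : ℕ) : ℝ) ≤ 1192 * l ^ 5 := by
    push_cast
    linarith
  have hL4 : (X + 18 * A) ^ 4 ≤ k := by
    have : (((X + 18 * A : ℕ) : ℝ)) ^ 4 ≤ (1192 * l ^ 5) ^ 4 := by gcongr
    have h5 : (1192 * l ^ 5) ^ 4 = 1192 ^ 4 * l ^ 20 := by ring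
    have h6 : (((X + 18 * A : ℕ) : ℝ)) ^ 4 ≤ (k : ℝ) := by rw [h5] at this; linarith
    exact_mod_cast h6
  have hL18 : 18 ≤ X + 18 * A := by omega
  refine ⟨A, X + 18 * A, s, X, Y, δ, hA1, hAk1, hk1, hΛ, hA3, by omega, by omega, hL4, ?_, rfl,
    hYpos, hδ8, ?_, ?_, ?_, hRX⟩
  · calc 17 * (X + 18 * A) ≤ (X + 18 * A) ^ 3 * (X + 18 * A) := by
          gcongr
          calc 17 ≤ 18 ^ 3 := by norm_num
            _ ≤ (X + 18 * A) ^ 3 := Nat.pow_le_pow_left hL18 3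
      _ = (X + 18 * A) ^ 4 := by ring
      _ ≤ k := hL4
  · have : δ / 4 = Real.log Y := by rw [hδ]; ring
    rw [this, Real.exp_neg, Real.exp_log hYpos, mul_inv_cancel₀ hYpos.ne']
  · have : (k : ℝ) ≤ 2 ^ s := by exact_mod_cast hks
    calc (k : ℝ) ≤ 2 ^ s * 1 := by linarith
      _ ≤ 2 ^ s * δ := by gcongr; linarith
  · have h7 : 0 ≤ ((18 * A : ℕ) : ℝ) * δ := by positivity
    have : (s : ℝ) * ((18 * A : ℕ) * δ + 1) ≤ k := by
      have : (s : ℝ) * ((18 * A : ℕ) * δ + 1) ≤ R := by rw [hR]; linarith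
      linarith
    rw [hY]; linarith

end Pool.Agent.Helper51.ST
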