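import Pool.Agent.Helper51.ST.Basic

/-! # Project ST, module ST-2: cutting a tree into pieces -/

set_option autoImplicit false

namespace Pool.Agent.Helper51.ST

open Finset Pool.Agent.Helper51.BN

variable {V : Type*} [DecidableEq V] {G : SimpleGraph V}

/-- A list of pieces and a remainder at the root. -/
private structure Cutting (G : SimpleGraph V) (s : ℕ) (x : RT) (S : Finset V) (r : V)
    (L : List (RT × Finset V × V)) (x₀ : RT) (S₀ : Finset V) : Prop where
  piece : ∀ y ∈ L, Tr G y.1 y.2.1 y.2.2 ∧ s ≤ y.1.e ∧ y.1.e ≤ 2 * s - 1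
  rest : Tr G x₀ S₀ r
  sub : S₀ ⊆ S
  cov : ∀ v ∈ S, v ∈ S₀ ∨ ∃ y ∈ L, v ∈ y.2.1
  sum_e : (L.map (fun y => y.1.e)).sum + x₀.e = x.e
  nil : L.length = 0 → x₀ = x
  upper : ∀ t, 1 ≤ t → x.N t ≤ (L.map (fun y => y.1.N t)).sum + x₀.N t + L.length
  lower : ∀ t, 1 ≤ t → (L.map (fun y => y.1.N t)).sum + x₀.N t +
    (if 1 ≤ L.length ∧ x₀.h < t then 1 else 0) ≤ x.N t + L.length

private theorem cut_step {s : ℕ} (hs : 0 < s) {x : RT} {S : Finset V} {r : V}
    {L : List (RT × Finset V × V)} {x₀ : RT} {S₀ : Finset V} (h : Cutting G s x S r L x₀ S₀)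
    (he : x₀.e ≤ 2 * s - 1) :
    ∃ (L' : List (RT × Finset V × V)) (x₁ : RT) (S₁ : Finset V),
      Cutting G s x S r L' x₁ S₁ ∧ x₁.e < s := by
  by_cases hlt : x₀.e < s
  · exact ⟨L, x₀, S₀, h, hlt⟩
  · refine ⟨(x₀, S₀, r) :: L, RT.pt, {r}, ?_, hs⟩
    constructor
    · intro y hy
      rcases List.mem_cons.1 hy with rfl | hy
      · exact ⟨h.rest, by show s ≤ x₀.e; omega, he⟩
      · exact h.piece y hy
    · exact Tr.pt r
    · exact Finset.singleton_subset_iff.2 (h.sub h.rest.mem)
    · intro v hv
      rcases h.cov v hv with h1 | ⟨y, hy, hvy⟩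
      · exact Or.inr ⟨_, List.mem_cons_self, h1⟩
      · exact Or.inr ⟨y, List.mem_cons_of_mem _ hy, hvy⟩
    · have h1 := h.sum_e
      simp only [List.map_cons, List.sum_cons, RT.e]
      omega
    · intro h1
      simp at h1
    · intro t ht
      have h1 := h.upper t ht
      simp only [List.map_cons, List.sum_cons, RT.N, List.length_cons]
      omega
    · intro t ht
      have h1 := h.lower t ht
      rw [if_pos ⟨by rw [List.length_cons]; omega, by show 0 < t; omega⟩]
      simp only [List.map_cons, List.sum_cons, RT.N, List.length_cons]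
      omega

private theorem N_ext_le {t : ℕ} (ht : 1 ≤ t) (x : RT) : x.N t ≤ (RT.ext x).N t := by
  by_cases h : x.h + 1 = t
  · have h0 : x.N t = 0 := (RT.N_eq_zero ht x).2 (by omega)
    omega
  · simp only [RT.N, if_neg h]
    exact le_refl _

private theorem exists_cutting {x : RT} {S : Finset V} {r : V} (H : Tr G x S r) {s : ℕ}
    (hs : 0 < s) :
    ∃ (L : List (RT × Finset V × V)) (x₀ : RT) (S₀ : Finset V),
      Cutting G s x S r L x₀ S₀ ∧ x₀.e < s := by
  induction H with
  | pt r =>
    refine ⟨[], RT.pt, {r}, ?_, hs⟩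
    constructor
    · simp
    · exact Tr.pt r
    · exact Finset.Subset.refl _
    · exact fun v hv => Or.inl hv
    · simp
    · exact fun _ => rfl
    · intro t _
      simp
    · intro t _
      simp
  | @ext x S c r Hc hadj hr ih =>
    obtain ⟨L, x₀, S₀, h, he⟩ := ih
    refine cut_step (L := L) (x₀ := RT.ext x₀) (S₀ := insert r S₀) hs ?_ (by
      show x₀.e + 1 ≤ 2 * s - 1
      omega)
    constructor
    · exact h.piece
    · exact Tr.ext r h.rest hadj (fun h1 => hr (h.sub h1))
    · exact Finset.insert_subset_insert _ h.sub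
    · intro v hv
      rcases Finset.mem_insert.1 hv with rfl | hv
      · exact Or.inl (Finset.mem_insert_self _ _)
      · rcases h.cov v hv with h1 | h1
        · exact Or.inl (Finset.mem_insert_of_mem h1)
        · exact Or.inr h1
    · have h1 := h.sum_e
      simp only [RT.e]
      omega
    · intro h1
      rw [h.nil h1]
    · intro t ht
      have h1 := h.upper t ht
      by_cases h0 : L.length = 0
      · rw [h.nil h0]
        omega
      · have h2 := N_ext_le ht x₀
        by_cases h3 : x.h + 1 = t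
        · have h4 : (RT.ext x).N t = 1 := by simp only [RT.N, if_pos h3]
          omega
        · have h4 : (RT.ext x).N t = x.N t := by simp only [RT.N, if_neg h3]
          omega
    · intro t ht
      have h1 := h.lower t ht
      have h2 := N_ext_le ht x
      by_cases h0 : L.length = 0
      · rw [h.nil h0] at h1 ⊢
        have h5 : L = [] := List.length_eq_zero_iff.1 h0
        subst h5
        simp
      · by_cases h3 : x₀.h + 1 = t
        · have h4 : (RT.ext x₀).N t = 1 := by simp only [RT.N, if_pos h3]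
          have h5 : x₀.N t = 0 := (RT.N_eq_zero ht x₀).2 (by omega)
          rw [if_pos ⟨by omega, by omega⟩] at h1
          rw [if_neg (by
            rintro ⟨_, h6⟩
            have h7 : x₀.h + 1 < t := h6
            omega)]
          omega
        · have h4 : (RT.ext x₀).N t = x₀.N t := by simp only [RT.N, if_neg h3]
          have h5 : (RT.ext x₀).h = x₀.h + 1 := rfl
          rw [h4, h5]
          split_ifs at h1 ⊢ <;> omega
  | @join x y S T r HS HT hST ihS ihT =>
    obtain ⟨L, x₀, S₀, h, he⟩ := ihS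
    obtain ⟨M, y₀, T₀, g, ge⟩ := ihT
    refine cut_step (L := L ++ M) (x₀ := RT.join x₀ y₀) (S₀ := S₀ ∪ T₀) hs ?_ (by
      show x₀.e + y₀.e ≤ 2 * s - 1
      omega)
    constructor
    · intro z hz
      rcases List.mem_append.1 hz with hz | hz
      · exact h.piece z hz
      · exact g.piece z hz
    · refine Tr.join h.rest g.rest (Finset.Subset.antisymm ?_ ?_)
      · rw [← hST]
        exact Finset.inter_subset_inter h.sub g.sub
      · exact Finset.singleton_subset_iff.2 (Finset.mem_inter.2 ⟨h.rest.mem, g.rest.mem⟩)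
    · exact Finset.union_subset_union h.sub g.sub
    · intro v hv
      rcases Finset.mem_union.1 hv with hv | hv
      · rcases h.cov v hv with h1 | ⟨z, hz, hvz⟩
        · exact Or.inl (Finset.mem_union_left _ h1)
        · exact Or.inr ⟨z, List.mem_append_left _ hz, hvz⟩
      · rcases g.cov v hv with h1 | ⟨z, hz, hvz⟩
        · exact Or.inl (Finset.mem_union_right _ h1)
        · exact Or.inr ⟨z, List.mem_append_right _ hz, hvz⟩
    · have h1 := h.sum_e
      have h2 := g.sum_e
      simp only [RT.e, List.map_append, List.sum_append]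
      omega
    · intro h1
      rw [List.length_append] at h1
      rw [h.nil (by omega), g.nil (by omega)]
    · intro t ht
      have h1 := h.upper t ht
      have h2 := g.upper t ht
      simp only [RT.N, List.map_append, List.sum_append, List.length_append]
      omega
    · intro t ht
      have h1 := h.lower t ht
      have h2 := g.lower t ht
      simp only [RT.N, RT.h, List.map_append, List.sum_append, List.length_append]
      split_ifs at h1 h2 ⊢ <;> omega

theorem exists_pieces {x : RT} {S : Finset V} {r : V} (H : Tr G x S r) {s : ℕ} (hs : 0 < s) :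
    ∃ (m : ℕ) (y : Fin m → RT) (P : Fin m → Finset V) (q : Fin m → V) (x₀ : RT) (S₀ : Finset V),
      (∀ i, Tr G (y i) (P i) (q i)) ∧ (∀ i, s ≤ (y i).e) ∧ (∀ i, (y i).e ≤ 2 * s - 1) ∧
      Tr G x₀ S₀ r ∧ x₀.e < s ∧ (∀ v ∈ S, v ∈ S₀ ∨ ∃ i, v ∈ P i) ∧
      ∑ i, (y i).e + x₀.e = x.e ∧
      (∀ t, 1 ≤ t → x.N t ≤ ∑ i, (y i).N t + x₀.N t + m) ∧
      (∀ t, 1 ≤ t → ∑ i, (y i).N t + x₀.N t ≤ x.N t + m) := by
  obtain ⟨L, x₀, S₀, h, he⟩ := exists_cutting H hs
  have hsum : ∀ f : RT → ℕ, ∑ i : Fin L.length, f (L.get i).1 = (L.map (fun y => f y.1)).sum := by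
    intro f
    have h1 := Fin.sum_univ_fun_getElem L (fun y => f y.1)
    simpa using h1
  refine ⟨L.length, fun i => (L.get i).1, fun i => (L.get i).2.1, fun i => (L.get i).2.2, x₀, S₀,
    fun i => (h.piece _ (List.get_mem L i)).1, fun i => (h.piece _ (List.get_mem L i)).2.1,
    fun i => (h.piece _ (List.get_mem L i)).2.2, h.rest, he, ?_, ?_, ?_, ?_⟩
  · intro v hv
    rcases h.cov v hv with h1 | ⟨z, hz, hvz⟩
    · exact Or.inl h1
    · obtain ⟨i, rfl⟩ := List.mem_iff_get.1 hz
      exact Or.inr ⟨i, hvz⟩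
  · rw [hsum (fun z => z.e)]
    exact h.sum_e
  · intro t ht
    rw [hsum (fun z => z.N t)]
    exact h.upper t ht
  · intro t ht
    have h1 := h.lower t ht
    rw [hsum (fun z => z.N t)]
    omega

end Pool.Agent.Helper51.ST
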