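import Pool.Agent.Helper55.BR.Main
import Pool.Agent.Helper55.BR.RoundPieces

/-! # Project ST, module ST-R: rounding for given pieces -/

set_option autoImplicit false

namespace Pool.Agent.Helper51.ST

open Finset N441b2449 Pool.Agent.Helper51.BN

open Pool.Agent.Helper55.BR in
/-- The proof is the one of `Pool.Agent.Helper55.BR.main`, with general pieces; the constraints
are the numbers of balls of radius at least `R`, so that only monotone prices occur. -/
theorem round_pieces {V : Type*} [Fintype V] {G : SimpleGraph V} (hG : G.Connected)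
    {k m T s X : ℕ} (hk : 0 < k) (P : Fin m → Finset V) (S₀ : Finset V)
    (hcov : ∀ v, v ∈ S₀ ∨ ∃ i, v ∈ P i)
    (htop : ∀ i, ∃ Z : Finset V, Z.card ≤ T ∧ ∀ v ∈ P i, ∃ z ∈ Z, G.dist z v ≤ k - 1)
    (htop₀ : ∃ Z : Finset V, Z.card ≤ T ∧ ∀ v ∈ S₀, ∃ z ∈ Z, G.dist z v ≤ k - 1)
    (hcost : ∀ g : ℕ → ℝ, (∀ i, 0 ≤ g i) → Monotone g → ∃ C : Fin m → Finset (V × ℕ),
      (∀ i, ∀ p ∈ C i, p.2 < k) ∧ (∀ i, ∀ v ∈ P i, ∃ p ∈ C i, G.dist p.1 v ≤ p.2) ∧
      ∑ i, cost g (C i) ≤ ∑ r ∈ range k, g r)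
    {Y δ : ℝ} (hY : 0 < Y) (hδ8 : 8 ≤ δ) (hδ : Y * Real.exp (-(δ / 4)) ≤ 1)
    (hs : (m : ℝ) ≤ 2 ^ s * δ) (h0 : (k : ℝ) + s * (T * δ + 1) ≤ Y)
    (hX : (s : ℝ) * (T * δ + 1) + T * δ < X) :
    burningNumber G ≤ k + X + T := by
  classical
  let CC : Fin m → Finset (Finset (V × ℕ)) := fun i =>
    ((univ : Finset V) ×ˢ range k).powerset.filter fun C => ∀ v ∈ P i, ∃ p ∈ C,
      G.dist p.1 v ≤ p.2
  have hCC : ∀ i C, C ∈ CC i ↔ (∀ p ∈ C, p.2 < k) ∧ ∀ v ∈ P i, ∃ p ∈ C,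
      G.dist p.1 v ≤ p.2 := by
    intro i C
    show C ∈ ((univ : Finset V) ×ˢ range k).powerset.filter _ ↔ _
    rw [Finset.mem_filter, Finset.mem_powerset]
    refine and_congr_left fun _ => ⟨fun h p hp => ?_, fun h p hp => ?_⟩
    · have := h hp
      rw [Finset.mem_product, Finset.mem_range] at this
      exact this.2
    · rw [Finset.mem_product, Finset.mem_range]
      exact ⟨mem_univ _, h p hp⟩
  let U : Fin m → Finset (Fin k → ℝ) := fun i => (CC i).image (lv k)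
  have hUex : ∀ i, ∀ u ∈ U i, ∃ C ∈ CC i, lv k C = u := fun i u hu => Finset.mem_image.1 hu
  -- the fractional solution
  obtain ⟨x, hx0, hx1, hxa⟩ := exists_frac U (by
      intro i
      obtain ⟨C, h1, h2, _⟩ := hcost (fun _ => 0) (fun _ => le_rfl) monotone_const
      exact ⟨lv k (C i), Finset.mem_image_of_mem _ ((hCC i _).2 ⟨h1 i, h2 i⟩)⟩)
      (fun R => (k : ℝ) - (R : ℕ)) (by
      intro y hy
      obtain ⟨C, h1, h2, h3⟩ := hcost (pr y) (pr_nonneg hy) (pr_mono hy)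
      refine ⟨fun i => lv k (C i),
        fun i => Finset.mem_image_of_mem _ ((hCC i _).2 ⟨h1 i, h2 i⟩), ?_⟩
      rw [Finset.sum_congr rfl fun i _ => sum_lv y (C i), ← sum_pr]
      exact h3)
  choose Z hZ hZ2 using htop
  have htopC : ∀ i, (Z i).image (fun z => (z, k - 1)) ∈ CC i := by
    intro i
    rw [hCC]
    refine ⟨fun p hp => ?_, fun v hv => ?_⟩
    · obtain ⟨z, _, rfl⟩ := Finset.mem_image.1 hp
      show k - 1 < k
      omega
    · obtain ⟨z, hz, hd⟩ := hZ2 i v hv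
      exact ⟨(z, k - 1), Finset.mem_image_of_mem _ hz, hd⟩
  have hpcs : Pcs (univ : Finset (Fin m)) U (NN (k := k))
      (fun i => lv k ((Z i).image (fun z => (z, k - 1)))) (T : ℝ) := by
    refine ⟨fun i _ u hu R => ?_, fun i _ u hu R R' hR => ?_, ⟨k, fun i _ u _ => ?_⟩,
      fun i _ => Finset.mem_image_of_mem _ (htopC i), fun i _ => ?_⟩
    · obtain ⟨C, hC, rfl⟩ := hUex i u hu
      rw [NN_lv C ((hCC i C).1 hC).1]
      exact Nat.cast_nonneg _
    · obtain ⟨C, hC, rfl⟩ := hUex i u hu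
      rw [NN_lv C ((hCC i C).1 hC).1, NN_lv C ((hCC i C).1 hC).1]
      exact_mod_cast Finset.card_le_card fun p hp => by
        rw [Finset.mem_filter] at hp ⊢
        exact ⟨hp.1, hR.trans hp.2⟩
    · unfold NN
      rw [dif_neg (lt_irrefl _)]
    · rw [NN_lv _ ((hCC i _).1 (htopC i)).1]
      exact_mod_cast (Finset.card_filter_le _ _).trans (Finset.card_image_le.trans (hZ i))
  have hfr : Fr (univ : Finset (Fin m)) U x := ⟨fun i _ u _ => hx0 i u, fun i _ => hx1 i⟩
  have huse : ∀ R, R < k → use univ U x (fun u => NN u R) ≤ (k : ℝ) - R := by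
    intro R hR
    unfold use NN
    simp only [dif_pos hR]
    exact hxa ⟨R, hR⟩
  -- the rounding
  have hm' : (((univ : Finset (Fin m)).card : ℕ) : ℝ) ≤ 2 ^ s * δ := by
    rw [Finset.card_univ, Fintype.card_fin]
    exact hs
  obtain ⟨c, hc1, hc2⟩ := round hpcs (Nat.cast_nonneg T) hY hδ8 hδ s hfr hm' (by
    have h1 := huse 0 hk
    push_cast at h1
    linarith)
  have hex : ∀ i, ∃ C ∈ CC i, lv k C = c i := fun i => hUex i _ (hc1 i (mem_univ i))
  choose C hC hCc using hex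
  obtain ⟨Z0, hZ0, hZ02⟩ := htop₀
  -- the balls
  let B : Finset ((Fin m × (V × ℕ)) ⊕ V) :=
    (univ.biUnion fun i => (C i).image fun p => (i, p)).disjSum Z0
  have hBl : ∀ b : Fin m × (V × ℕ), Sum.inl b ∈ B ↔ b.2 ∈ C b.1 := by
    intro b
    rw [Finset.inl_mem_disjSum, Finset.mem_biUnion]
    constructor
    · rintro ⟨i, _, hi⟩
      obtain ⟨p, hp, rfl⟩ := Finset.mem_image.1 hi
      exact hp
    · intro h
      exact ⟨b.1, mem_univ _, Finset.mem_image.2 ⟨b.2, h, rfl⟩⟩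
  have hBr : ∀ z : V, Sum.inr z ∈ B ↔ z ∈ Z0 := fun z => Finset.inr_mem_disjSum
  let cl : (Fin m × (V × ℕ)) ⊕ V → ℕ := Sum.elim (fun z => z.2.2) (fun _ => k - 1)
  let ce : (Fin m × (V × ℕ)) ⊕ V → V := Sum.elim (fun z => z.2.1) id
  have hcl1 : ∀ b ∈ B, cl b < k := by
    rintro (z | z) hz
    · exact ((hCC z.1 _).1 (hC z.1)).1 _ ((hBl z).1 hz)
    · show k - 1 < k
      omega
  have hcount : ∀ R, R < k → (B.filter fun b' => R ≤ cl b').card ≤ k - R + X + T := by
    intro R hRk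
    have e1 : (B.filter fun b' => R ≤ cl b').card ≤
        (∑ i, ((C i).filter fun p => R ≤ p.2).card) + Z0.card := by
      have e2 : (B.filter fun b' => R ≤ cl b') ⊆
          ((univ : Finset (Fin m)).sigma fun i => (C i).filter fun p => R ≤ p.2).image
            (fun z => (Sum.inl (z.1, z.2) : (Fin m × (V × ℕ)) ⊕ V)) ∪
          Z0.image Sum.inr := by
        intro b hb
        rw [Finset.mem_filter] at hb
        rcases b with z | z
        · refine Finset.mem_union_left _ (Finset.mem_image.2 ⟨⟨z.1, z.2⟩, ?_, rfl⟩)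
          rw [Finset.mem_sigma]
          exact ⟨mem_univ _, Finset.mem_filter.2 ⟨(hBl z).1 hb.1, hb.2⟩⟩
        · exact Finset.mem_union_right _ (Finset.mem_image.2 ⟨z, (hBr z).1 hb.1, rfl⟩)
      refine (Finset.card_le_card e2).trans ((Finset.card_union_le _ _).trans ?_)
      refine Nat.add_le_add (Finset.card_image_le.trans ?_) Finset.card_image_le
      rw [Finset.card_sigma]
    have e3 : ((∑ i, ((C i).filter fun p => R ≤ p.2).card : ℕ) : ℝ) =
        ∑ i, NN (c i) R := by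
      rw [Nat.cast_sum]
      refine Finset.sum_congr rfl fun i _ => ?_
      rw [← hCc i, NN_lv _ ((hCC i _).1 (hC i)).1]
    have e4 : ((∑ i, ((C i).filter fun p => R ≤ p.2).card : ℕ) : ℝ) <
        ((k - R + X : ℕ) : ℝ) := by
      rw [e3]
      have h1 := hc2 R
      have h2 := huse R hRk
      rw [Nat.cast_add, Nat.cast_sub hRk.le]
      linarith
    have e5 : (∑ i, ((C i).filter fun p => R ≤ p.2).card) < k - R + X := by
      exact_mod_cast e4
    omega
  refine (burning_of_balls hG (k + X + T) cl ce B ?_ ?_)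
  · intro b hb
    have h2 := hcl1 b hb
    have h3 := hcount (cl b) h2
    omega
  · intro v
    rcases hcov v with hv | ⟨i, hv⟩
    · obtain ⟨z, hz, hz2⟩ := hZ02 v hv
      exact ⟨Sum.inr z, (hBr z).2 hz, hz2⟩
    · obtain ⟨p, hp, hp2⟩ := ((hCC i _).1 (hC i)).2 v hv
      exact ⟨Sum.inl (i, p), (hBl (i, p)).2 hp, hp2⟩

end Pool.Agent.Helper51.ST
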