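import Pool.Agent.Helper51.ST.Defs

/-! # Project ST, module ST-15: the choice of the scale -/

set_option autoImplicit false

namespace Pool.Agent.Helper51.ST

open Finset Pool.Agent.Helper51.BN

/-- `n` is the largest radius; `ρ` is the price of an edge. -/
theorem exists_scale {g : ℕ → ℝ} (hg : ∀ i, 0 ≤ g i) (hm : Monotone g) {n : ℕ} (hn : 1 ≤ n)
    (hpos : 0 < g n) {η : ℝ} (hη : 0 < η) (hη1 : η ≤ 1) :
    ∃ (b : ℕ) (ρ : ℝ), 1 ≤ b ∧ b ≤ n ∧ 0 < ρ ∧ CF g b (ρ * (2 * b + 1)) ∧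
      η * n ^ 2 ≤ 3 * b ^ 2 ∧
      ρ * (n * (2 * n + 1)) = (1 + η) * (g 0 + 2 * ∑ j ∈ Icc 1 n, g j) := by
  classical
  set S : ℕ → ℝ := fun t => g 0 + 2 * ∑ j ∈ Icc 1 t, g j with hS
  have hn' : (1 : ℝ) ≤ n := by exact_mod_cast hn
  have hSn : 0 < S n := by
    have h1 : g n ≤ ∑ j ∈ Icc 1 n, g j :=
      single_le_sum (f := g) (fun i _ => hg i) (mem_Icc.2 ⟨hn, le_rfl⟩)
    have h2 := hg 0
    simp only [hS]
    linarith
  set D : ℝ := n * (2 * n + 1) with hD
  have hDpos : 0 < D := by rw [hD]; positivity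
  set ρ : ℝ := (1 + η) * S n / D with hρ
  have hρpos : 0 < ρ := by rw [hρ]; positivity
  have hρD : ρ * D = (1 + η) * S n := by
    rw [hρ]
    field_simp
  set φ : ℕ → ℝ := fun t => S t - ρ * (t * (2 * t + 1)) with hφ
  obtain ⟨b, hbm, hbmin⟩ := exists_min_image (range (n + 1)) φ ⟨0, mem_range.2 (Nat.succ_pos n)⟩
  have hbn : b ≤ n := Nat.lt_succ_iff.1 (mem_range.1 hbm)
  have hφn : φ n = -(η * S n) := by
    simp only [hφ]
    rw [← hD, hρD]
    ring
  have hφb : φ b ≤ -(η * S n) := by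
    rw [← hφn]
    exact hbmin n (mem_range.2 (Nat.lt_succ_self n))
  have hneg : φ b < 0 := by
    have : 0 < η * S n := mul_pos hη hSn
    linarith
  have hφ0 : φ 0 = g 0 := by
    simp [hφ, hS]
  have hb1 : 1 ≤ b := by
    rcases Nat.eq_zero_or_pos b with h | h
    · rw [h, hφ0] at hneg
      exact absurd hneg (not_lt.2 (hg 0))
    · exact h
  refine ⟨b, ρ, hb1, hbn, hρpos, ⟨hg, fun i j hij _ => hm hij, ?_, ?_⟩, ?_, ?_⟩
  · obtain ⟨c, rfl⟩ : ∃ c, b = c + 1 := ⟨b - 1, by omega⟩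
    have h1 : φ (c + 1) ≤ φ c := hbmin c (mem_range.2 (by omega))
    have h2 : S (c + 1) = S c + 2 * g (c + 1) := by
      simp only [hS]
      rw [sum_Icc_succ_top (by omega)]
      ring
    simp only [hφ, h2] at h1
    push_cast at h1 ⊢
    nlinarith [hρpos]
  · have h1 : S b - ρ * (b * (2 * b + 1)) < 0 := hneg
    have h2 : ρ * (2 * (b : ℝ) + 1) * b = ρ * (b * (2 * b + 1)) := by ring
    rw [h2]
    exact (sub_neg.1 h1).le
  · have h1 : S b - ρ * (b * (2 * b + 1)) ≤ -(η * S n) := hφb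
    have hSb : 0 ≤ S b := by
      simp only [hS]
      have := hg 0
      have h3 : 0 ≤ ∑ j ∈ Icc 1 b, g j := sum_nonneg fun i _ => hg i
      linarith
    have h2 : η * S n ≤ ρ * (b * (2 * b + 1)) := by linarith
    have h3 : η * S n * D ≤ (1 + η) * S n * (b * (2 * b + 1)) := by
      calc η * S n * D ≤ ρ * (b * (2 * b + 1)) * D := mul_le_mul_of_nonneg_right h2 hDpos.le
        _ = (ρ * D) * (b * (2 * b + 1)) := by ring
        _ = (1 + η) * S n * (b * (2 * b + 1)) := by rw [hρD]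
    have h4 : η * D ≤ (1 + η) * (b * (2 * b + 1)) := by
      have h5 : S n * (η * D) ≤ S n * ((1 + η) * (b * (2 * b + 1))) := by
        calc S n * (η * D) = η * S n * D := by ring
          _ ≤ _ := h3
          _ = _ := by ring
      exact le_of_mul_le_mul_left h5 hSn
    have hb' : (1 : ℝ) ≤ b := by exact_mod_cast hb1
    have h6 : (1 + η) * (b * (2 * b + 1)) ≤ 2 * (b * (3 * b)) := by
      apply mul_le_mul
      · linarith
      · apply mul_le_mul_of_nonneg_left _ (by linarith)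
        linarith
      · positivity
      · norm_num
    have h7 : η * (n : ℝ) ^ 2 * 2 ≤ η * D := by
      rw [hD]
      nlinarith [mul_pos hη (lt_of_lt_of_le one_pos hn')]
    nlinarith
  · exact hρD

end Pool.Agent.Helper51.ST
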