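import Pool.Agent.Helper51.ST.Span
import Pool.Agent.Helper51.ST.Pieces
import Pool.Agent.Helper51.ST.Scale
import Pool.Agent.Helper51.ST.Nonflat
import Pool.Agent.Helper51.ST.Flat
import Pool.Agent.Helper51.ST.Param
import Pool.Agent.Helper51.ST.RoundPieces

/-! # Project ST, module ST-18: stability -/

set_option autoImplicit false

namespace Pool.Agent.Helper51.ST

open Finset Pool.Agent.Helper51.BN N441b2449

universe u

/-- The price belongs to a scale. -/
private theorem exists_price {g : ℕ → ℝ} (hg : ∀ i, 0 ≤ g i) (hm : Monotone g) {k L : ℕ}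
    (hL : 2 ≤ L) (hk : 17 * L ≤ k) (hpos : 0 < g (k - L - 1)) :
    ∃ (b : ℕ) (ρ : ℝ), Price g k L b ρ := by
  obtain ⟨n, hn⟩ : ∃ n, n = k - L - 1 := ⟨_, rfl⟩
  have hkn : k = n + L + 1 := by omega
  rw [← hn] at hpos
  have hn1 : 1 ≤ n := by omega
  have hkr : (0 : ℝ) < k := by
    have : 0 < k := by omega
    exact_mod_cast this
  have hLr : (2 : ℝ) ≤ L := by exact_mod_cast hL
  have hLk : (17 : ℝ) * L ≤ k := by exact_mod_cast hk
  have hη : 0 < (L : ℝ) / k := by positivity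
  have hη1 : (L : ℝ) / k ≤ 1 := by
    rw [div_le_one hkr]
    linarith
  obtain ⟨b, ρ, hb1, hbn, hρ, hcf, hb2, htot⟩ := exists_scale hg hm hn1 hpos hη hη1
  have hnr : (n : ℝ) = k - L - 1 := by
    rw [hkn]
    push_cast
    ring
  refine ⟨b, ρ, hg, hm, hρ, hb1, by omega, ?_, hcf, ?_⟩
  · have h1 : (k : ℝ) * L ≤ 12 * b ^ 2 := by
      have h2 : (k : ℝ) / 2 ≤ n := by
        rw [hnr]
        linarith
      have h3 : ((k : ℝ) / 2) ^ 2 ≤ (n : ℝ) ^ 2 := pow_le_pow_left₀ (by positivity) h2 2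
      have h4 : (L : ℝ) / k * ((k : ℝ) / 2) ^ 2 ≤ L / k * n ^ 2 :=
        mul_le_mul_of_nonneg_left h3 hη.le
      have h5 : (L : ℝ) / k * ((k : ℝ) / 2) ^ 2 = k * L / 4 := by
        field_simp
        ring
      linarith
    exact_mod_cast h1
  · have h1 : g 0 + 2 * ∑ j ∈ Icc 1 n, g j ≤ 2 * ∑ r ∈ range (k - L), g r := by
      have h2 : k - L = n + 1 := by omega
      rw [h2, Finset.sum_range_succ']
      have h3 : ∑ j ∈ Icc 1 n, g j = ∑ i ∈ range n, g (i + 1) := by
        rw [Finset.range_eq_Ico, Finset.sum_Ico_add' (fun i => g i) 0 n 1]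
        apply Finset.sum_congr _ fun _ _ => rfl
        ext i
        simp only [Finset.mem_Icc, Finset.mem_Ico]
        omega
      rw [h3]
      have := hg 0
      linarith
    have hS : 0 ≤ ∑ r ∈ range (k - L), g r := Finset.sum_nonneg fun i _ => hg i
    have h2 : ρ * (n * (2 * n + 1)) ≤ (1 + (L : ℝ) / k) * (2 * ∑ r ∈ range (k - L), g r) := by
      rw [htot]
      exact mul_le_mul_of_nonneg_left h1 (by positivity)
    have h3 : ρ * (n : ℝ) ^ 2 ≤ (1 + (L : ℝ) / k) * ∑ r ∈ range (k - L), g r := by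
      have h4 : 0 ≤ ρ * (n : ℝ) := by positivity
      nlinarith
    have h4 : (1 + (L : ℝ) / k) * (ρ * ((k : ℝ) ^ 2 - 4 * k * L)) ≤ ρ * (n : ℝ) ^ 2 := by
      have h5 : (1 + (L : ℝ) / k) * (ρ * ((k : ℝ) ^ 2 - 4 * k * L)) =
          ρ * ((k : ℝ) ^ 2 - 3 * k * L - 4 * L ^ 2) := by
        field_simp
        ring
      rw [h5]
      refine mul_le_mul_of_nonneg_left ?_ hρ.le
      rw [hnr]
      nlinarith
    have h5 : 0 < 1 + (L : ℝ) / k := by positivity
    exact le_of_mul_le_mul_left (h4.trans h3) h5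

/-- A tree with at most `k ^ 2` edges whose burning number exceeds `k` either has at least
`(1 - δ) * k` long paths of length at least `(1 - 3 * δ₁) * k` in its long path decomposition, or
at most `l` long paths of length at least `l = c * k / log k`. -/
theorem stability {δ δ₁ c : ℝ} (hδ : 0 < δ) (hδ' : δ ≤ 1) (hδ₁ : 0 < δ₁) (hδ₁' : δ₁ ≤ 1 / 10)
    (hc : 0 < c) (hc1 : c ≤ 1) :
    ∃ k₀ : ℕ, ∀ {V : Type u} [Fintype V] [DecidableEq V] {G : SimpleGraph V}, G.Connected →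
      ∀ {k : ℕ} {x : RT} {r : V}, Tr G x univ r → k₀ ≤ k → x.e ≤ k ^ 2 →
      k < burningNumber G →
      (1 - δ) * k ≤ x.N ⌈(1 - 3 * δ₁) * k⌉₊ ∨
      x.N ⌊c * k / Real.log k⌋₊ ≤ ⌊c * k / Real.log k⌋₊ := by
  obtain ⟨ε, hε, hε1, kf, hflat⟩ := flat_total.{u} hδ hδ' hδ₁ hδ₁'
  obtain ⟨Λ, hnon⟩ := nonflat_total.{u} hε hε1 hc hc1
  obtain ⟨k₀, hk₀⟩ := exists_param Λ (max kf ⌈1 / (4 * δ)⌉₊)
  refine ⟨k₀, fun {V} _ _ {G} hG {k x r} H hk he hburn => ?_⟩
  obtain ⟨A, L, s, X, Y, δ', hA1, hA2, hk1, hΛ, hlog, hAL, hL2, hL4, hL17, hLX, hY, hδ8, hYδ,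
    hs, h0, hX⟩ := hk₀ k hk
  by_contra hcon
  push Not at hcon
  obtain ⟨hN1, hN2⟩ := hcon
  have hkf : kf ≤ k := (le_max_left _ _).trans hk1
  have hAf : kf ≤ A := (le_max_left _ _).trans hA2
  have hAδ : 1 / (4 * δ) ≤ A := by
    have h1 : ⌈1 / (4 * δ)⌉₊ ≤ A := (le_max_right _ _).trans hA2
    exact (Nat.le_ceil _).trans (by exact_mod_cast h1)
  have hkpos : 0 < k := by omega
  have hkr : (0 : ℝ) < k := by exact_mod_cast hkpos
  have hspos : 0 < 8 * A * k := by positivity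
  obtain ⟨m, y, P, q, x₀, S₀, htr, hbig, hle, H₀, hx₀, hcov, hsum, hNA, hNB⟩ :=
    exists_pieces H hspos
  have hcnt : 8 * A * m ≤ k := by
    have h1 : m * (8 * A * k) ≤ ∑ i, (y i).e := by
      have h2 := Finset.card_nsmul_le_sum (univ : Finset (Fin m)) (fun i => (y i).e) (8 * A * k)
        (fun i _ => hbig i)
      simpa using h2
    have h3 : (8 * A * m) * k ≤ k * k := by
      calc (8 * A * m) * k = m * (8 * A * k) := by ring
        _ ≤ ∑ i, (y i).e := h1
        _ ≤ k ^ 2 := by omega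
        _ = k * k := by ring
    exact Nat.le_of_mul_le_mul_right h3 hkpos
  have hmk : m ≤ k := by
    have h1 : 1 * m ≤ 8 * A * m := Nat.mul_le_mul_right m (by omega)
    omega
  have hD : Data G k A L m y P q := by
    refine ⟨hG, htr, fun i => ?_, by omega, hL2, hL4, hcnt⟩
    have h1 : 8 * k * 1 ≤ 8 * k * A := Nat.mul_le_mul_left _ hA1
    have h2 := hbig i
    have h3 : 8 * A * k = 8 * k * A := by ring
    omega
  have hkL : 0 < k - L := by omega
  have hgr : ∀ (x' : RT) (S' : Finset V) (r' : V), Tr G x' S' r' → x'.e < 16 * A * k →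
      ∃ Z : Finset V, Z.card ≤ 18 * A ∧ ∀ v ∈ S', ∃ z ∈ Z, G.dist z v ≤ k - L - 1 := by
    intro x' S' r' H' he'
    obtain ⟨Z, hZ, hZ2⟩ := exists_greedy hG H'.built (k - L - 1)
    refine ⟨Z, hZ.trans ?_, hZ2⟩
    have h1 : k - L - 1 + 1 = k - L := by omega
    rw [h1]
    have h2 : x'.e / (k - L) < 17 * A := by
      rw [Nat.div_lt_iff_lt_mul hkL]
      have h3 : 16 * k ≤ 17 * (k - L) := by omega
      calc x'.e < 16 * A * k := he'
        _ = A * (16 * k) := by ring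
        _ ≤ A * (17 * (k - L)) := Nat.mul_le_mul_left _ h3
        _ = 17 * A * (k - L) := by ring
    omega
  have htop : ∀ i, ∃ Z : Finset V, Z.card ≤ 18 * A ∧
      ∀ v ∈ P i, ∃ z ∈ Z, G.dist z v ≤ k - L - 1 := by
    intro i
    refine hgr (y i) (P i) (q i) (htr i) ?_
    have h1 := hle i
    have h2 : 2 * (8 * A * k) = 16 * A * k := by ring
    omega
  have htop₀ : ∃ Z : Finset V, Z.card ≤ 18 * A ∧
      ∀ v ∈ S₀, ∃ z ∈ Z, G.dist z v ≤ k - L - 1 := by
    refine hgr x₀ S₀ r H₀ ?_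
    have h2 : 2 * (8 * A * k) = 16 * A * k := by ring
    omega
  have hcost : ∀ g : ℕ → ℝ, (∀ i, 0 ≤ g i) → Monotone g → Cheap G g k L P := by
    intro g hg hm
    rcases (hg (k - L - 1)).eq_or_lt with hz | hpos
    · choose Z _ hZ using htop
      refine ⟨fun i => Z i ×ˢ {k - L - 1}, fun i p hp => ?_, fun i v hv => ?_, ?_⟩
      · rw [Finset.mem_product, Finset.mem_singleton] at hp
        omega
      · obtain ⟨z, hz, hzv⟩ := hZ i v hv
        exact ⟨(z, k - L - 1), by simp [hz], hzv⟩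
      · have h1 : ∀ i, cost g (Z i ×ˢ {k - L - 1}) = 0 := by
          intro i
          refine Finset.sum_eq_zero fun p hp => ?_
          rw [Finset.mem_product, Finset.mem_singleton] at hp
          rw [hp.2, ← hz]
        rw [Finset.sum_congr rfl fun i _ => h1 i, Finset.sum_const_zero]
        exact Finset.sum_nonneg fun i _ => hg i
    · obtain ⟨b, ρ, hpr⟩ := exists_price hg hm hL2 hL17 hpos
      by_cases hnf : NF g b (ρ * (2 * b + 1)) ε
      · have hlogk : 0 ≤ Real.log k := Real.log_nonneg (by exact_mod_cast hkpos)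
        exact hnon hD hpr hΛ hlog hAL hx₀.le hNA (Nat.lt_floor_add_one _).le
          (Nat.floor_le (by positivity)) hN2 hnf
      · refine hflat hD hpr hkf hAf hnf ?_
        have ht : 1 ≤ ⌈(1 - 3 * δ₁) * (k : ℝ)⌉₊ := by
          rw [Nat.one_le_ceil_iff]
          have h1 : 0 < 1 - 3 * δ₁ := by linarith
          positivity
        have h1 := hNB _ ht
        have h2 : ((∑ i, (y i).N ⌈(1 - 3 * δ₁) * (k : ℝ)⌉₊ : ℕ) : ℝ) ≤
            x.N ⌈(1 - 3 * δ₁) * (k : ℝ)⌉₊ + m := by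
          have h3 : ∑ i, (y i).N ⌈(1 - 3 * δ₁) * (k : ℝ)⌉₊ ≤
            x.N ⌈(1 - 3 * δ₁) * (k : ℝ)⌉₊ + m := by omega
          exact_mod_cast h3
        have h3 : (m : ℝ) ≤ δ / 2 * k := by
          have h4 : (8 : ℝ) * A * m ≤ k := by exact_mod_cast hcnt
          have h5 : 1 ≤ 4 * δ * A := by
            rw [div_le_iff₀ (by positivity)] at hAδ
            linarith
          have h6 : (m : ℝ) * 1 ≤ m * (4 * δ * A) :=
            mul_le_mul_of_nonneg_left h5 (Nat.cast_nonneg m)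
          have h7 : (m : ℝ) * (4 * δ * A) = δ / 2 * (8 * A * m) := by ring
          have h8 : δ / 2 * (8 * A * m) ≤ δ / 2 * k :=
            mul_le_mul_of_nonneg_left h4 (by positivity)
          linarith
        linarith
  have hfin : burningNumber G ≤ (k - L) + X + 18 * A := by
    refine round_pieces hG hkL P S₀ (fun v => hcov v (Finset.mem_univ v)) htop htop₀ hcost
      hY hδ8 hYδ ?_ ?_ hX
    · have h1 : (m : ℝ) ≤ k := by exact_mod_cast hmk
      exact h1.trans hs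
    · have h1 : ((k - L : ℕ) : ℝ) ≤ k := by exact_mod_cast Nat.sub_le k L
      linarith
  omega

end Pool.Agent.Helper51.ST
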