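import Pool.Agent.Helper51.ST.Leg

/-! # Project ST, module ST-10: trees with several long paths -/

set_option autoImplicit false

namespace Pool.Agent.Helper51.ST

open Finset Pool.Agent.Helper51.BN

variable {V : Type*} [Fintype V] [DecidableEq V] {G : SimpleGraph V}

/-- The bound for the sum `X`, with gain `R`. -/
private def XB (G : SimpleGraph V) (g : ℕ → ℝ) (b : ℕ) (K : ℝ) (x : RT) (S : Finset V) (r : V)
    (R : ℝ) : Prop :=
  (x.h ≤ b → X G g b S r x.h ≤ g 0 + 2 * ∑ j ∈ Icc 1 x.h, g j + K * ((x.e : ℝ) - x.h) - R) ∧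
    (b ≤ x.h → X G g b S r b ≤ K * x.e - R)

/-- The bound for the two sums `M`, with gain `Q`. -/
private def UB (G : SimpleGraph V) (g : ℕ → ℝ) (b : ℕ) (K : ℝ) (x : RT) (S : Finset V) (r : V)
    (Q : ℝ) : Prop :=
  ∀ m ≤ b, M G g b S r m + M G g b S r (m + 1) ≤ K * x.e - Q

private theorem XB.mono {g : ℕ → ℝ} {b : ℕ} {K : ℝ} {x : RT} {S : Finset V} {r : V} {R R' : ℝ}
    (h : XB G g b K x S r R) (hR : R' ≤ R) : XB G g b K x S r R' :=
  ⟨fun h1 => (h.1 h1).trans (by linarith), fun h1 => (h.2 h1).trans (by linarith)⟩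

private theorem XB.comm {g : ℕ → ℝ} {b : ℕ} {K : ℝ} {x y : RT} {S T : Finset V} {r : V} {R : ℝ}
    (h : XB G g b K (RT.join y x) (T ∪ S) r R) : XB G g b K (RT.join x y) (S ∪ T) r R := by
  have h1 : (RT.join x y).h = (RT.join y x).h := max_comm _ _
  have h2 : (RT.join x y).e = (RT.join y x).e := add_comm _ _
  unfold XB at h ⊢
  rw [h1, h2, Finset.union_comm S T]
  exact h

private theorem keep (hG : G.Connected) {g : ℕ → ℝ} {b : ℕ} {K : ℝ} (hg : CF g b K)
    {x y : RT} {S T : Finset V} {r : V} {R Q : ℝ} (hS : XB G g b K x S r R)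
    (hT : UB G g b K y T r Q) (hh : y.h ≤ x.h ∨ (b ≤ x.h ∧ b ≤ y.h)) :
    XB G g b K (RT.join x y) (S ∪ T) r (R + Q) := by
  have h0 : (RT.join x y).h = max x.h y.h := rfl
  have he : ((RT.join x y).e : ℝ) = (x.e : ℝ) + y.e := by
    have : (RT.join x y).e = x.e + y.e := rfl
    rw [this]
    push_cast
    ring
  constructor
  · intro h1
    rw [h0] at h1 ⊢
    have hx : x.h ≤ b := (le_max_left _ _).trans h1
    have hy : y.h ≤ b := (le_max_right _ _).trans h1
    have hyx : y.h ≤ x.h := by
      rcases hh with h | h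
      · exact h
      · omega
    rw [max_eq_left hyx, he]
    have h2 := hS.1 hx
    have h3 := X_join hG hg.nonneg hx S T r
    have h4 := hT x.h hx
    linarith
  · intro h1
    rw [h0] at h1
    have hx : b ≤ x.h := by
      rcases hh with h | h
      · rwa [max_eq_left h] at h1
      · exact h.1
    have h2 := hS.2 hx
    have h3 := X_join hG hg.nonneg (le_refl b) S T r
    have h4 := hT b le_rfl
    rw [he]
    linarith

/-- Beyond the height the sums `M` are constant. -/
private theorem M_const {g : ℕ → ℝ} (hg : ∀ i, 0 ≤ g i) {b h : ℕ} {S : Finset V} {r : V}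
    (hS : ∀ v ∈ S, G.dist r v ≤ h) {m : ℕ} (hm : h ≤ m) : M G g b S r m = M G g b S r h := by
  unfold M
  rw [← Finset.sum_range_add_sum_Ico _ hm]
  have h1 : ∑ i ∈ Ico h m, F G g b S r (-(i : ℤ) - 1) = 0 := by
    refine Finset.sum_eq_zero fun i hi => ?_
    rw [Finset.mem_Ico] at hi
    exact F_zero hg hS (by omega)
  rw [h1, add_zero]

private theorem g_sum_le {g : ℕ → ℝ} {b : ℕ} {K : ℝ} (hg : CF g b K) {h : ℕ} (hh : h ≤ b) :
    g 0 + 2 * ∑ j ∈ Icc 1 h, g j ≤ K * h + 2 * K := by
  have h1 := BN.sum_range_le hg hh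
  have h2 : ∑ j ∈ range (h + 1), g j = g 0 + ∑ j ∈ Icc 1 h, g j := by
    have h6 : Icc 1 h = Ico 1 (h + 1) := by
      ext j
      simp only [Finset.mem_Icc, Finset.mem_Ico]
      omega
    rw [h6, Finset.range_eq_Ico]
    exact Finset.sum_eq_sum_Ico_succ_bot (Nat.succ_pos h) _
  have h3 : ∑ j ∈ range (h + 1), g j = ∑ j ∈ range h, g j + g h := Finset.sum_range_succ _ _
  have h4 : g h ≤ K := (hg.mono h b hh le_rfl).trans hg.top
  have h5 := hg.nonneg 0
  linarith

private theorem UB_of_XB {g : ℕ → ℝ} {b : ℕ} {K : ℝ} (hG : G.Connected) (hg : CF g b K)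
    {x : RT} {S : Finset V} {r : V} {R : ℝ} (H : Tr G x S r)
    (h : XB G g b K x S r (R + 2 * K)) : UB G g b K x S r R := by
  have hK : 0 ≤ K := (hg.nonneg b).trans hg.top
  intro m hm
  rcases le_total b x.h with hb | hb
  · have h1 := h.2 hb
    have h2 := M_le_X (G := G) hg.nonneg (le_refl b) S r
    have h3 := M_mono (G := G) hg.nonneg b S r hm
    have h4 := M_mono (G := G) hg.nonneg b S r (Nat.succ_le_succ hm)
    have h5 : M G g b S r m + M G g b S r (m + 1) ≤ M G g b S r b + M G g b S r (b + 1) :=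
      add_le_add h3 h4
    linarith
  · have h1 := h.1 hb
    have h2 := M_le_X (G := G) hg.nonneg hb S r
    have h3 := g_sum_le hg hb
    have hd := H.built.dist_le hG
    have h5 : ∀ k, M G g b S r k ≤ M G g b S r x.h := by
      intro k
      rcases le_total k x.h with hk | hk
      · exact M_mono hg.nonneg b S r hk
      · exact (M_const hg.nonneg hd hk).le
    have h6 := h5 m
    have h7 := h5 (m + 1)
    have h8 := M_mono (G := G) hg.nonneg b S r (Nat.le_succ x.h)
    have h9 : M G g b S r (Nat.succ x.h) = M G g b S r (x.h + 1) := rfl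
    rw [h9] at h8
    linarith

section
variable {g : ℕ → ℝ} {b t p : ℕ} {K ε κ α : ℝ}

private theorem NFD.α_small (D : NFD g b t p K ε κ α) : α ≤ K * (ε ^ 2 * b / 640000) := by
  have h1 := D.α_le
  have h2 := D.hp
  have h3 := D.κ1
  have h4 := D.Kpos
  have h5 := D.κpos
  have h6 : (0 : ℝ) ≤ p := Nat.cast_nonneg p
  have h7 : κ * K * p ≤ K * p := by
    have : κ * (K * p) ≤ 1 * (K * p) := mul_le_mul_of_nonneg_right h3 (by positivity)
    linarith
  have h8 : K * p ≤ K * (ε ^ 2 * b / 80000) := mul_le_mul_of_nonneg_left h2 h4.le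
  linarith

private theorem UB_zero (hG : G.Connected) (D : NFD g b t p K ε κ α) {x : RT} {S : Finset V}
    {r : V} (H : Tr G x S r) (hN : x.N t = 0) : UB G g b K x S r (κ * K * x.e) := by
  have hh : x.h < t := (RT.N_eq_zero D.t1 x).1 hN
  have he := RT.e_eq D.t1 (x := x) (by omega)
  have he' : (x.e : ℝ) = x.w t + x.h := by exact_mod_cast he
  intro m hm
  have h1 := single_light hG D.cf D.κpos.le D.κ1 D.t1 D.tb D.low H (by omega) (by
    have := D.tb
    omega) m
  have h2 := single_light hG D.cf D.κpos.le D.κ1 D.t1 D.tb D.low H (by omega) (by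
    have := D.tb
    omega) (m + 1)
  have h3 := D.low _ hh
  rw [he']
  nlinarith

private theorem UB_one (hG : G.Connected) (D : NFD g b t p K ε κ α) {x : RT} {S : Finset V}
    {r : V} (H : Tr G x S r) (hN : x.N t = 1) :
    UB G g b K x S r (κ * K / 2 * x.w t + 4 * α) := by
  intro m hm
  have := leg hG D H hN hm
  linarith

private theorem XB_one (hG : G.Connected) (D : NFD g b t p K ε κ α) {x : RT} {S : Finset V}
    {r : V} (H : Tr G x S r) (hN : x.N t ≤ 1) : XB G g b K x S r (κ * K * x.w t) := by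
  have he := RT.e_eq D.t1 (x := x) hN
  have he' : (x.e : ℝ) = x.w t + x.h := by exact_mod_cast he
  constructor
  · intro hb
    have := single_low hG D.cf D.κpos.le D.κ1 D.t1 D.tb D.low H hN hb
    rw [he']
    linarith
  · intro hb
    have := single_high hG D.cf D.κpos.le D.κ1 D.t1 D.tb D.low H hN hb
    rw [he']
    linarith

/-- The clean leg is the taller one. -/
private theorem XB_clean (hG : G.Connected) (D : NFD g b t p K ε κ α) {x y : RT}
    {S T : Finset V} {r : V} (HS : Tr G x S r) (HT : Tr G y T r) (hN : y.N t = 1)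
    (hx : t ≤ x.h) (hxb : x.h ≤ b) (hxy : x.h ≤ y.h) (hw : y.w t ≤ p) {R : ℝ}
    (hS : XB G g b K x S r R) :
    XB G g b K (RT.join x y) (S ∪ T) r (R + κ * K / 2 * y.w t + α) := by
  have h0 : (RT.join x y).h = max x.h y.h := rfl
  have he : ((RT.join x y).e : ℝ) = (x.e : ℝ) + y.e := by
    have : (RT.join x y).e = x.e + y.e := rfl
    rw [this]
    push_cast
    ring
  have he1 := RT.e_eq D.t1 (x := y) hN.le
  have he2 : (y.e : ℝ) = y.w t + y.h := by exact_mod_cast he1
  have hg := D.cf
  have hd := HS.built.dist_le hG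
  have hα := NFD.α_small D
  have hK := D.Kpos
  have hκ := D.κpos
  have hκ1 := D.κ1
  have hwn : (0 : ℝ) ≤ y.w t := Nat.cast_nonneg _
  have htb := D.tb'
  have hx' : (t : ℝ) ≤ x.h := by exact_mod_cast hx
  have hS1 := hS.1 hxb
  have hKb : K * ((b : ℝ) - x.h) ≤ K * (ε ^ 2 * b / 8000) :=
    mul_le_mul_of_nonneg_left (by linarith) hK.le
  have hKw : κ * K / 2 * (y.w t : ℝ) ≤ K * y.w t := by
    have h1 : κ * (K * (y.w t : ℝ)) ≤ 1 * (K * (y.w t : ℝ)) :=
      mul_le_mul_of_nonneg_right hκ1 (by positivity)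
    have h2 : 0 ≤ K * (y.w t : ℝ) := by positivity
    linarith
  have hεb : 0 ≤ K * (ε ^ 2 * b) := by positivity
  have key : ∀ H : ℕ, x.h ≤ H → H ≤ b →
      X G g b (S ∪ T) r H ≤ g 0 + 2 * ∑ j ∈ Icc 1 H, g j + K * ((x.e : ℝ) - x.h) - R +
        (K * y.h - K * (ε ^ 2 * b / 3200)) := by
    intro H hH hHb
    have h2 := X_join hG hg.nonneg hHb S T r
    have h3 := X_extend hg.nonneg hd hH hHb
    have h4 := leg_clean hG D HT hN hw hHb
    have h5 : ∑ j ∈ Icc 1 H, g j = ∑ j ∈ Icc 1 x.h, g j + ∑ j ∈ Icc (x.h + 1) H, g j := by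
      have h6 : Icc 1 H = Ico 1 (H + 1) := by
        ext j
        simp only [Finset.mem_Icc, Finset.mem_Ico]
        omega
      have h7 : Icc 1 x.h = Ico 1 (x.h + 1) := by
        ext j
        simp only [Finset.mem_Icc, Finset.mem_Ico]
        omega
      have h8 : Icc (x.h + 1) H = Ico (x.h + 1) (H + 1) := by
        ext j
        simp only [Finset.mem_Icc, Finset.mem_Ico]
        omega
      rw [h6, h7, h8]
      exact (Finset.sum_Ico_consecutive _ (by omega) (by omega)).symm
    have h9 : 0 ≤ ∑ j ∈ Icc (x.h + 1) H, g j := Finset.sum_nonneg fun i _ => hg.nonneg i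
    linarith
  constructor
  · intro h1
    rw [h0, max_eq_right hxy] at h1 ⊢
    rw [he, he2]
    have h2 := key y.h hxy h1
    have h3 : K * ((y.h : ℝ) - x.h) ≤ K * ((b : ℝ) - x.h) := by
      have : (y.h : ℝ) ≤ b := by exact_mod_cast h1
      exact mul_le_mul_of_nonneg_left (by linarith) hK.le
    have e1 : K * ((x.e : ℝ) + (y.w t + y.h) - y.h) = K * ((x.e : ℝ) - x.h) + K * y.w t +
      K * x.h := by ring
    have e2 : K * ((y.h : ℝ) - x.h) = K * y.h - K * x.h := by ring
    have e3 : K * ((b : ℝ) - x.h) = K * b - K * x.h := by ring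
    have e4 : K * (ε ^ 2 * b / 3200) = K * (ε ^ 2 * b) / 3200 := by ring
    have e5 : K * (ε ^ 2 * b / 8000) = K * (ε ^ 2 * b) / 8000 := by ring
    have e6 : K * (ε ^ 2 * b / 640000) = K * (ε ^ 2 * b) / 640000 := by ring
    rw [e1]
    rw [e2, e3] at h3
    rw [e3, e5] at hKb
    rw [e6] at hα
    rw [e4] at h2
    linarith
  · intro h1
    rw [h0, max_eq_right hxy] at h1
    rw [he, he2]
    have h2 := key b hxb le_rfl
    have h3 := hg.sum
    have e1 : K * ((x.e : ℝ) + (y.w t + y.h)) = K * ((x.e : ℝ) - x.h) + K * y.w t +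
      K * x.h + K * y.h := by ring
    have e3 : K * ((b : ℝ) - x.h) = K * b - K * x.h := by ring
    have e4 : K * (ε ^ 2 * b / 3200) = K * (ε ^ 2 * b) / 3200 := by ring
    have e5 : K * (ε ^ 2 * b / 8000) = K * (ε ^ 2 * b) / 8000 := by ring
    have e6 : K * (ε ^ 2 * b / 640000) = K * (ε ^ 2 * b) / 640000 := by ring
    rw [e1]
    rw [e3, e5] at hKb
    rw [e6] at hα
    rw [e4] at h2
    linarith

/-- A join of two long trees, the first one being the taller. -/
private theorem XB_two (hG : G.Connected) (D : NFD g b t p K ε κ α) {x y : RT}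
    {S T : Finset V} {r : V} (HS : Tr G x S r) (HT : Tr G y T r) (hx : 1 ≤ x.N t)
    (hy : 1 ≤ y.N t) (hyx : y.h ≤ x.h)
    (ihx : 2 ≤ x.N t → XB G g b K x S r (κ * K / 2 * x.w t + α * x.N t + 2 * K))
    (ihy : 2 ≤ y.N t → XB G g b K y T r (κ * K / 2 * y.w t + α * y.N t + 2 * K)) :
    XB G g b K (RT.join x y) (S ∪ T) r
      (κ * K / 2 * ((x.w t : ℝ) + y.w t) + α * ((x.N t : ℝ) + y.N t) + 2 * K) := by
  have hK := D.Kpos
  have hκ := D.κpos
  have hα := D.α_ge
  have hα2 := D.α_le
  have hwx : (0 : ℝ) ≤ x.w t := Nat.cast_nonneg _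
  have hwy : (0 : ℝ) ≤ y.w t := Nat.cast_nonneg _
  have hκw : 0 ≤ κ * K * x.w t := by positivity
  rcases Nat.lt_or_ge (x.N t) 2 with hx2 | hx2
  · have hx1 : x.N t = 1 := by omega
    have hx1' : (x.N t : ℝ) = 1 := by exact_mod_cast hx1
    rcases Nat.lt_or_ge (y.N t) 2 with hy2 | hy2
    · have hy1 : y.N t = 1 := by omega
      have hy1' : (y.N t : ℝ) = 1 := by exact_mod_cast hy1
      refine (keep hG D.cf (XB_one hG D HS (by omega)) (UB_one hG D HT hy1) (Or.inl hyx)).mono ?_
      rw [hx1', hy1']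
      linarith
    · have hyI := ihy hy2
      by_cases hb : b ≤ y.h
      · refine XB.comm ?_
        refine (keep hG D.cf hyI (UB_one hG D HS hx1) (Or.inr ⟨hb, by omega⟩)).mono ?_
        rw [hx1']
        linarith
      · rcases Nat.lt_or_ge p (x.w t) with hw | hw
        · refine (keep hG D.cf (XB_one hG D HS (by omega)) (UB_of_XB hG D.cf HT hyI)
            (Or.inl hyx)).mono ?_
          have hw' : (p : ℝ) ≤ x.w t := by exact_mod_cast hw.le
          have h1 : κ * K * p ≤ κ * K * x.w t := mul_le_mul_of_nonneg_left hw' (by positivity)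
          rw [hx1']
          linarith
        · refine XB.comm ?_
          have hty : t ≤ y.h := by
            by_contra hc
            have := (RT.N_eq_zero D.t1 y).2 (by omega)
            omega
          refine (XB_clean hG D HT HS hx1 hty (by omega) hyx hw hyI).mono ?_
          rw [hx1']
          linarith
  · have hxI := ihx hx2
    rcases Nat.lt_or_ge (y.N t) 2 with hy2 | hy2
    · have hy1 : y.N t = 1 := by omega
      have hy1' : (y.N t : ℝ) = 1 := by exact_mod_cast hy1
      refine (keep hG D.cf hxI (UB_one hG D HT hy1) (Or.inl hyx)).mono ?_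
      rw [hy1']
      linarith
    · refine (keep hG D.cf hxI (UB_of_XB hG D.cf HT (ihy hy2)) (Or.inl hyx)).mono ?_
      linarith

private theorem XB_multi (hG : G.Connected) (D : NFD g b t p K ε κ α) {x : RT}
    {S : Finset V} {r : V} (H : Tr G x S r) (hN : 2 ≤ x.N t) :
    XB G g b K x S r (κ * K / 2 * x.w t + α * x.N t + 2 * K) := by
  have hK := D.Kpos
  have hκ := D.κpos
  have hg := D.cf
  induction H with
  | pt r =>
    have : (RT.pt).N t = 0 := rfl
    omega
  | @ext x S c r H had hr ih =>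
    have h1 : (RT.ext x).N t = if x.h + 1 = t then 1 else x.N t := rfl
    have h2 : x.h + 1 ≠ t := by
      intro h
      rw [h1, if_pos h] at hN
      omega
    rw [h1, if_neg h2] at hN ⊢
    have h3 : (RT.ext x).w t = x.w t := rfl
    have h4 : (RT.ext x).h = x.h + 1 := rfl
    have h5 : (RT.ext x).e = x.e + 1 := rfl
    have hI := ih hN
    have hd := (Tr.ext r H had hr).built.dist_le hG
    rw [h4] at hd
    rw [h3]
    have low : x.h + 1 ≤ b → X G g b (insert r S) r (x.h + 1) ≤
        g 0 + 2 * ∑ j ∈ Icc 1 (x.h + 1), g j + K * ((x.e : ℝ) - x.h) -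
          (κ * K / 2 * x.w t + α * x.N t + 2 * K) := by
      intro hb
      have h6 := X_ext_low hG hg.nonneg H.mem hd had hb
      have h7 := hI.1 (by omega)
      have h8 := Finset.sum_Icc_succ_top (show 1 ≤ x.h + 1 by omega) g
      rw [h8]
      linarith
    constructor
    · rw [h4, h5]
      intro hb
      have h6 := low hb
      push_cast
      have e1 : K * ((x.e : ℝ) + 1 - (x.h + 1)) = K * ((x.e : ℝ) - x.h) := by ring
      rw [e1]
      exact h6
    · rw [h4, h5]
      intro hb
      push_cast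
      rcases Nat.lt_or_ge x.h b with hlt | hge
      · have h6 : x.h + 1 = b := by omega
        have h7 := low h6.le
        rw [h6] at h7
        have h8 := hg.sum
        have h9 : (x.h : ℝ) + 1 = b := by exact_mod_cast h6
        have h10 : K * ((x.e : ℝ) - x.h) = K * (x.e + 1) - K * b := by
          rw [← h9]
          ring
        rw [h10] at h7
        linarith
      · have h6 := X_ext_high hG hg.nonneg (b := b) H.mem had
        have h7 := hI.2 hge
        have h8 := hg.top
        linarith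
  | @join x y S T r HS HT hST ihx ihy =>
    have h1 : (RT.join x y).N t = x.N t + y.N t := rfl
    have h2 : (RT.join x y).w t = x.w t + y.w t + if min x.h y.h < t then min x.h y.h else 0 :=
      rfl
    rw [h1] at hN ⊢
    rw [h2]
    have zx := RT.N_eq_zero D.t1 x
    have zy := RT.N_eq_zero D.t1 y
    by_cases hy0 : y.N t = 0
    · have hyh := zy.1 hy0
      have hxh : t ≤ x.h := by
        by_contra hc
        have := zx.2 (by omega)
        omega
      have hmin : min x.h y.h = y.h := min_eq_right (by omega)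
      rw [hmin, if_pos hyh]
      have he := RT.e_eq D.t1 (x := y) (by omega)
      have he' : (y.e : ℝ) = y.w t + y.h := by exact_mod_cast he
      refine (keep hG hg (ihx (by omega)) (UB_zero hG D HT hy0) (Or.inl (by omega))).mono ?_
      rw [he', hy0]
      push_cast
      have h5 : 0 ≤ κ * K * (y.w t : ℝ) := by positivity
      have h6 : 0 ≤ κ * K * (y.h : ℝ) := by positivity
      linarith
    · by_cases hx0 : x.N t = 0
      · have hxh := zx.1 hx0
        have hyh : t ≤ y.h := by
          by_contra hc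
          have := zy.2 (by omega)
          omega
        have hmin : min x.h y.h = x.h := min_eq_left (by omega)
        rw [hmin, if_pos hxh]
        have he := RT.e_eq D.t1 (x := x) (by omega)
        have he' : (x.e : ℝ) = x.w t + x.h := by exact_mod_cast he
        refine XB.comm ?_
        refine (keep hG hg (ihy (by omega)) (UB_zero hG D HS hx0) (Or.inl (by omega))).mono ?_
        rw [he', hx0]
        push_cast
        have h5 : 0 ≤ κ * K * (x.w t : ℝ) := by positivity
        have h6 : 0 ≤ κ * K * (x.h : ℝ) := by positivity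
        linarith
      · have hxh : t ≤ x.h := by
          by_contra hc
          exact hx0 (zx.2 (by omega))
        have hyh : t ≤ y.h := by
          by_contra hc
          exact hy0 (zy.2 (by omega))
        have hmin : ¬ min x.h y.h < t := not_lt.2 (le_min hxh hyh)
        rw [if_neg hmin]
        rcases le_total y.h x.h with hyx | hxy
        · refine (XB_two hG D HS HT (by omega) (by omega) hyx ihx ihy).mono ?_
          push_cast
          linarith
        · refine XB.comm ?_
          refine (XB_two hG D HT HS (by omega) (by omega) hxy ihy ihx).mono ?_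
          push_cast
          linarith

end

theorem multi (hG : G.Connected) {g : ℕ → ℝ} {b t p : ℕ} {K ε κ α : ℝ}
    (D : NFD g b t p K ε κ α) {x : RT} {S : Finset V} {r : V} (H : Tr G x S r)
    (hN : 2 ≤ x.N t) :
    (x.h ≤ b → X G g b S r x.h ≤ g 0 + 2 * ∑ j ∈ Icc 1 x.h, g j + K * ((x.e : ℝ) - x.h) -
      κ * K / 2 * x.w t - α * x.N t - 2 * K) ∧
    (b ≤ x.h → X G g b S r b ≤ K * x.e - κ * K / 2 * x.w t - α * x.N t - 2 * K) := by
  have h := XB_multi hG D H hN
  exact ⟨fun h1 => (h.1 h1).trans (by linarith), fun h1 => (h.2 h1).trans (by linarith)⟩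

/-- All long trees together. -/
theorem high_all (hG : G.Connected) {g : ℕ → ℝ} {b t p : ℕ} {K ε κ α : ℝ}
    (D : NFD g b t p K ε κ α) {x : RT} {S : Finset V} {r : V} (H : Tr G x S r)
    (hb : b ≤ x.h) :
    X G g b S r b ≤ K * x.e - κ * K / 2 * x.w t - α * ((x.N t : ℝ) - 1) := by
  have hK := D.Kpos
  have hκ := D.κpos
  have hα := D.α_ge
  have htb := D.tb
  rcases Nat.lt_or_ge (x.N t) 2 with hx2 | hx2
  · have hx1 : x.N t = 1 := by
      have : x.N t ≠ 0 := by
        intro h
        have := (RT.N_eq_zero D.t1 x).1 h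
        omega
      omega
    have h1 := (XB_one hG D H hx1.le).2 hb
    have h2 : 0 ≤ κ * K * (x.w t : ℝ) := by positivity
    have h3 : (x.N t : ℝ) = 1 := by exact_mod_cast hx1
    rw [h3]
    linarith
  · have h1 := (multi hG D H hx2).2 hb
    have h2 : α * ((x.N t : ℝ) - 1) = α * x.N t - α := by ring
    rw [h2]
    linarith

end Pool.Agent.Helper51.ST
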