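import Pool.Agent.Helper51.ST.Defs

/-! # Project ST: the data of the non-flat case -/

set_option autoImplicit false

namespace Pool.Agent.Helper51.ST

open Finset Pool.Agent.Helper51.BN

/-- The data of the non-flat case: `t` is the height from which a branch counts as long, `p` the
amount of hair which makes a leg unclean, `α` (a quarter of) the gain of a leg. -/
structure NFD (g : ℕ → ℝ) (b t p : ℕ) (K ε κ α : ℝ) : Prop where
  cf : CF g b K
  Kpos : 0 < K
  εpos : 0 < ε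
  ε1 : ε ≤ 1
  nf : NF g b K ε
  κpos : 0 < κ
  κ1 : κ ≤ 1
  t1 : 1 ≤ t
  tb : t ≤ b
  tb' : (b : ℝ) - t ≤ ε ^ 2 * b / 8000
  low : ∀ j < t, 2 * ∑ i ∈ range j, g i ≤ (1 - κ) * K * j
  hp : (p : ℝ) ≤ ε ^ 2 * b / 80000
  big : 10 ^ 8 ≤ ε ^ 2 * b
  α_le : 8 * α ≤ κ * K * p
  α_ge : K ≤ α

end Pool.Agent.Helper51.ST
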