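import Pool.Agent.Helper51.ST.Basic

/-! # Project ST, module ST-11: changing the root -/

set_option autoImplicit false

namespace Pool.Agent.Helper51.ST

open Finset Pool.Agent.Helper51.BN

variable {V : Type*} [DecidableEq V] {G : SimpleGraph V}

/-- the conclusion of `reroot` -/
private def RerootGoal (G : SimpleGraph V) (b : ℕ) (x z : RT) (W : Finset V) : Prop :=
  ∃ (p : V) (x₁ x₂ : RT) (S₁ S₂ : Finset V), Tr G x₁ S₁ p ∧ Tr G x₂ S₂ p ∧ S₁ ∩ S₂ = {p} ∧
    S₁ ∪ S₂ = W ∧ x₁.e + x₂.e = x.e + z.e ∧ x₁.h = b ∧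
    (∀ t, 1 ≤ t → t ≤ b → x.N t + z.N t ≤ x₁.N t + x₂.N t ∧
      x.w t + z.w t + min z.h t ≤ x₁.w t + x₂.w t + t) ∧
    x.s (b + 1) + z.s (b + 1) + min z.h (b + 1) ≤ x₂.s (b + 1) + (b + 1)

private theorem reroot_base {x z : RT} {S U : Finset V} {r : V} (H : Tr G x S r)
    (HU : Tr G z U r) (hSU : S ∩ U = {r}) {b : ℕ} (hb : x.h = b) :
    RerootGoal G b x z (S ∪ U) := by
  refine ⟨r, x, z, S, U, H, HU, hSU, rfl, rfl, hb, fun t _ _ => ⟨le_rfl, ?_⟩, ?_⟩
  · have := min_le_right z.h t
    omega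
  · have h1 : x.s (b + 1) = 0 := RT.s_eq_zero (by omega)
    have := min_le_right z.h (b + 1)
    omega

private theorem reroot_join {x y z : RT} {W : Finset V} {b : ℕ} (hxy : y.h ≤ x.h)
    (h : RerootGoal G b x (RT.join z y) W) : RerootGoal G b (RT.join x y) z W := by
  obtain ⟨p, x₁, x₂, S₁, S₂, h1, h2, h3, h4, h5, h6, h7, h8⟩ := h
  refine ⟨p, x₁, x₂, S₁, S₂, h1, h2, h3, h4, ?_, h6, fun t ht1 ht2 => ⟨?_, ?_⟩, ?_⟩
  · simp only [RT.e] at h5 ⊢
    omega
  · have := (h7 t ht1 ht2).1
    simp only [RT.N] at this ⊢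
    omega
  · have := (h7 t ht1 ht2).2
    simp only [RT.w, RT.h] at this ⊢
    rw [min_eq_right hxy]
    rcases le_total z.h y.h with hzy | hzy
    · rw [min_eq_left hzy, max_eq_right hzy] at this
      split_ifs at this ⊢ <;> omega
    · rw [min_eq_right hzy, max_eq_left hzy] at this
      split_ifs at this ⊢ <;> omega
  · simp only [RT.s, RT.h] at h8 ⊢
    have h9 : min z.h (b + 1) ≤ min (max z.h y.h) (b + 1) :=
      min_le_min_right _ (le_max_left _ _)
    omega

private theorem reroot_join' {x y z : RT} {W : Finset V} {b : ℕ} (hxy : x.h ≤ y.h)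
    (h : RerootGoal G b y (RT.join z x) W) : RerootGoal G b (RT.join x y) z W := by
  obtain ⟨p, x₁, x₂, S₁, S₂, h1, h2, h3, h4, h5, h6, h7, h8⟩ := reroot_join hxy h
  refine ⟨p, x₁, x₂, S₁, S₂, h1, h2, h3, h4, ?_, h6, fun t ht1 ht2 => ⟨?_, ?_⟩, ?_⟩
  · simp only [RT.e] at h5 ⊢
    omega
  · have := (h7 t ht1 ht2).1
    simp only [RT.N] at this ⊢
    omega
  · have := (h7 t ht1 ht2).2
    simp only [RT.w] at this ⊢
    rw [min_comm x.h y.h]
    omega
  · simp only [RT.s] at h8 ⊢
    omega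

private theorem reroot_aux {x : RT} {S : Finset V} {r : V} (H : Tr G x S r) :
    ∀ (z : RT) (U : Finset V), Tr G z U r → S ∩ U = {r} → ∀ b : ℕ, b ≤ x.h →
      RerootGoal G b x z (S ∪ U) := by
  induction H with
  | pt r =>
    intro z U HU hSU b hb
    refine reroot_base (Tr.pt r) HU hSU ?_
    simp only [RT.h] at hb ⊢
    omega
  | @ext x' S' c r H' hadj hr ih =>
    intro z U HU hSU b hb
    rcases Nat.eq_or_lt_of_le hb with hb' | hb'
    · exact reroot_base (Tr.ext r H' hadj hr) HU hSU hb'.symm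
    have hbx : b ≤ x'.h := by
      simp only [RT.h] at hb'
      omega
    have hcS : c ∈ S' := H'.mem
    have hrU : r ∈ U := HU.mem
    have hne : c ≠ r := fun h => hr (h ▸ hcS)
    have hdis : ∀ v ∈ S', v ∉ U := by
      intro v hv hvU
      have h1 : v ∈ insert r S' ∩ U := mem_inter.2 ⟨mem_insert_of_mem hv, hvU⟩
      rw [hSU, mem_singleton] at h1
      exact hr (h1 ▸ hv)
    have HU' : Tr G (RT.ext z) (insert c U) c := Tr.ext c HU hadj.symm (hdis c hcS)
    have hint : S' ∩ insert c U = {c} := by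
      ext v
      rw [mem_inter, mem_insert, mem_singleton]
      constructor
      · rintro ⟨h1, h2 | h2⟩
        · exact h2
        · exact absurd h2 (hdis v h1)
      · rintro rfl
        exact ⟨hcS, Or.inl rfl⟩
    obtain ⟨p, x₁, x₂, S₁, S₂, h1, h2, h3, h4, h5, h6, h7, h8⟩ :=
      ih (RT.ext z) (insert c U) HU' hint b hbx
    refine ⟨p, x₁, x₂, S₁, S₂, h1, h2, h3, ?_, ?_, h6, fun t ht1 ht2 => ⟨?_, ?_⟩, ?_⟩
    · rw [h4]
      ext v
      simp only [mem_union, mem_insert]
      constructor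
      · rintro (h | rfl | h)
        · exact Or.inl (Or.inr h)
        · exact Or.inl (Or.inr hcS)
        · exact Or.inr h
      · rintro ((rfl | h) | h)
        · exact Or.inr (Or.inr hrU)
        · exact Or.inl h
        · exact Or.inr (Or.inr h)
    · simp only [RT.e] at h5 ⊢
      omega
    · have h9 := (h7 t ht1 ht2).1
      have h10 : z.N t ≤ (RT.ext z).N t := by
        simp only [RT.N]
        split_ifs with h
        · have : z.N t = 0 := (RT.N_eq_zero ht1 z).2 (by omega)
          omega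
        · exact le_rfl
      have h11 : (RT.ext x').N t = x'.N t := by
        simp only [RT.N]
        rw [if_neg]
        omega
      rw [h11]
      omega
    · have h9 := (h7 t ht1 ht2).2
      simp only [RT.w, RT.h] at h9 ⊢
      have h10 : min z.h t ≤ min (z.h + 1) t := min_le_min_right _ (Nat.le_succ _)
      omega
    · simp only [RT.s, RT.h] at h8 ⊢
      rw [if_pos (by omega : b + 1 ≤ x'.h + 1)]
      split_ifs at h8 <;> omega
  | @join x' y' S' T' r H1 H2 hST ih1 ih2 =>
    intro z U HU hSU b hb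
    rcases Nat.eq_or_lt_of_le hb with hb' | hb'
    · exact reroot_base (Tr.join H1 H2 hST) HU hSU hb'.symm
    have hr1 : r ∈ S' := H1.mem
    have hr2 : r ∈ T' := H2.mem
    have hrU : r ∈ U := HU.mem
    have hU : ∀ v ∈ U, v ∈ S' ∪ T' → v = r := by
      intro v hv hv'
      have h1 : v ∈ (S' ∪ T') ∩ U := mem_inter.2 ⟨hv', hv⟩
      rwa [hSU, mem_singleton] at h1
    have hS : ∀ v ∈ S', v ∈ T' → v = r := by
      intro v hv hv'
      have h1 : v ∈ S' ∩ T' := mem_inter.2 ⟨hv, hv'⟩
      rwa [hST, mem_singleton] at h1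
    rcases le_total y'.h x'.h with hxy | hxy
    · have hbx : b ≤ x'.h := by
        simp only [RT.h] at hb'
        rw [max_eq_left hxy] at hb'
        omega
      have hUT : U ∩ T' = {r} := by
        ext v
        rw [mem_inter, mem_singleton]
        constructor
        · rintro ⟨h1, h2⟩
          exact hU v h1 (mem_union_right _ h2)
        · rintro rfl
          exact ⟨hrU, hr2⟩
      have hSUT : S' ∩ (U ∪ T') = {r} := by
        ext v
        rw [mem_inter, mem_union, mem_singleton]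
        constructor
        · rintro ⟨h1, h2 | h2⟩
          · exact hU v h2 (mem_union_left _ h1)
          · exact hS v h1 h2
        · rintro rfl
          exact ⟨hr1, Or.inl hrU⟩
      have h1 := ih1 (RT.join z y') (U ∪ T') (Tr.join HU H2 hUT) hSUT b hbx
      have e : S' ∪ (U ∪ T') = S' ∪ T' ∪ U := by
        rw [union_comm U T', union_assoc]
      rw [e] at h1
      exact reroot_join hxy h1
    · have hbx : b ≤ y'.h := by
        simp only [RT.h] at hb'
        rw [max_eq_right hxy] at hb'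
        omega
      have hUS : U ∩ S' = {r} := by
        ext v
        rw [mem_inter, mem_singleton]
        constructor
        · rintro ⟨h1, h2⟩
          exact hU v h1 (mem_union_left _ h2)
        · rintro rfl
          exact ⟨hrU, hr1⟩
      have hTUS : T' ∩ (U ∪ S') = {r} := by
        ext v
        rw [mem_inter, mem_union, mem_singleton]
        constructor
        · rintro ⟨h1, h2 | h2⟩
          · exact hU v h2 (mem_union_right _ h1)
          · exact hS v h2 h1
        · rintro rfl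
          exact ⟨hr2, Or.inl hrU⟩
      have h1 := ih2 (RT.join z x') (U ∪ S') (Tr.join HU H1 hUS) hTUS b hbx
      have e : T' ∪ (U ∪ S') = S' ∪ T' ∪ U := by
        ext v
        simp only [mem_union]
        tauto
      rw [e] at h1
      exact reroot_join' hxy h1

theorem reroot {x z : RT} {S U : Finset V} {r : V} (H : Tr G x S r) (HU : Tr G z U r)
    (hSU : S ∩ U = {r}) {b : ℕ} (hb : b ≤ x.h) :
    ∃ (p : V) (x₁ x₂ : RT) (S₁ S₂ : Finset V), Tr G x₁ S₁ p ∧ Tr G x₂ S₂ p ∧ S₁ ∩ S₂ = {p} ∧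
      S₁ ∪ S₂ = S ∪ U ∧ x₁.e + x₂.e = x.e + z.e ∧ x₁.h = b ∧
      (∀ t, 1 ≤ t → t ≤ b → x.N t + z.N t ≤ x₁.N t + x₂.N t ∧
        x.w t + z.w t + min z.h t ≤ x₁.w t + x₂.w t + t) ∧
      x.s (b + 1) + z.s (b + 1) + min z.h (b + 1) ≤ x₂.s (b + 1) + (b + 1) :=
  reroot_aux H z U HU hSU b hb

end Pool.Agent.Helper51.ST
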