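import Pool.Agent.Helper51.ST.Multi
import Pool.Agent.Helper51.ST.Reroot

/-! # Project ST, module ST-12: the gain of a piece in the non-flat case -/

set_option autoImplicit false

namespace Pool.Agent.Helper51.ST

open Finset Pool.Agent.Helper51.BN

variable {V : Type*} [Fintype V] [DecidableEq V] {G : SimpleGraph V}

omit [Fintype V] [DecidableEq V] in
private theorem one_ball' {g : ℕ → ℝ} {b t p : ℕ} {K ε κ α : ℝ}
    (D : NFD g b t p K ε κ α) {x : RT} {S : Finset V} {q : V}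
    (he : 8 * b ≤ x.e) (hS : ∀ v ∈ S, G.dist q v ≤ b) :
    ∃ C : Finset (V × ℕ), (∀ p ∈ C, p.2 ≤ b) ∧ (∀ v ∈ S, ∃ p ∈ C, G.dist p.1 v ≤ p.2) ∧
      (2 * b + 1) * cost g C ≤
        K * x.e - κ * K / 2 * ((x.w t : ℝ) - t) - α * ((x.N t : ℝ) - 2) := by
  refine ⟨{(q, b)}, by simp, fun v hv => ⟨(q, b), by simp, hS v hv⟩, ?_⟩
  have h1 : cost g ({(q, b)} : Finset (V × ℕ)) = g b := by simp [cost]
  rw [h1]
  have hK := D.Kpos
  have hb1 : (1 : ℝ) ≤ b := by exact_mod_cast D.t1.trans D.tb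
  have ht1 : (1 : ℝ) ≤ t := by exact_mod_cast D.t1
  have hε2 : ε ^ 2 ≤ 1 := by
    have := D.εpos
    have := D.ε1
    nlinarith
  have hε2b : ε ^ 2 * b ≤ b := by nlinarith
  have htb : (b : ℝ) ≤ 2 * t := by
    have := D.tb'
    linarith
  have hp : (p : ℝ) ≤ b / 80000 := by
    have := D.hp
    linarith
  have hα : 640000 * α ≤ K * b := by
    have h2 := D.α_le
    have h3 : κ * K * p ≤ K * p := by
      have h4 : 0 ≤ K * (p : ℝ) := by positivity
      have := D.κ1
      nlinarith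
    have h5 : K * (p : ℝ) ≤ K * (b / 80000) := mul_le_mul_of_nonneg_left hp hK.le
    linarith
  have hα0 : 0 ≤ α := hK.le.trans D.α_ge
  have h6 : (t : ℝ) * x.N t + x.w t ≤ x.e := by exact_mod_cast RT.N_mul_le D.t1 x
  have h7 : α * (x.N t : ℝ) ≤ K / 2 * (t * x.N t) := by
    have h8 : α ≤ K / 2 * t := by nlinarith
    have h9 : (0 : ℝ) ≤ x.N t := Nat.cast_nonneg _
    nlinarith
  have h10 : κ * K / 2 * (x.w t : ℝ) ≤ K / 2 * x.w t := by
    have h9 : (0 : ℝ) ≤ x.w t := Nat.cast_nonneg _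
    have h11 : κ * K ≤ K := by
      have := D.κ1
      nlinarith
    nlinarith
  have h12 : 0 ≤ κ * K / 2 * (t : ℝ) := by
    have := D.κpos
    positivity
  have h13 : (8 : ℝ) * b ≤ x.e := by exact_mod_cast he
  have h14 : (2 * (b : ℝ) + 1) * g b ≤ 3 * b * K := by
    have h15 := D.cf.nonneg b
    have h16 := D.cf.top
    calc (2 * (b : ℝ) + 1) * g b ≤ (3 * b) * K :=
          mul_le_mul (by linarith) h16 h15 (by positivity)
      _ = 3 * b * K := rfl
  have h17 : K / 2 * ((t : ℝ) * x.N t + x.w t) ≤ K / 2 * x.e :=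
    mul_le_mul_of_nonneg_left h6 (by positivity)
  have h18 : K / 2 * (8 * (b : ℝ)) ≤ K / 2 * x.e :=
    mul_le_mul_of_nonneg_left h13 (by positivity)
  have h19 : 0 ≤ K * (b : ℝ) := by positivity
  nlinarith

theorem nonflat_piece (hG : G.Connected) {g : ℕ → ℝ} {b t p : ℕ} {K ε κ α : ℝ}
    (D : NFD g b t p K ε κ α) {x : RT} {S : Finset V} {r : V} (H : Tr G x S r)
    (he : 8 * b ≤ x.e) :
    ∃ C : Finset (V × ℕ), (∀ p ∈ C, p.2 ≤ b) ∧ (∀ v ∈ S, ∃ p ∈ C, G.dist p.1 v ≤ p.2) ∧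
      (2 * b + 1) * cost g C ≤
        K * x.e - κ * K / 2 * ((x.w t : ℝ) - t) - α * ((x.N t : ℝ) - 2) := by
  rcases le_total x.h b with hb | hb
  · exact one_ball' D he fun v hv => (H.built.dist_le hG v hv).trans hb
  · have hrS : S ∩ {r} = {r} := by
      rw [inter_eq_right, singleton_subset_iff]
      exact H.mem
    obtain ⟨q, x₁, x₂, S₁, S₂, H1, H2, h12, hU, hE, h1h, hNw, -⟩ := reroot H (Tr.pt r) hrS hb
    have hSr : S ∪ {r} = S := by
      rw [union_eq_left, singleton_subset_iff]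
      exact H.mem
    rw [hSr] at hU
    simp only [RT.e, add_zero] at hE
    obtain ⟨hN, hw⟩ := hNw t D.t1 D.tb
    simp only [RT.N, RT.w, RT.h, add_zero, Nat.zero_min] at hN hw
    rcases le_total x₂.h b with hk | hk
    · refine one_ball' D he (q := q) fun v hv => ?_
      rw [← hU, mem_union] at hv
      rcases hv with hv | hv
      · exact (H1.built.dist_le hG v hv).trans h1h.le
      · exact (H2.built.dist_le hG v hv).trans hk
    · have h0 := two_sided_X hG D.cf.nonneg (b := b) S₁ S₂ q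
      have h1 := high_all hG D H1 h1h.ge
      have h2 := high_all hG D H2 hk
      obtain ⟨C, hC1, hC2, hC3⟩ := exists_F (G := G) D.cf.nonneg (b := b) (S₁ ∪ S₂) q
        (s := 0) (by omega)
      refine ⟨C, hC1, fun v hv => ?_, ?_⟩
      · rw [← hU] at hv
        rcases hC2.1 v hv with h | h
        · exact h
        · exfalso
          omega
      · rw [hC3]
        have h3 : ((x₁.e : ℝ) + x₂.e) = x.e := by exact_mod_cast hE
        have h4 : (x.N t : ℝ) ≤ x₁.N t + x₂.N t := by exact_mod_cast hN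
        have h5 : (x.w t : ℝ) ≤ x₁.w t + x₂.w t + t := by exact_mod_cast hw
        have hα0 : 0 ≤ α := D.Kpos.le.trans D.α_ge
        have h6 : 0 ≤ κ * K / 2 := by
          have := D.κpos
          have := D.Kpos
          positivity
        have h7 : α * (x.N t : ℝ) ≤ α * (x₁.N t + x₂.N t) := mul_le_mul_of_nonneg_left h4 hα0
        have h8 : κ * K / 2 * (x.w t : ℝ) ≤ κ * K / 2 * (x₁.w t + x₂.w t + t) :=
          mul_le_mul_of_nonneg_left h5 h6
        have h9 : K * ((x₁.e : ℝ) + x₂.e) = K * x.e := by rw [h3]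
        linarith

end Pool.Agent.Helper51.ST
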