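import Pool.Agent.Helper51.ST.PathBasic

/-! # Project ST, module ST-6b: the window inequality for paths -/

set_option autoImplicit false

namespace Pool.Agent.Helper51.ST

open Finset Pool.Agent.Helper51.BN

private theorem base {g : ℕ → ℝ} (hg : ∀ i, 0 ≤ g i) {b : ℕ} :
    ∀ n, n ≤ b → ∑ y ∈ Icc 1 (2 * n + 1), P g b y ≤ g 0 + 2 * ∑ j ∈ Icc 1 n, g j := by
  intro n
  induction n with
  | zero =>
    intro _
    simp only [Nat.mul_zero, Nat.zero_add, Icc_self, sum_singleton]
    have h := P_one hg (b := b) (r := 0) (y := 1) (Nat.zero_le b) (by omega)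
    simpa using h
  | succ n ih =>
    intro hn
    have h1 := ih (by omega)
    have e1 : 2 * (n + 1) + 1 = 2 * n + 1 + 1 + 1 := by ring
    rw [e1, Finset.sum_Icc_succ_top (by omega), Finset.sum_Icc_succ_top (by omega),
      Finset.sum_Icc_succ_top (b := n) (by omega) (fun j => g j)]
    have h2 := P_one hg (b := b) (r := n + 1) (y := 2 * n + 1 + 1) hn (by omega)
    have h3 := P_one hg (b := b) (r := n + 1) (y := 2 * n + 1 + 1 + 1) hn (by omega)
    linarith

theorem window {g : ℕ → ℝ} {b : ℕ} {K : ℝ} (hg : CF g b K) {L : ℕ} (hL : b ≤ L) :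
    ∑ y ∈ Icc (L + 1 - b) (L + 1 + b), P g b y ≤ K * L := by
  induction L, hL using Nat.le_induction with
  | base =>
    have h := base hg.nonneg b le_rfl
    have e1 : b + 1 - b = 1 := by omega
    have e2 : b + 1 + b = 2 * b + 1 := by ring
    rw [e1, e2]
    exact h.trans hg.sum
  | succ L hL ih =>
    have e1 : Icc (L + 1 - b) (L + 1 + b) = insert (L + 1 - b) (Icc (L + 1 + 1 - b) (L + 1 + b)) := by
      ext y
      simp only [mem_insert, mem_Icc]
      omega
    have e2 : L + 1 + 1 + b = (L + 1 + b) + 1 := by ring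
    rw [e2, Finset.sum_Icc_succ_top (by omega)]
    rw [e1, Finset.sum_insert (by simp only [mem_Icc]; omega)] at ih
    have h := P_add hg.nonneg (b := b) (r := b) le_rfl (L + 1 - b)
    have e3 : L + 1 - b + (2 * b + 1) = L + 1 + b + 1 := by omega
    rw [e3] at h
    have h2 := hg.top
    push_cast
    linarith

end Pool.Agent.Helper51.ST
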