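import Pool.Agent.Helper51.ST.XM
import Pool.Agent.Helper51.ST.Reroot

/-! # Project ST, module ST-14: the gain of stems -/

set_option autoImplicit false

namespace Pool.Agent.Helper51.ST

open Finset Pool.Agent.Helper51.BN

variable {V : Type*} [Fintype V] [DecidableEq V] {G : SimpleGraph V}

private theorem tall (hG : G.Connected) {g : ℕ → ℝ} {b : ℕ} {K : ℝ} (hg : CF g b K) {x : RT}
    {S : Finset V} {r : V} (H : Tr G x S r) (hb : b ≤ x.h) :
    X G g b S r b ≤ K * x.e :=
  high hG hg H.built hb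

private theorem stem_eq (hG : G.Connected) {g : ℕ → ℝ} {b : ℕ} {K : ℝ} (hg : CF g b K) {x : RT}
    {S : Finset V} {r : V} (H : Tr G x S r) (hb : b = x.h) :
    X G g b S r b ≤ K * x.e - (K - g b) * x.s (b + 1) := by
  have h1 := tall hG hg H hb.le
  have h2 : x.s (b + 1) = 0 := RT.s_eq_zero (by omega)
  rw [h2]
  push_cast
  linarith

private theorem upper (hG : G.Connected) {g : ℕ → ℝ} {b : ℕ} {K : ℝ} (hg : CF g b K) {y : RT}
    {T : Finset V} {r : V} (H : Tr G y T r)
    (ih : b ≤ y.h → X G g b T r b ≤ K * y.e - (K - g b) * y.s (b + 1)) :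
    M G g b T r b + M G g b T r (b + 1) ≤ K * y.e - (K - g b) * y.s (b + 1) := by
  rcases le_total y.h b with hk | hk
  · have h1 := light hG hg H.built hk b
    have h2 := light hG hg H.built hk (b + 1)
    have h3 := sum_range_le hg hk
    have h4 : y.s (b + 1) = 0 := RT.s_eq_zero (by omega)
    rw [h4]
    unfold M
    push_cast
    nlinarith
  · exact (M_le_X hg.nonneg le_rfl T r).trans (ih hk)

private theorem stem_join (hG : G.Connected) {g : ℕ → ℝ} {b : ℕ} {K : ℝ} (hg : CF g b K)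
    {x y : RT} {S T : Finset V} {r : V}
    (hx : X G g b S r b ≤ K * x.e - (K - g b) * x.s (b + 1)) (HT : Tr G y T r)
    (ih : b ≤ y.h → X G g b T r b ≤ K * y.e - (K - g b) * y.s (b + 1)) :
    X G g b (S ∪ T) r b ≤ K * ((x.e : ℝ) + y.e) - (K - g b) * ((x.s (b + 1) : ℝ) + y.s (b + 1)) := by
  have h1 := X_join hG hg.nonneg (le_refl b) S T r (g := g)
  have h2 := upper hG hg HT ih
  linarith

theorem stem_high (hG : G.Connected) {g : ℕ → ℝ} {b : ℕ} {K : ℝ} (hg : CF g b K) {x : RT}
    {S : Finset V} {r : V} (H : Tr G x S r) (hb : b ≤ x.h) :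
    X G g b S r b ≤ K * x.e - (K - g b) * x.s (b + 1) := by
  induction H with
  | pt r =>
    exact stem_eq hG hg (Tr.pt r) (le_antisymm hb (Nat.zero_le b))
  | @ext x S c r H hadj hr ih =>
    have hh : (RT.ext x).h = x.h + 1 := rfl
    have he : (RT.ext x).e = x.e + 1 := rfl
    have hs : (RT.ext x).s (b + 1) = x.s (b + 1) + if b + 1 ≤ x.h + 1 then 1 else 0 := rfl
    rcases Nat.lt_or_ge x.h b with hlt | hge
    · exact stem_eq hG hg (Tr.ext r H hadj hr) (by omega)
    · have h1 := ih hge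
      have h2 := X_ext_high (b := b) hG hg.nonneg H.mem hadj
      rw [hs, he, if_pos (by omega)]
      push_cast
      linarith
  | @join x y S T r HS HT hST ihS ihT =>
    have hh : (RT.join x y).h = max x.h y.h := rfl
    have he : (RT.join x y).e = x.e + y.e := rfl
    have hs : (RT.join x y).s (b + 1) = x.s (b + 1) + y.s (b + 1) := rfl
    rw [he, hs]
    push_cast
    rcases le_total y.h x.h with hk | hk
    · exact stem_join hG hg (ihS (by omega)) HT ihT
    · have h1 := stem_join hG hg (ihT (by omega)) HS ihS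
      rw [union_comm, add_comm (x.e : ℝ), add_comm (x.s (b + 1) : ℝ)]
      exact h1

private theorem one_ball {g : ℕ → ℝ} {b : ℕ} {K : ℝ} (hg : CF g b K) {S : Finset V} {p : V}
    {e s : ℕ} (he : 2 * b + 1 ≤ e) (hs : s ≤ b + 1) (hS : ∀ v ∈ S, G.dist p v ≤ b) :
    ∃ C : Finset (V × ℕ), (∀ p ∈ C, p.2 ≤ b) ∧ (∀ v ∈ S, ∃ p ∈ C, G.dist p.1 v ≤ p.2) ∧
      (2 * b + 1) * cost g C ≤ K * e - (K - g b) * ((s : ℝ) - (b + 1)) := by
  refine ⟨{(p, b)}, by simp, fun v hv => ⟨(p, b), by simp, hS v hv⟩, ?_⟩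
  have h1 : cost g ({(p, b)} : Finset (V × ℕ)) = g b := by simp [cost]
  rw [h1]
  have h2 : (2 * (b : ℝ) + 1) ≤ e := by exact_mod_cast he
  have h3 := hg.nonneg b
  have h4 := hg.top
  have h5 : (s : ℝ) ≤ b + 1 := by exact_mod_cast hs
  have h6 : (2 * (b : ℝ) + 1) * g b ≤ (e : ℝ) * K :=
    mul_le_mul h2 h4 h3 (by positivity)
  have h7 : 0 ≤ (K - g b) * ((b : ℝ) + 1 - s) :=
    mul_nonneg (by linarith) (by linarith)
  nlinarith

theorem stem_piece (hG : G.Connected) {g : ℕ → ℝ} {b : ℕ} {K : ℝ} (hg : CF g b K) {x : RT}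
    {S : Finset V} {r : V} (H : Tr G x S r) (he : 2 * b + 1 ≤ x.e) :
    ∃ C : Finset (V × ℕ), (∀ p ∈ C, p.2 ≤ b) ∧ (∀ v ∈ S, ∃ p ∈ C, G.dist p.1 v ≤ p.2) ∧
      (2 * b + 1) * cost g C ≤ K * x.e - (K - g b) * ((x.s (b + 1) : ℝ) - (b + 1)) := by
  rcases le_total x.h b with hb | hb
  · have h1 : x.s (b + 1) = 0 := RT.s_eq_zero (by omega)
    rw [h1]
    exact one_ball hg he (Nat.zero_le _) fun v hv => (H.built.dist_le hG v hv).trans hb
  · have hr : S ∩ {r} = {r} := by
      rw [inter_eq_right, singleton_subset_iff]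
      exact H.mem
    obtain ⟨p, x₁, x₂, S₁, S₂, H1, H2, -, hU, hE, h1, -, hs⟩ := reroot H (Tr.pt r) hr hb
    have hSr : S ∪ {r} = S := by
      rw [union_eq_left, singleton_subset_iff]
      exact H.mem
    rw [hSr] at hU
    have e0 : RT.pt.e = 0 := rfl
    have s0 : RT.pt.s (b + 1) = 0 := rfl
    have m0 : min RT.pt.h (b + 1) = 0 := Nat.zero_min _
    rw [e0, add_zero] at hE
    rw [s0, m0, add_zero, add_zero] at hs
    rcases le_total x₂.h b with hk | hk
    · have h2 : x₂.s (b + 1) = 0 := RT.s_eq_zero (by omega)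
      refine one_ball hg he (p := p) (by omega) fun v hv => ?_
      rw [← hU, mem_union] at hv
      rcases hv with hv | hv
      · exact (H1.built.dist_le hG v hv).trans h1.le
      · exact (H2.built.dist_le hG v hv).trans hk
    · have h2 := two_sided_X hG hg.nonneg (b := b) S₁ S₂ p
      have h3 := tall hG hg H1 h1.ge
      have h4 := stem_high hG hg H2 hk
      obtain ⟨C, hC1, hC2, hC3⟩ := exists_F (G := G) hg.nonneg (b := b) (S₁ ∪ S₂) p
        (s := 0) (by omega)
      refine ⟨C, hC1, fun v hv => ?_, ?_⟩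
      · rw [← hU] at hv
        rcases hC2.1 v hv with h | h
        · exact h
        · exfalso
          omega
      · rw [hC3]
        have h5 : ((x₁.e : ℝ) + x₂.e) = x.e := by exact_mod_cast hE
        have h6 : (x.s (b + 1) : ℝ) ≤ x₂.s (b + 1) + (b + 1) := by exact_mod_cast hs
        have h7 : 0 ≤ K - g b := by
          have := hg.top
          linarith
        have h8 := mul_le_mul_of_nonneg_left h6 h7
        have h9 : K * (x.e : ℝ) = K * x₁.e + K * x₂.e := by rw [← h5]; ring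
        rw [h9]
        linarith

end Pool.Agent.Helper51.ST
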